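import Pool.Agent.Q197.PD.Det

/-!
# Power sums over the elements of a block
-/

set_option autoImplicit false

namespace Pool.Agent.Q197.PD

open Finset MeasureTheory Filter Pool.Agent.Q120.ET Pool.Agent.Q120.SP

open Classical in
/-- the elements in a block -/
noncomputable def el (S : Set ℕ) (k : ℕ) : Finset ℕ := (block k).filter fun a => a ∈ S

theorem mem_el {S : Set ℕ} {k a : ℕ} : a ∈ el S k ↔ a ∈ block k ∧ a ∈ S := by
  classical
  unfold el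
  rw [mem_filter]

theorem card_el (S : Set ℕ) (k : ℕ) : ((el S k).card : ℝ) ≤ 2 ^ k := by
  classical
  have : (el S k).card ≤ 2 ^ k := by
    unfold el
    refine (card_filter_le _ _).trans ?_
    rw [block, Nat.card_Ico, pow_succ]
    omega
  exact_mod_cast this

theorem bs_mono {k : ℕ} (hk : 1 ≤ k) (h : ℕ) : bs k h ≤ bs (k + 1) h := by
  unfold bs
  have hk0 : (0 : ℝ) < k := by exact_mod_cast (show 0 < k by omega)
  apply mul_le_mul
  · exact pow_le_pow_right₀ (by norm_num) (by omega)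
  · apply Real.exp_le_exp.2
    have : (h : ℝ) / (4 * ((k + 1 : ℕ) : ℝ)) ≤ h / (4 * k) := by
      apply div_le_div_of_nonneg_left (by positivity) (by positivity)
      push_cast
      linarith
    linarith
  · exact (Real.exp_pos _).le
  · positivity

theorem gap_le {β : ℝ} {k : ℕ} {x : ℕ} {S : Set ℕ} {s : ℝ} (hs : 0 ≤ s)
    (h1 : x < nx S x) (h2 : (nx S x : ℝ) ≤ x + (2 : ℝ) ^ (β * k)) :
    ((nx S x : ℝ) - x) ^ s ≤ 4 ^ s + ∑ i ∈ range (II β k + 1),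
      if x + 4 * 2 ^ i < nx S x then (8 * (2 : ℝ) ^ i) ^ s else 0 := by
  have hnn : ∀ i ∈ range (II β k + 1), (0 : ℝ) ≤ if x + 4 * 2 ^ i < nx S x then (8 * (2 : ℝ) ^ i) ^ s else 0 := by
    intro i _
    split_ifs
    · positivity
    · exact le_rfl
  have hx0 : (0 : ℝ) ≤ (nx S x : ℝ) - x := by
    have : (x : ℝ) ≤ nx S x := by exact_mod_cast h1.le
    linarith
  by_cases hg : nx S x ≤ x + 4
  · have h3 : ((nx S x : ℝ) - x) ^ s ≤ 4 ^ s := by
      apply Real.rpow_le_rpow hx0 _ hs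
      have : (nx S x : ℝ) ≤ x + 4 := by exact_mod_cast hg
      linarith
    have := sum_nonneg hnn
    linarith
  · push Not at hg
    obtain ⟨g, hg'⟩ : ∃ g, nx S x = x + g := ⟨nx S x - x, by omega⟩
    obtain ⟨i, hi⟩ : ∃ i, i = Nat.log 2 ((g - 1) / 4) := ⟨_, rfl⟩
    have h3 : 2 ^ i ≤ (g - 1) / 4 := by
      rw [hi]
      exact Nat.pow_log_le_self 2 (by omega)
    have h4 : (g - 1) / 4 < 2 ^ (i + 1) := by
      rw [hi]
      exact Nat.lt_pow_succ_log_self (by norm_num) _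
    rw [pow_succ] at h4
    have h5 : x + 4 * 2 ^ i < nx S x := by omega
    have h6 : g ≤ 8 * 2 ^ i := by omega
    have hgR : (nx S x : ℝ) - x = g := by rw [hg']; push_cast; ring
    have h7 : i ≤ II β k := by
      unfold II
      apply Nat.le_log_of_pow_le (by norm_num)
      apply Nat.le_floor
      push_cast
      have h8 : (2 : ℝ) ^ i ≤ g := by exact_mod_cast (show 2 ^ i ≤ g by omega)
      have : (g : ℝ) ≤ (2 : ℝ) ^ (β * k) := by rw [← hgR]; linarith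
      linarith
    have h8 := single_le_sum hnn (mem_range.2 (Nat.lt_succ_of_le h7))
    rw [if_pos h5] at h8
    have h9 : ((nx S x : ℝ) - x) ^ s ≤ (8 * (2 : ℝ) ^ i) ^ s := by
      apply Real.rpow_le_rpow hx0 _ hs
      rw [hgR]
      exact_mod_cast h6
    have : (0 : ℝ) ≤ 4 ^ s := by positivity
    linarith

/-- the power sum over a block -/
theorem block_sum {β : ℝ} (hβ : 0 < β) (hβ1 : β ≤ 1 / 2) {s : ℝ} (hs : 2 ≤ s) :
    ∃ C : ℝ, 0 < C ∧ ∀ (S : Set ℕ) (T T' : Finset ℕ) (k : ℕ), 1 ≤ k → (∀ n ∈ T, n ∈ S) →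
      (∀ n ∈ T', n ∈ S) → (∀ a ∈ el S k, a < nx S a ∧ (nx S a : ℝ) ≤ a + (2 : ℝ) ^ (β * k)) →
      ∑ a ∈ el S k, ((nx S a : ℝ) - a) ^ s ≤ C * 2 ^ k * ((k : ℝ) + 1) ^ (s - 1) +
        8 ^ s * ((2 : ℝ) ^ (β * k)) ^ (s - 2) * (Y k (II β k) T + Y (k + 1) (II β (k + 1)) T') := by
  obtain ⟨Cm, hCm, hC⟩ := dyadic_sum (m := s - 1) (by linarith)
  refine ⟨4 ^ s + 8 ^ s * 4 * Real.exp 1 * Cm * 4 ^ (s - 1), by positivity, ?_⟩
  intro S T T' k hk hT hT' hgap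
  have hk0 : (0 : ℝ) < k := by exact_mod_cast (show 0 < k by omega)
  obtain ⟨L, hL⟩ : ∃ L : ℝ, L = (2 : ℝ) ^ (β * k) := ⟨_, rfl⟩
  have hL1 : 1 ≤ L := by rw [hL]; exact one_le_L hβ k
  have hL2k : L ≤ 2 ^ k := by
    rw [hL, ← Real.rpow_natCast]
    apply Real.rpow_le_rpow_of_exponent_le (by norm_num)
    nlinarith
  have h1 : ∑ a ∈ el S k, ((nx S a : ℝ) - a) ^ s ≤ ∑ a ∈ el S k, (4 ^ s + ∑ i ∈ range (II β k + 1),
      if a + 4 * 2 ^ i < nx S a then (8 * (2 : ℝ) ^ i) ^ s else 0) :=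
    sum_le_sum fun a ha => gap_le (by linarith) (hgap a ha).1 (hgap a ha).2
  rw [sum_add_distrib, sum_const, nsmul_eq_mul, sum_comm] at h1
  have hi2 : ∀ i ∈ range (II β k + 1), (2 : ℝ) ^ i ≤ L := by
    intro i hi
    rw [mem_range] at hi
    refine le_trans ?_ (hL ▸ pow_II hβ k)
    exact pow_le_pow_right₀ (by norm_num) (by omega)
  have h2 : ∀ i ∈ range (II β k + 1), (∑ a ∈ el S k, if a + 4 * 2 ^ i < nx S a then (8 * (2 : ℝ) ^ i) ^ s else 0) ≤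
      8 ^ s * (4 * 2 ^ k * Real.exp 1) * (((2 : ℝ) ^ i) ^ (s - 1) * Real.exp (-(2 ^ i / (4 * ((k : ℝ) + 1))))) +
      8 ^ s * L ^ (s - 2) * (2 ^ i * max (((fw k (2 ^ i) T).card : ℝ) - bs k (2 ^ i)) 0 +
        2 ^ i * max (((fw (k + 1) (2 ^ i) T').card : ℝ) - bs (k + 1) (2 ^ i)) 0) := by
    intro i hi
    have hx : (0 : ℝ) < 2 ^ i := by positivity
    have h3 : (2 : ℕ) * 2 ^ i ≤ 2 ^ (k + 1) := by
      have h4 : (2 : ℝ) ^ i ≤ 2 ^ k := (hi2 i hi).trans hL2k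
      have h5 : (2 : ℕ) ^ i ≤ 2 ^ k := by exact_mod_cast h4
      rw [pow_succ]
      omega
    have h4 := count_gap (S := S) (k := k) (h := 2 ^ i) h3 ((el S k).filter fun a => a + 4 * 2 ^ i < nx S a)
      (fun a ha => by
        rw [mem_filter, mem_el] at ha
        exact ⟨ha.1.1, ha.1.2, ha.2⟩) T T' hT hT'
    have h5 : ((((el S k).filter fun a => a + 4 * 2 ^ i < nx S a).card : ℕ) : ℝ) * 2 ^ i ≤
        ((fw k (2 ^ i) T).card : ℝ) + ((fw (k + 1) (2 ^ i) T').card : ℝ) := by exact_mod_cast h4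
    rw [← sum_filter, sum_const, nsmul_eq_mul]
    have h6 : ((((el S k).filter fun a => a + 4 * 2 ^ i < nx S a).card : ℕ) : ℝ) * (8 * (2 : ℝ) ^ i) ^ s =
        8 ^ s * ((2 : ℝ) ^ i) ^ (s - 1) * (((((el S k).filter fun a => a + 4 * 2 ^ i < nx S a).card : ℕ) : ℝ) * 2 ^ i) := by
      rw [Real.mul_rpow (by norm_num) hx.le, Real.rpow_sub_one hx.ne']
      field_simp
    rw [h6]
    have h7 : ((fw k (2 ^ i) T).card : ℝ) ≤ bs (k + 1) (2 ^ i) + max (((fw k (2 ^ i) T).card : ℝ) - bs k (2 ^ i)) 0 := by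
      have := le_max_left (((fw k (2 ^ i) T).card : ℝ) - bs k (2 ^ i)) 0
      have := bs_mono hk (2 ^ i)
      linarith
    have h8 : ((fw (k + 1) (2 ^ i) T').card : ℝ) ≤
        bs (k + 1) (2 ^ i) + max (((fw (k + 1) (2 ^ i) T').card : ℝ) - bs (k + 1) (2 ^ i)) 0 := by
      have := le_max_left (((fw (k + 1) (2 ^ i) T').card : ℝ) - bs (k + 1) (2 ^ i)) 0
      linarith
    have h9 : bs (k + 1) (2 ^ i) = 2 * 2 ^ k * Real.exp 1 * Real.exp (-(2 ^ i / (4 * ((k : ℝ) + 1)))) := by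
      unfold bs
      have : (1 : ℝ) - ((2 ^ i : ℕ) : ℝ) / (4 * ((k + 1 : ℕ) : ℝ)) = 1 + -(2 ^ i / (4 * ((k : ℝ) + 1))) := by
        push_cast; ring
      rw [this, Real.exp_add, pow_succ]
      ring
    have h10 : ((2 : ℝ) ^ i) ^ (s - 1) ≤ L ^ (s - 2) * 2 ^ i := by
      have e : s - 1 = (s - 2) + 1 := by ring
      rw [e, Real.rpow_add_one hx.ne']
      exact mul_le_mul_of_nonneg_right (Real.rpow_le_rpow hx.le (hi2 i hi) (by linarith)) hx.le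
    obtain ⟨e1, he1⟩ : ∃ e1 : ℝ, e1 = max (((fw k (2 ^ i) T).card : ℝ) - bs k (2 ^ i)) 0 := ⟨_, rfl⟩
    obtain ⟨e2, he2⟩ : ∃ e2 : ℝ, e2 = max (((fw (k + 1) (2 ^ i) T').card : ℝ) - bs (k + 1) (2 ^ i)) 0 := ⟨_, rfl⟩
    rw [← he1] at h7 ⊢
    rw [← he2] at h8 ⊢
    have he10 : 0 ≤ e1 := by rw [he1]; exact le_max_right _ _
    have he20 : 0 ≤ e2 := by rw [he2]; exact le_max_right _ _
    calc 8 ^ s * ((2 : ℝ) ^ i) ^ (s - 1) * (((((el S k).filter fun a => a + 4 * 2 ^ i < nx S a).card : ℕ) : ℝ) * 2 ^ i) ≤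
        8 ^ s * ((2 : ℝ) ^ i) ^ (s - 1) * (2 * bs (k + 1) (2 ^ i) + (e1 + e2)) := by
          apply mul_le_mul_of_nonneg_left _ (by positivity)
          linarith
      _ = 8 ^ s * (2 * ((2 : ℝ) ^ i) ^ (s - 1) * bs (k + 1) (2 ^ i)) + 8 ^ s * (((2 : ℝ) ^ i) ^ (s - 1) * (e1 + e2)) := by
          ring
      _ ≤ 8 ^ s * (2 * ((2 : ℝ) ^ i) ^ (s - 1) * bs (k + 1) (2 ^ i)) + 8 ^ s * ((L ^ (s - 2) * 2 ^ i) * (e1 + e2)) := by
          have : ((2 : ℝ) ^ i) ^ (s - 1) * (e1 + e2) ≤ (L ^ (s - 2) * 2 ^ i) * (e1 + e2) :=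
            mul_le_mul_of_nonneg_right h10 (by linarith)
          have h8s : (0 : ℝ) < 8 ^ s := by positivity
          have := mul_le_mul_of_nonneg_left this h8s.le
          linarith
      _ = _ := by rw [h9]; ring
  have h3 := sum_le_sum h2
  rw [sum_add_distrib, ← mul_sum, ← mul_sum, sum_add_distrib] at h3
  have h4 := hC (4 * ((k : ℝ) + 1)) (by linarith) (II β k + 1)
  rw [Real.mul_rpow (by norm_num) (by linarith)] at h4
  have h5 : 8 ^ s * (4 * 2 ^ k * Real.exp 1) * ∑ i ∈ range (II β k + 1),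
      ((2 : ℝ) ^ i) ^ (s - 1) * Real.exp (-(2 ^ i / (4 * ((k : ℝ) + 1)))) ≤
      8 ^ s * (4 * 2 ^ k * Real.exp 1) * (Cm * (4 ^ (s - 1) * ((k : ℝ) + 1) ^ (s - 1))) :=
    mul_le_mul_of_nonneg_left h4 (by positivity)
  have h6 : ((el S k).card : ℝ) * 4 ^ s ≤ 4 ^ s * 2 ^ k * ((k : ℝ) + 1) ^ (s - 1) := by
    have h7 := card_el S k
    have h8 : 1 ≤ ((k : ℝ) + 1) ^ (s - 1) := Real.one_le_rpow (by linarith) (by linarith)
    have h9 : (0 : ℝ) < 4 ^ s := by positivity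
    calc ((el S k).card : ℝ) * 4 ^ s ≤ 2 ^ k * 4 ^ s := mul_le_mul_of_nonneg_right h7 h9.le
      _ = 4 ^ s * 2 ^ k * 1 := by ring
      _ ≤ _ := mul_le_mul_of_nonneg_left h8 (by positivity)
  have h7 : ∑ i ∈ range (II β k + 1), (2 : ℝ) ^ i * max (((fw (k + 1) (2 ^ i) T').card : ℝ) - bs (k + 1) (2 ^ i)) 0 ≤
      Y (k + 1) (II β (k + 1)) T' := Y_mono (k + 1) (II_mono hβ k) T'
  have h8 : ∑ i ∈ range (II β k + 1), (2 : ℝ) ^ i * max (((fw k (2 ^ i) T).card : ℝ) - bs k (2 ^ i)) 0 =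
      Y k (II β k) T := rfl
  rw [h8] at h3
  have h9 : 8 ^ s * L ^ (s - 2) * (Y k (II β k) T +
      ∑ i ∈ range (II β k + 1), (2 : ℝ) ^ i * max (((fw (k + 1) (2 ^ i) T').card : ℝ) - bs (k + 1) (2 ^ i)) 0) ≤
      8 ^ s * L ^ (s - 2) * (Y k (II β k) T + Y (k + 1) (II β (k + 1)) T') :=
    mul_le_mul_of_nonneg_left (by linarith) (by positivity)
  rw [← hL]
  calc ∑ a ∈ el S k, ((nx S a : ℝ) - a) ^ s ≤ _ := h1
    _ ≤ 4 ^ s * 2 ^ k * ((k : ℝ) + 1) ^ (s - 1) +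
        (8 ^ s * (4 * 2 ^ k * Real.exp 1) * (Cm * (4 ^ (s - 1) * ((k : ℝ) + 1) ^ (s - 1))) +
        8 ^ s * L ^ (s - 2) * (Y k (II β k) T + Y (k + 1) (II β (k + 1)) T')) :=
      add_le_add h6 (h3.trans (add_le_add h5 h9))
    _ = _ := by ring

/-- the sum of the powers of the differences over a block -/
theorem block_diff {β : ℝ} (hβ : 0 < β) (hβ1 : β ≤ 1 / 2) {s : ℝ} (hs : 2 ≤ s) :
    ∃ C : ℝ, 0 < C ∧ ∀ (S : Set ℕ) (T T' : Finset ℕ) (k : ℕ), 1 ≤ k → (∀ n ∈ T, n ∈ S) →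
      (∀ n ∈ T', n ∈ S) → (∀ a ∈ el S k, a < nx S a ∧ (nx S a : ℝ) ≤ a + (2 : ℝ) ^ (β * k)) →
      ∑ a ∈ el S k, ((nx S a : ℝ) ^ (1 - β) - (a : ℝ) ^ (1 - β)) ^ s ≤
        C * ((2 : ℝ) ^ ((1 - β * s) * k) * ((k : ℝ) + 1) ^ (s - 1)) + 8 ^ s * (U β k T + 2 * U β (k + 1) T') := by
  obtain ⟨C, hC0, hC⟩ := block_sum hβ hβ1 hs
  refine ⟨C, hC0, ?_⟩
  intro S T T' k hk hT hT' hgap
  have h1 := hC S T T' k hk hT hT' hgap
  obtain ⟨L, hL⟩ : ∃ L : ℝ, L = (2 : ℝ) ^ (β * k) := ⟨_, rfl⟩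
  have hL1 : 1 ≤ L := by rw [hL]; exact one_le_L hβ k
  have hL0 : 0 < L := by linarith
  have h2 : ∀ a ∈ el S k, ((nx S a : ℝ) ^ (1 - β) - (a : ℝ) ^ (1 - β)) ^ s ≤ ((nx S a : ℝ) - a) ^ s / L ^ s := by
    intro a ha
    have hb := (mem_el.1 ha).1
    rw [block, mem_Ico] at hb
    have ha0 : 0 < a := lt_of_lt_of_le (by positivity) hb.1
    have ha0R : (0 : ℝ) < a := by exact_mod_cast ha0
    have hlt : (a : ℝ) ≤ nx S a := by exact_mod_cast (hgap a ha).1.le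
    have h3 := rpow_sub_le (α := 1 - β) (by linarith) (by linarith) ha0R hlt
    have h4 : (a : ℝ) ^ (1 - β - 1) ≤ L⁻¹ := by
      have e : (1 : ℝ) - β - 1 = -β := by ring
      rw [e, Real.rpow_neg ha0R.le]
      apply inv_anti₀ hL0
      rw [hL, mul_comm, Real.rpow_mul (by norm_num), Real.rpow_natCast]
      exact Real.rpow_le_rpow (by positivity) (by exact_mod_cast hb.1) hβ.le
    rw [← Real.div_rpow (by linarith) hL0.le]
    apply Real.rpow_le_rpow _ _ (by linarith)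
    · have := Real.rpow_le_rpow ha0R.le hlt (show 0 ≤ 1 - β by linarith)
      linarith
    · refine h3.trans ?_
      rw [div_eq_inv_mul]
      exact mul_le_mul_of_nonneg_right h4 (by linarith)
  refine (sum_le_sum h2).trans ?_
  rw [← sum_div, div_le_iff₀ (by positivity)]
  refine h1.trans ?_
  rw [← hL]
  have e1 : (2 : ℝ) ^ ((1 - β * s) * k) * L ^ s = 2 ^ k := by
    rw [hL, ← Real.rpow_mul (by norm_num), ← Real.rpow_add (by norm_num), ← Real.rpow_natCast]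
    congr 1
    ring
  have e2 : U β k T * L ^ s = L ^ (s - 2) * Y k (II β k) T := by
    unfold U
    rw [← hL]
    have : L ^ s = L ^ (s - 2) * L ^ 2 := by
      rw [← Real.rpow_natCast L 2, ← Real.rpow_add hL0]
      congr 1
      push_cast
      ring
    rw [this]
    field_simp
  have e3 : L ^ (s - 2) * Y (k + 1) (II β (k + 1)) T' ≤ 2 * U β (k + 1) T' * L ^ s := by
    unfold U
    obtain ⟨L', hL'⟩ : ∃ L' : ℝ, L' = (2 : ℝ) ^ (β * ((k + 1 : ℕ) : ℝ)) := ⟨_, rfl⟩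
    have hL'0 : 0 < L' := by rw [hL']; positivity
    rw [← hL']
    have h5 : L' ^ 2 ≤ 2 * L ^ 2 := by
      have h6 : L' = L * (2 : ℝ) ^ β := by
        rw [hL', hL, ← Real.rpow_add (by norm_num)]
        congr 1
        push_cast
        ring
      have h7 : ((2 : ℝ) ^ β) ^ 2 ≤ 2 := by
        rw [← Real.rpow_natCast, ← Real.rpow_mul (by norm_num)]
        calc (2 : ℝ) ^ (β * ((2 : ℕ) : ℝ)) ≤ (2 : ℝ) ^ (1 : ℝ) :=
              Real.rpow_le_rpow_of_exponent_le (by norm_num) (by push_cast; linarith)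
          _ = 2 := Real.rpow_one _
      rw [h6, mul_pow]
      nlinarith [sq_nonneg L]
    have h6 : L ^ s = L ^ (s - 2) * L ^ 2 := by
      rw [← Real.rpow_natCast L 2, ← Real.rpow_add hL0]
      congr 1
      push_cast
      ring
    rw [h6]
    have h7 := Y_nonneg (k + 1) (II β (k + 1)) T'
    have h8 : Y (k + 1) (II β (k + 1)) T' ≤ 2 * (Y (k + 1) (II β (k + 1)) T' / L' ^ 2) * L ^ 2 := by
      have e : 2 * (Y (k + 1) (II β (k + 1)) T' / L' ^ 2) * L ^ 2 = Y (k + 1) (II β (k + 1)) T' * (2 * L ^ 2 / L' ^ 2) := by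
        ring
      rw [e]
      have : 1 ≤ 2 * L ^ 2 / L' ^ 2 := by
        rw [one_le_div (by positivity)]
        exact h5
      exact le_mul_of_one_le_right h7 this
    have h9 : 0 ≤ L ^ (s - 2) := by positivity
    have := mul_le_mul_of_nonneg_left h8 h9
    linarith
  have h8s : (0 : ℝ) < 8 ^ s := by positivity
  have e4 := mul_le_mul_of_nonneg_left e3 h8s.le
  calc C * 2 ^ k * ((k : ℝ) + 1) ^ (s - 1) + 8 ^ s * L ^ (s - 2) * (Y k (II β k) T + Y (k + 1) (II β (k + 1)) T') =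
      C * 2 ^ k * ((k : ℝ) + 1) ^ (s - 1) + (8 ^ s * (L ^ (s - 2) * Y k (II β k) T) +
        8 ^ s * (L ^ (s - 2) * Y (k + 1) (II β (k + 1)) T')) := by ring
    _ ≤ C * 2 ^ k * ((k : ℝ) + 1) ^ (s - 1) + (8 ^ s * (U β k T * L ^ s) + 8 ^ s * (2 * U β (k + 1) T' * L ^ s)) := by
        rw [e2]; linarith
    _ = _ := by rw [← e1]; ring

end Pool.Agent.Q197.PD
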