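import Pool.Agent.Q120.SP.Gap

/-!
# The expected number of free windows under bounded relative entropy: finite part
-/

set_option autoImplicit false

namespace Pool.Agent.Q197.PD

open Finset MeasureTheory Filter Pool.Agent.Q120.ET Pool.Agent.Q120.SP

/-- the entropy inequality for functions -/
theorem entropy_fun {B : Finset ℕ} (hB : ∀ n ∈ B, 3 ≤ n) (p : Finset ℕ → ℝ)
    (hp : ∀ T ∈ B.powerset, 0 ≤ p T) (hp1 : ∑ T ∈ B.powerset, p T = 1) (Z : Finset ℕ → ℝ) :
    ∑ T ∈ B.powerset, p T * Z T + 1 - ∑ T ∈ B.powerset, cramerOn B T * Real.exp (Z T) ≤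
      ∑ T ∈ B.powerset, p T * Real.log (p T / cramerOn B T) := by
  have hq : ∀ T ∈ B.powerset, 0 < cramerOn B T := fun T hT => cramerOn_pos hB (mem_powerset.1 hT)
  have h1 : ∀ T ∈ B.powerset, (p T * Z T + p T) - cramerOn B T * Real.exp (Z T) ≤
      p T * Real.log (p T / cramerOn B T) := by
    intro T hT
    have h2 := young (s := Z T + 1) (hp T hT) (hq T hT)
    rw [add_sub_cancel_right] at h2
    linarith
  have h2 := sum_le_sum h1
  rw [sum_sub_distrib, sum_add_distrib, hp1] at h2
  exact h2

/-- independence of disjoint windows -/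
theorem sum_prod {B J : Finset ℕ} (W : ℕ → Finset ℕ) (hW : ∀ j ∈ J, W j ⊆ B)
    (hd : ∀ i ∈ J, ∀ j ∈ J, i ≠ j → Disjoint (W i) (W j)) (c : ℝ) :
    ∑ T ∈ B.powerset, cramerOn B T * ∏ j ∈ J, (1 + c * if Disjoint T (W j) then 1 else 0) =
      ∏ j ∈ J, (1 + c * ∏ n ∈ W j, (1 - 1 / Real.log n)) := by
  classical
  have h1 : ∀ T : Finset ℕ, ∏ j ∈ J, (1 + c * if Disjoint T (W j) then (1 : ℝ) else 0) =
      ∑ t ∈ J.powerset, c ^ t.card * if Disjoint T (t.biUnion W) then 1 else 0 := by
    intro T
    rw [Finset.prod_one_add]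
    refine sum_congr rfl fun t _ => ?_
    rw [prod_mul_distrib, prod_const]
    congr 1
    by_cases h : Disjoint T (t.biUnion W)
    · rw [if_pos h]
      refine prod_eq_one fun i hi => ?_
      rw [if_pos]
      exact (disjoint_biUnion_right _ _ _).1 h i hi
    · rw [if_neg h]
      rw [disjoint_biUnion_right] at h
      push Not at h
      obtain ⟨i, hi, h2⟩ := h
      exact prod_eq_zero hi (if_neg h2)
  simp_rw [h1, mul_sum]
  rw [sum_comm, Finset.prod_one_add]
  refine sum_congr rfl fun t ht => ?_
  rw [mem_powerset] at ht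
  have h2 : t.biUnion W ⊆ B := biUnion_subset.2 fun i hi => hW i (ht hi)
  have h3 := sum_free h2
  rw [sum_filter] at h3
  have h4 : ∑ T ∈ B.powerset, cramerOn B T * (c ^ t.card * if Disjoint T (t.biUnion W) then (1 : ℝ) else 0) =
      c ^ t.card * ∑ T ∈ B.powerset, if Disjoint T (t.biUnion W) then cramerOn B T else 0 := by
    rw [mul_sum]
    refine sum_congr rfl fun T _ => ?_
    split_ifs <;> ring
  rw [h4, h3, prod_biUnion (fun i hi j hj hij => hd i (ht hi) j (ht hj) hij), prod_mul_distrib, prod_const]

/-- the exponential moment of the number of free windows -/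
theorem exp_moment {B J : Finset ℕ} (W : ℕ → Finset ℕ) (hW : ∀ j ∈ J, W j ⊆ B)
    (hd : ∀ i ∈ J, ∀ j ∈ J, i ≠ j → Disjoint (W i) (W j)) (t : ℝ) {c : ℝ}
    (hc : ∏ j ∈ J, (1 + (Real.exp t - 1) * ∏ n ∈ W j, (1 - 1 / Real.log n)) ≤ c) :
    ∑ T ∈ B.powerset, cramerOn B T * Real.exp (t * ((J.filter fun j => Disjoint T (W j)).card : ℝ)) ≤ c := by
  classical
  rw [← sum_prod W hW hd (Real.exp t - 1)] at hc
  refine le_trans (le_of_eq ?_) hc
  refine sum_congr rfl fun T _ => ?_
  congr 1
  have h1 : (((J.filter fun j => Disjoint T (W j)).card : ℕ) : ℝ) = ∑ j ∈ J, if Disjoint T (W j) then (1 : ℝ) else 0 := by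
    rw [card_filter]; push_cast; rfl
  rw [h1, mul_sum, Real.exp_sum]
  refine prod_congr rfl fun j _ => ?_
  split_ifs
  · rw [mul_one, mul_one]; ring
  · rw [mul_zero, mul_zero, Real.exp_zero, add_zero]

/-- the free windows of length `h` in the block `k` -/
noncomputable def fw (k h : ℕ) (T : Finset ℕ) : Finset ℕ :=
  (block k).filter fun x => Ico x (x + h) ⊆ block k ∧ Disjoint T (Ico x (x + h))

/-- all windows of a residue class -/
noncomputable def cls (k h r : ℕ) : Finset ℕ :=
  (block k).filter fun x => Ico x (x + h) ⊆ block k ∧ x % h = r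

theorem cls_disj {k h r : ℕ} (i : ℕ) (hi : i ∈ cls k h r) (j : ℕ) (hj : j ∈ cls k h r) (hij : i ≠ j) :
    Disjoint (Ico i (i + h)) (Ico j (j + h)) := by
  unfold cls at hi hj
  rw [mem_filter] at hi hj
  have h1 := Nat.div_add_mod i h
  have h2 := Nat.div_add_mod j h
  rw [hi.2.2] at h1
  rw [hj.2.2] at h2
  rw [Finset.disjoint_left]
  intro x hx hx'
  rw [mem_Ico] at hx hx'
  rcases lt_trichotomy (i / h) (j / h) with h3 | h3 | h3
  · have : h * (i / h) + h ≤ h * (j / h) := by
      calc h * (i / h) + h = h * (i / h + 1) := by ring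
        _ ≤ h * (j / h) := Nat.mul_le_mul_left _ h3
    omega
  · rw [h3] at h1; omega
  · have : h * (j / h) + h ≤ h * (i / h) := by
      calc h * (j / h) + h = h * (j / h + 1) := by ring
        _ ≤ h * (i / h) := Nat.mul_le_mul_left _ h3
    omega

theorem fw_card {k h : ℕ} (hh : 1 ≤ h) (T : Finset ℕ) :
    (fw k h T).card = ∑ r ∈ range h, ((cls k h r).filter fun x => Disjoint T (Ico x (x + h))).card := by
  classical
  rw [card_eq_sum_card_fiberwise (f := fun x => x % h) (t := range h)
    (fun x _ => mem_coe.2 (mem_range.2 (Nat.mod_lt _ (by omega))))]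
  refine sum_congr rfl fun r _ => ?_
  congr 1
  ext x
  simp only [fw, cls, mem_filter]
  tauto

/-- the windows of a class are disjoint -/
theorem cls_card (k h r : ℕ) : (cls k h r).card * h ≤ 2 ^ k := by
  classical
  have h1 : ((cls k h r).biUnion fun x => Ico x (x + h)).card = (cls k h r).card * h := by
    rw [card_biUnion cls_disj]
    simp
  rw [← h1]
  refine (card_le_card (t := block k) ?_).trans (le_of_eq ?_)
  · refine biUnion_subset.2 fun x hx => ?_
    unfold cls at hx
    exact (mem_filter.1 hx).2.1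
  · rw [block, Nat.card_Ico, pow_succ]; omega

/-- the numbers -/
theorem small_num {k h : ℕ} (hk : 2 ≤ k) :
    (h : ℝ) / (4 * k) + -(h / ((k + 1) * Real.log 2)) ≤ -(h / (4 * k)) := by
  have hk0 : (0 : ℝ) < k := by exact_mod_cast (show 0 < k by omega)
  have hk2 : (2 : ℝ) ≤ k := by exact_mod_cast hk
  have hl := Real.log_two_lt_d9
  have hl0 : 0 < Real.log 2 := Real.log_pos (by norm_num)
  have h1 : (h : ℝ) / (2 * k) ≤ h / ((k + 1) * Real.log 2) := by
    apply div_le_div_of_nonneg_left (by positivity) (by positivity)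
    nlinarith
  have h4 : (h : ℝ) / (2 * k) = h / (4 * k) + h / (4 * k) := by field_simp; ring
  linarith

/-- the bound for the number of free windows -/
noncomputable def bs (k h : ℕ) : ℝ := 2 ^ k * Real.exp (1 - h / (4 * k))

theorem fw_le (k h : ℕ) (T : Finset ℕ) : ((fw k h T).card : ℝ) ≤ 2 ^ k := by
  have : (fw k h T).card ≤ 2 ^ k := by
    unfold fw
    refine (card_filter_le _ _).trans ?_
    rw [block, Nat.card_Ico, pow_succ]
    omega
  exact_mod_cast this

/-- the expected excess of the number of free windows -/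
theorem mean_ex {k h : ℕ} (hk : 2 ≤ k) (hh1 : 1 ≤ h) (p : Finset ℕ → ℝ)
    (hp : ∀ T ∈ (block k).powerset, 0 ≤ p T) (hp1 : ∑ T ∈ (block k).powerset, p T = 1) {D : ℝ}
    (hD : ∑ T ∈ (block k).powerset, p T * Real.log (p T / cramerOn (block k) T) ≤ D) :
    ∑ T ∈ (block k).powerset, p T * max (((fw k h T).card : ℝ) - bs k h) 0 ≤ 4 * k * (D + 1) := by
  classical
  have hB : ∀ n ∈ block k, 3 ≤ n := fun n hn => three_le_of_mem_block hk hn
  have hk0 : (0 : ℝ) < k := by exact_mod_cast (show 0 < k by omega)
  have hh0 : (0 : ℝ) < h := by exact_mod_cast hh1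
  have hl0 : 0 < Real.log 2 := Real.log_pos (by norm_num)
  have hD0 : 0 ≤ D := by
    have h1 := entropy_fun hB p hp hp1 (fun _ => 0)
    simp only [mul_zero, sum_const_zero, Real.exp_zero, mul_one] at h1
    rw [sum_cramerOn] at h1
    linarith
  obtain ⟨t, ht⟩ : ∃ t : ℝ, t = h / (4 * k) := ⟨_, rfl⟩
  have ht0 : 0 < t := by rw [ht]; positivity
  rcases le_or_gt t 1 with ht1 | ht1
  · refine le_trans (le_of_eq ?_) (show (0 : ℝ) ≤ 4 * k * (D + 1) by positivity)
    refine sum_eq_zero fun T _ => ?_
    rw [max_eq_right, mul_zero]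
    have h1 := fw_le k h T
    have h2 : (2 : ℝ) ^ k ≤ bs k h := by
      unfold bs
      rw [← ht]
      have h3 : 1 ≤ Real.exp (1 - t) := Real.one_le_exp (by linarith)
      have h4 : (0 : ℝ) < 2 ^ k := by positivity
      nlinarith
    linarith
  obtain ⟨b, hb⟩ : ∃ b : ℝ, b = 2 ^ k / h * Real.exp (-t) := ⟨_, rfl⟩
  have hb0 : 0 < b := by rw [hb]; positivity
  have key : ∀ r ∈ range h, ∑ T ∈ (block k).powerset,
      p T * max ((((cls k h r).filter fun x => Disjoint T (Ico x (x + h))).card : ℝ) - b / t) 0 ≤ (D + 1) / t := by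
    intro r _
    have h2 : ∏ j ∈ cls k h r, (1 + (Real.exp t - 1) * ∏ n ∈ Ico j (j + h), (1 - 1 / Real.log n)) ≤ Real.exp b := by
      have h3 : ∀ j ∈ cls k h r, (1 + (Real.exp t - 1) * ∏ n ∈ Ico j (j + h), (1 - 1 / Real.log n)) ≤
          Real.exp (Real.exp (-t)) := by
        intro j hj
        unfold cls at hj
        rw [mem_filter] at hj
        have h4 := prod_window_le hk hj.2.1
        rw [Nat.card_Ico, Nat.add_sub_cancel_left] at h4
        have h5 : 0 ≤ ∏ n ∈ Ico j (j + h), (1 - 1 / Real.log n) := by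
          apply prod_nonneg
          intro n hn
          have h6 := one_lt_log (three_le_of_mem_block hk (hj.2.1 hn))
          have : 1 / Real.log n < 1 := by rw [div_lt_one (by linarith)]; exact h6
          linarith
        have h6 : (Real.exp t - 1) * ∏ n ∈ Ico j (j + h), (1 - 1 / Real.log n) ≤
            Real.exp t * Real.exp (-(h / ((k + 1) * Real.log 2))) :=
          mul_le_mul (by linarith) h4 h5 (Real.exp_pos _).le
        have h8 : Real.exp t * Real.exp (-(h / ((k + 1) * Real.log 2))) ≤ Real.exp (-t) := by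
          rw [← Real.exp_add]
          apply Real.exp_le_exp.2
          rw [ht]
          exact small_num hk
        have h7 := Real.add_one_le_exp (Real.exp (-t))
        linarith
      have h4 : ∀ j ∈ cls k h r, 0 ≤ (1 + (Real.exp t - 1) * ∏ n ∈ Ico j (j + h), (1 - 1 / Real.log n)) := by
        intro j hj
        unfold cls at hj
        rw [mem_filter] at hj
        have h5 : 0 ≤ ∏ n ∈ Ico j (j + h), (1 - 1 / Real.log n) := by
          apply prod_nonneg
          intro n hn
          have h6 := one_lt_log (three_le_of_mem_block hk (hj.2.1 hn))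
          have : 1 / Real.log n < 1 := by rw [div_lt_one (by linarith)]; exact h6
          linarith
        have h6 : 0 ≤ Real.exp t - 1 := by have := Real.add_one_le_exp t; linarith
        positivity
      refine (prod_le_prod h4 h3).trans ?_
      rw [prod_const, ← Real.exp_nat_mul]
      apply Real.exp_le_exp.2
      rw [hb]
      apply mul_le_mul_of_nonneg_right _ (Real.exp_pos _).le
      rw [le_div_iff₀ hh0]
      exact_mod_cast cls_card k h r
    have h3 := exp_moment (fun x => Ico x (x + h)) (B := block k) (J := cls k h r)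
      (fun j hj => by unfold cls at hj; exact (mem_filter.1 hj).2.1) cls_disj t h2
    have h1 := entropy_fun hB p hp hp1
      (fun T => max (t * (((cls k h r).filter fun x => Disjoint T (Ico x (x + h))).card : ℝ) - b) 0)
    have h5 : ∑ T ∈ (block k).powerset, cramerOn (block k) T *
        Real.exp (max (t * (((cls k h r).filter fun x => Disjoint T (Ico x (x + h))).card : ℝ) - b) 0) ≤ 2 := by
      have h6 : ∀ T ∈ (block k).powerset, cramerOn (block k) T *
        Real.exp (max (t * (((cls k h r).filter fun x => Disjoint T (Ico x (x + h))).card : ℝ) - b) 0) ≤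
        cramerOn (block k) T + Real.exp (-b) * (cramerOn (block k) T *
          Real.exp (t * (((cls k h r).filter fun x => Disjoint T (Ico x (x + h))).card : ℝ))) := by
        intro T hT
        have hq := cramerOn_pos hB (mem_powerset.1 hT)
        have h7 : Real.exp (max (t * (((cls k h r).filter fun x => Disjoint T (Ico x (x + h))).card : ℝ) - b) 0) ≤
            1 + Real.exp (-b) * Real.exp (t * (((cls k h r).filter fun x => Disjoint T (Ico x (x + h))).card : ℝ)) := by
          rw [← Real.exp_add]
          rcases le_total (t * (((cls k h r).filter fun x => Disjoint T (Ico x (x + h))).card : ℝ) - b) 0 with h8 | h8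
          · rw [max_eq_right h8, Real.exp_zero]
            have := Real.exp_pos (-b + t * (((cls k h r).filter fun x => Disjoint T (Ico x (x + h))).card : ℝ))
            linarith
          · rw [max_eq_left h8]
            have e : t * (((cls k h r).filter fun x => Disjoint T (Ico x (x + h))).card : ℝ) - b =
              -b + t * (((cls k h r).filter fun x => Disjoint T (Ico x (x + h))).card : ℝ) := by ring
            rw [e]
            linarith
        have h9 := mul_le_mul_of_nonneg_left h7 hq.le
        linarith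
      refine (sum_le_sum h6).trans ?_
      rw [sum_add_distrib, sum_cramerOn, ← mul_sum]
      have h7 : Real.exp (-b) * ∑ T ∈ (block k).powerset, cramerOn (block k) T *
          Real.exp (t * (((cls k h r).filter fun x => Disjoint T (Ico x (x + h))).card : ℝ)) ≤
          Real.exp (-b) * Real.exp b := mul_le_mul_of_nonneg_left h3 (Real.exp_pos _).le
      rw [← Real.exp_add, neg_add_cancel, Real.exp_zero] at h7
      linarith
    have h4 : ∑ T ∈ (block k).powerset, p T *
        (max (t * (((cls k h r).filter fun x => Disjoint T (Ico x (x + h))).card : ℝ) - b) 0) =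
        t * ∑ T ∈ (block k).powerset, p T *
          max ((((cls k h r).filter fun x => Disjoint T (Ico x (x + h))).card : ℝ) - b / t) 0 := by
      rw [mul_sum]
      refine sum_congr rfl fun T _ => ?_
      have e : max (t * (((cls k h r).filter fun x => Disjoint T (Ico x (x + h))).card : ℝ) - b) 0 =
          t * max ((((cls k h r).filter fun x => Disjoint T (Ico x (x + h))).card : ℝ) - b / t) 0 := by
        rw [mul_max_of_nonneg _ _ ht0.le, mul_zero, mul_sub, mul_div_cancel₀ _ ht0.ne']
      rw [e]
      ring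
    rw [h4] at h1
    rw [le_div_iff₀ ht0]
    linarith
  have hbt : h * (b / t) ≤ bs k h := by
    have e : h * (b / t) = 2 ^ k * Real.exp (-t) / t := by rw [hb]; field_simp
    rw [e, bs, ← ht]
    have h1 : (2 : ℝ) ^ k * Real.exp (-t) / t ≤ 2 ^ k * Real.exp (-t) :=
      div_le_self (by positivity) ht1.le
    refine h1.trans ?_
    apply mul_le_mul_of_nonneg_left _ (by positivity)
    exact Real.exp_le_exp.2 (by linarith)
  have h1 : ∑ T ∈ (block k).powerset, p T * max (((fw k h T).card : ℝ) - bs k h) 0 ≤
      ∑ r ∈ range h, ∑ T ∈ (block k).powerset,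
        p T * max ((((cls k h r).filter fun x => Disjoint T (Ico x (x + h))).card : ℝ) - b / t) 0 := by
    rw [sum_comm]
    refine sum_le_sum fun T hT => ?_
    rw [← mul_sum]
    apply mul_le_mul_of_nonneg_left _ (hp T hT)
    apply max_le _ (sum_nonneg fun r _ => le_max_right _ _)
    have h2 : ∑ r ∈ range h, ((((cls k h r).filter fun x => Disjoint T (Ico x (x + h))).card : ℝ) - b / t) ≤
        ∑ r ∈ range h, max ((((cls k h r).filter fun x => Disjoint T (Ico x (x + h))).card : ℝ) - b / t) 0 :=
      sum_le_sum fun r _ => le_max_left _ _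
    refine le_trans ?_ h2
    rw [sum_sub_distrib, sum_const, card_range, nsmul_eq_mul]
    have h3 := fw_card hh1 T (k := k)
    have h4 : ((fw k h T).card : ℝ) =
        ∑ r ∈ range h, (((cls k h r).filter fun x => Disjoint T (Ico x (x + h))).card : ℝ) := by
      rw [h3]; push_cast; rfl
    rw [h4]
    linarith
  refine h1.trans ((sum_le_sum key).trans (le_of_eq ?_))
  rw [sum_const, card_range, nsmul_eq_mul, ht]
  field_simp

end Pool.Agent.Q197.PD
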