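import Pool.Agent.Q197.PD.Meas

/-!
# Power sums of the gaps and free windows
-/

set_option autoImplicit false

namespace Pool.Agent.Q197.PD

open Finset MeasureTheory Filter Pool.Agent.Q120.ET Pool.Agent.Q120.SP

/-- the next element -/
noncomputable def nx (S : Set ℕ) (x : ℕ) : ℕ := sInf {b | b ∈ S ∧ x < b}

theorem nx_spec {S : Set ℕ} {x b : ℕ} (hb : b ∈ S) (hx : x < b) :
    nx S x ∈ S ∧ x < nx S x ∧ nx S x ≤ b := by
  have h1 : nx S x ∈ {b | b ∈ S ∧ x < b} := Nat.sInf_mem ⟨b, hb, hx⟩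
  exact ⟨h1.1, h1.2, Nat.sInf_le ⟨hb, hx⟩⟩

theorem notMem_of_lt_nx {S : Set ℕ} {x y : ℕ} (h1 : x < y) (h2 : y < nx S x) : y ∉ S := fun h =>
  Nat.notMem_of_lt_sInf h2 ⟨h, h1⟩

/-- a long gap contains many free windows -/
theorem count_gap {S : Set ℕ} {k h : ℕ} (hk : 2 * h ≤ 2 ^ (k + 1)) (N : Finset ℕ)
    (hN : ∀ a ∈ N, a ∈ block k ∧ a ∈ S ∧ a + 4 * h < nx S a) (T T' : Finset ℕ) (hT : ∀ n ∈ T, n ∈ S)
    (hT' : ∀ n ∈ T', n ∈ S) : N.card * h ≤ (fw k h T).card + (fw (k + 1) h T').card := by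
  classical
  have hlt : ∀ a ∈ N, ∀ a' ∈ N, a < a' → a + 4 * h < a' := by
    intro a ha a' ha' hlt
    by_contra hcon
    exact notMem_of_lt_nx hlt (by have := (hN a ha).2.2; omega) (hN a' ha').2.1
  rw [← card_filter_add_card_filter_not (s := N) (fun a => a + 2 * h ≤ 2 ^ (k + 1)), add_mul]
  refine add_le_add ?_ ?_
  · have h1 : (N.filter fun a => a + 2 * h ≤ 2 ^ (k + 1)).card * h =
        ((N.filter fun a => a + 2 * h ≤ 2 ^ (k + 1)) ×ˢ range h).card := by rw [card_product, card_range]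
    rw [h1]
    refine card_le_card_of_injOn (fun p => p.1 + 1 + p.2) ?_ ?_
    · rintro ⟨a, j⟩ hp
      simp only [coe_product, Set.mem_prod, mem_coe, mem_filter, mem_range] at hp
      obtain ⟨⟨ha, ha2⟩, hj⟩ := hp
      obtain ⟨hb, hS, hn⟩ := hN a ha
      rw [block, mem_Ico] at hb
      simp only [fw, mem_coe, mem_filter]
      have hsub : Ico (a + 1 + j) (a + 1 + j + h) ⊆ block k := by
        intro y hy
        rw [mem_Ico] at hy
        rw [block, mem_Ico]
        omega
      refine ⟨hsub (mem_Ico.2 ⟨le_rfl, by omega⟩), hsub, ?_⟩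
      rw [Finset.disjoint_right]
      intro y hy hyT
      rw [mem_Ico] at hy
      exact notMem_of_lt_nx (S := S) (x := a) (by omega) (by omega) (hT y hyT)
    · rintro ⟨a, j⟩ hp ⟨a', j'⟩ hp' he
      simp only [coe_product, Set.mem_prod, mem_coe, mem_filter, mem_range] at hp hp'
      simp only at he
      rcases lt_trichotomy a a' with h2 | h2 | h2
      · have := hlt a hp.1.1 a' hp'.1.1 h2
        omega
      · subst h2
        have : j = j' := by omega
        rw [this]
      · have := hlt a' hp'.1.1 a hp.1.1 h2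
        omega
  · rcases (N.filter fun a => ¬ a + 2 * h ≤ 2 ^ (k + 1)).eq_empty_or_nonempty with he | ⟨a, ha⟩
    · rw [he]; simp
    have h1 : (N.filter fun a => ¬ a + 2 * h ≤ 2 ^ (k + 1)).card ≤ 1 := by
      rw [card_le_one]
      intro x hx y hy
      rw [mem_filter] at hx hy
      have hxb := (hN x hx.1).1
      have hyb := (hN y hy.1).1
      rw [block, mem_Ico] at hxb hyb
      rcases lt_trichotomy x y with h2 | h2 | h2
      · have := hlt x hx.1 y hy.1 h2
        omega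
      · exact h2
      · have := hlt y hy.1 x hx.1 h2
        omega
    rw [mem_filter] at ha
    obtain ⟨hb, hS, hn⟩ := hN a ha.1
    rw [block, mem_Ico] at hb
    have h2 : (range h).card ≤ (fw (k + 1) h T').card := by
      refine card_le_card_of_injOn (fun j => 2 ^ (k + 1) + j) ?_ ?_
      · intro j hj
        rw [mem_coe, mem_range] at hj
        simp only [fw, mem_coe, mem_filter]
        have h2k : 2 ^ (k + 1 + 1) = 2 ^ (k + 1) + 2 ^ (k + 1) := by rw [pow_succ (2 : ℕ) (k + 1)]; omega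
        have hsub : Ico (2 ^ (k + 1) + j) (2 ^ (k + 1) + j + h) ⊆ block (k + 1) := by
          intro y hy
          rw [mem_Ico] at hy
          rw [block, mem_Ico]
          omega
        refine ⟨hsub (mem_Ico.2 ⟨le_rfl, by omega⟩), hsub, ?_⟩
        rw [Finset.disjoint_right]
        intro y hy hyT
        rw [mem_Ico] at hy
        exact notMem_of_lt_nx (S := S) (x := a) (by omega) (by omega) (hT' y hyT)
      · intro j _ j' _ he
        simp only at he
        omega
    rw [card_range] at h2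
    calc (N.filter fun a => ¬ a + 2 * h ≤ 2 ^ (k + 1)).card * h ≤ 1 * h := Nat.mul_le_mul_right _ h1
      _ = h := one_mul h
      _ ≤ _ := h2

/-- powers and the exponential function -/
theorem rpow_le_exp {m y : ℝ} (hm : 0 ≤ m) (hy : 0 ≤ y) : y ^ m ≤ m ^ m * Real.exp y := by
  rcases hm.eq_or_lt with h | h
  · rw [← h, Real.rpow_zero, Real.rpow_zero, one_mul]
    exact Real.one_le_exp hy
  · have h1 : y / m ≤ Real.exp (y / m) := by have := Real.add_one_le_exp (y / m); linarith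
    have h2 : (y / m) ^ m ≤ Real.exp (y / m) ^ m := Real.rpow_le_rpow (by positivity) h1 hm
    have h3 : Real.exp (y / m) ^ m = Real.exp y := by
      rw [← Real.exp_mul]
      congr 1
      field_simp
    rw [h3, Real.div_rpow hy hm, div_le_iff₀ (by positivity)] at h2
    linarith

/-- geometric sums -/
theorem sum_exp_le {c : ℝ} (hc : 0 < c) (n : ℕ) : ∑ j ∈ range n, Real.exp (-(j / c)) ≤ 1 + c := by
  have hr : Real.exp (-(1 / c)) < 1 := by
    rw [Real.exp_lt_one_iff]
    have : 0 < 1 / c := by positivity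
    linarith
  have h1 : ∀ j : ℕ, Real.exp (-(j / c)) = Real.exp (-(1 / c)) ^ j := by
    intro j
    rw [← Real.exp_nat_mul]
    congr 1
    ring
  simp_rw [h1]
  have h2 := (summable_geometric_of_lt_one (Real.exp_pos _).le hr).sum_le_tsum (range n)
    (fun i _ => by positivity)
  rw [tsum_geometric_of_lt_one (Real.exp_pos _).le hr] at h2
  refine h2.trans ?_
  have h3 : 1 / (1 + c) ≤ 1 - Real.exp (-(1 / c)) := by
    have h4 : Real.exp (-(1 / c)) ≤ c / (1 + c) := by
      rw [Real.exp_neg, inv_le_comm₀ (Real.exp_pos _) (by positivity), inv_div]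
      have := Real.add_one_le_exp (1 / c)
      refine le_trans (le_of_eq ?_) this
      field_simp
    have h5 : 1 / (1 + c) = 1 - c / (1 + c) := by field_simp; ring
    linarith
  rw [inv_le_comm₀ (by linarith) (by positivity)]
  rw [← one_div]
  exact h3

/-- dyadic sums -/
theorem dyadic_sum {m : ℝ} (hm : 1 ≤ m) : ∃ C : ℝ, 0 < C ∧ ∀ (c : ℝ), 1 ≤ c → ∀ n : ℕ,
    ∑ i ∈ range n, ((2 : ℝ) ^ i) ^ m * Real.exp (-(2 ^ i / c)) ≤ C * c ^ m := by
  have hm1 : 0 ≤ m - 1 := by linarith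
  obtain ⟨K, hK⟩ : ∃ K : ℝ, K = (m - 1) ^ (m - 1) * 2 ^ (m - 1) := ⟨_, rfl⟩
  have hK0 : 0 ≤ K := by rw [hK]; positivity
  refine ⟨6 * K + 1, by positivity, fun c hc n => ?_⟩
  have hc0 : 0 < c := by linarith
  have h1 : ∀ i ∈ range n, ((2 : ℝ) ^ i) ^ m * Real.exp (-(2 ^ i / c)) ≤
      K * c ^ (m - 1) * (2 ^ i * Real.exp (-(2 ^ i / (2 * c)))) := by
    intro i _
    have hx : (0 : ℝ) < 2 ^ i := by positivity
    have h2 := rpow_le_exp hm1 (show 0 ≤ (2 : ℝ) ^ i / (2 * c) by positivity)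
    have h3 : ((2 : ℝ) ^ i) ^ (m - 1) ≤ K * c ^ (m - 1) * Real.exp (2 ^ i / (2 * c)) := by
      rw [Real.div_rpow hx.le (by positivity), div_le_iff₀ (by positivity), Real.mul_rpow (by norm_num) hc0.le] at h2
      rw [hK]
      refine h2.trans (le_of_eq ?_)
      ring
    have h4 : ((2 : ℝ) ^ i) ^ m = 2 ^ i * ((2 : ℝ) ^ i) ^ (m - 1) := by
      rw [Real.rpow_sub_one hx.ne']
      field_simp
    have h5 : Real.exp (-((2 : ℝ) ^ i / c)) = Real.exp (-(2 ^ i / (2 * c))) * Real.exp (-(2 ^ i / (2 * c))) := by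
      rw [← Real.exp_add]
      congr 1
      field_simp
      ring
    have h6 : Real.exp ((2 : ℝ) ^ i / (2 * c)) * Real.exp (-(2 ^ i / (2 * c))) = 1 := by
      rw [← Real.exp_add, add_neg_cancel, Real.exp_zero]
    rw [h4, h5]
    calc 2 ^ i * ((2 : ℝ) ^ i) ^ (m - 1) * (Real.exp (-(2 ^ i / (2 * c))) * Real.exp (-(2 ^ i / (2 * c)))) ≤
        2 ^ i * (K * c ^ (m - 1) * Real.exp (2 ^ i / (2 * c))) *
          (Real.exp (-(2 ^ i / (2 * c))) * Real.exp (-(2 ^ i / (2 * c)))) := by gcongr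
      _ = K * c ^ (m - 1) * (2 ^ i * Real.exp (-(2 ^ i / (2 * c)))) *
          (Real.exp (2 ^ i / (2 * c)) * Real.exp (-(2 ^ i / (2 * c)))) := by ring
      _ = _ := by rw [h6, mul_one]
  refine (sum_le_sum h1).trans ?_
  rw [← mul_sum]
  have h2 : ∑ i ∈ range n, (2 : ℝ) ^ i * Real.exp (-(2 ^ i / (2 * c))) ≤ 6 * c := by
    have h3 := Finset.sum_condensed_le (f := fun j : ℕ => Real.exp (-((j : ℝ) / (2 * c))))
      (fun a b _ hab => by
        apply Real.exp_le_exp.2
        apply neg_le_neg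
        apply div_le_div_of_nonneg_right _ (by positivity)
        exact_mod_cast hab) n
    have h4 : ∑ i ∈ range n, (2 : ℝ) ^ i * Real.exp (-(2 ^ i / (2 * c))) ≤
        ∑ k ∈ range (n + 1), 2 ^ k • Real.exp (-(((2 ^ k : ℕ) : ℝ) / (2 * c))) := by
      rw [sum_range_succ]
      have h5 : ∑ i ∈ range n, (2 : ℝ) ^ i * Real.exp (-(2 ^ i / (2 * c))) =
          ∑ k ∈ range n, 2 ^ k • Real.exp (-(((2 ^ k : ℕ) : ℝ) / (2 * c))) := by
        refine sum_congr rfl fun i _ => ?_
        rw [nsmul_eq_mul]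
        push_cast
        rfl
      rw [h5]
      have : 0 ≤ 2 ^ n • Real.exp (-(((2 ^ n : ℕ) : ℝ) / (2 * c))) := by positivity
      linarith
    refine h4.trans (h3.trans ?_)
    have h5 := sum_exp_le (c := 2 * c) (by positivity) (2 ^ n + 1)
    have h6 : Real.exp (-(((1 : ℕ) : ℝ) / (2 * c))) +
        2 • ∑ k ∈ Ico (2 : ℕ) (2 ^ n + 1), Real.exp (-(((k : ℕ) : ℝ) / (2 * c))) ≤
        2 * ∑ k ∈ range (2 ^ n + 1), Real.exp (-(((k : ℕ) : ℝ) / (2 * c))) := by
      have h7 : ∑ k ∈ Ico (2 : ℕ) (2 ^ n + 1), Real.exp (-(((k : ℕ) : ℝ) / (2 * c))) +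
          Real.exp (-(((0 : ℕ) : ℝ) / (2 * c))) ≤
          ∑ k ∈ range (2 ^ n + 1), Real.exp (-(((k : ℕ) : ℝ) / (2 * c))) := by
        have h8 : insert (0 : ℕ) (Ico (2 : ℕ) (2 ^ n + 1)) ⊆ range (2 ^ n + 1) := by
          intro x hx
          rw [mem_insert, mem_Ico] at hx
          rw [mem_range]
          have := Nat.one_le_two_pow (n := n)
          omega
        have h9 := sum_le_sum_of_subset_of_nonneg (f := fun k : ℕ => Real.exp (-((k : ℝ) / (2 * c)))) h8
          (fun _ _ _ => (Real.exp_pos _).le)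
        rw [sum_insert (by simp)] at h9
        linarith
      have h8 : Real.exp (-(((1 : ℕ) : ℝ) / (2 * c))) ≤ Real.exp (-(((0 : ℕ) : ℝ) / (2 * c))) := by
        apply Real.exp_le_exp.2
        have : 0 ≤ ((1 : ℕ) : ℝ) / (2 * c) := by positivity
        simp at this ⊢
        exact this
      have h9 := Real.exp_pos (-(((0 : ℕ) : ℝ) / (2 * c)))
      rw [two_nsmul]
      linarith
    refine h6.trans ?_
    linarith
  calc K * c ^ (m - 1) * ∑ i ∈ range n, (2 : ℝ) ^ i * Real.exp (-(2 ^ i / (2 * c))) ≤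
      K * c ^ (m - 1) * (6 * c) := mul_le_mul_of_nonneg_left h2 (by positivity)
    _ = 6 * K * c ^ m := by
        rw [Real.rpow_sub_one hc0.ne']
        field_simp
    _ ≤ (6 * K + 1) * c ^ m := by
        have : 0 < c ^ m := by positivity
        linarith

end Pool.Agent.Q197.PD
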