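import Pool.Agent.Q197.PD.Blo

/-!
# The power sums of the differences
-/

set_option autoImplicit false

namespace Pool.Agent.Q197.PD

open Finset MeasureTheory Filter Pool.Agent.Q120.ET Pool.Agent.Q120.SP

/-- the summand -/
noncomputable def term (S : Set ℕ) (α s : ℝ) (a : ℕ) : ℝ :=
  S.indicator (fun a : ℕ => ((nx S a : ℝ) ^ α - (a : ℝ) ^ α) ^ s) a

/-- the `n`-th element -/
noncomputable def nt (S : Set ℕ) (n : ℕ) : ℕ := Nat.nth (fun a => a ∈ S) n

/-- the `n`-th difference of the `α`-th powers -/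
noncomputable def dif (S : Set ℕ) (α : ℝ) (n : ℕ) : ℝ := (nt S (n + 1) : ℝ) ^ α - (nt S n : ℝ) ^ α

variable {S : Set ℕ}

theorem nt_mem (hS : S.Infinite) (n : ℕ) : nt S n ∈ S := Nat.nth_mem_of_infinite (p := fun a => a ∈ S) hS n

theorem nt_mono (hS : S.Infinite) : StrictMono (nt S) := Nat.nth_strictMono (p := fun a => a ∈ S) hS

theorem nx_nt (hS : S.Infinite) (n : ℕ) : nx S (nt S n) = nt S (n + 1) := by
  classical
  obtain ⟨h1, h2, h3⟩ := nx_spec (nt_mem hS (n + 1)) (nt_mono hS (Nat.lt_succ_self n))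
  refine le_antisymm h3 ?_
  obtain ⟨b, hb⟩ : ∃ b, b = nx S (nt S n) := ⟨_, rfl⟩
  rw [← hb] at h1 h2 ⊢
  have h4 : nt S (Nat.count (fun a => a ∈ S) b) = b := Nat.nth_count (p := fun a => a ∈ S) h1
  have h5 : n < Nat.count (fun a => a ∈ S) b := by
    by_contra hcon
    push Not at hcon
    have := (nt_mono hS).monotone hcon
    omega
  have h6 := (nt_mono hS).monotone (show n + 1 ≤ Nat.count (fun a => a ∈ S) b from h5)
  rw [h4] at h6
  exact h6

theorem dif_nonneg (hS : S.Infinite) {α : ℝ} (hα : 0 ≤ α) (n : ℕ) : 0 ≤ dif S α n := by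
  unfold dif
  have h1 : (nt S n : ℝ) ≤ nt S (n + 1) := by exact_mod_cast (nt_mono hS (Nat.lt_succ_self n)).le
  have := Real.rpow_le_rpow (Nat.cast_nonneg _) h1 hα
  linarith

theorem term_nt (hS : S.Infinite) (α s : ℝ) (n : ℕ) : term S α s (nt S n) = dif S α n ^ s := by
  unfold term dif
  rw [Set.indicator_of_mem (nt_mem hS n), nx_nt hS]

theorem term_nonneg (hS : S.Infinite) {α : ℝ} (hα : 0 ≤ α) (s : ℝ) (a : ℕ) : 0 ≤ term S α s a := by
  unfold term
  by_cases ha : a ∈ S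
  · rw [Set.indicator_of_mem ha]
    apply Real.rpow_nonneg
    obtain ⟨b, hb, hab⟩ := hS.exists_gt a
    have h1 : (a : ℝ) ≤ nx S a := by exact_mod_cast (nx_spec hb hab).2.1.le
    have := Real.rpow_le_rpow (Nat.cast_nonneg _) h1 hα
    linarith
  · rw [Set.indicator_of_notMem ha]

theorem sum_block (S : Set ℕ) (α s : ℝ) (k : ℕ) : ∑ a ∈ block k, term S α s a =
    ∑ a ∈ el S k, ((nx S a : ℝ) ^ α - (a : ℝ) ^ α) ^ s := by
  classical
  unfold el term
  rw [sum_filter]
  refine sum_congr rfl fun a _ => ?_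
  by_cases ha : a ∈ S
  · rw [Set.indicator_of_mem ha, if_pos ha]
  · rw [Set.indicator_of_notMem ha, if_neg ha]

theorem sum_pow (S : Set ℕ) (α s : ℝ) (K : ℕ) : ∑ a ∈ range (2 ^ K), term S α s a =
    term S α s 0 + ∑ k ∈ range K, ∑ a ∈ block k, term S α s a := by
  induction K with
  | zero => simp
  | succ K ih =>
    rw [sum_range_succ, ← add_assoc, ← ih]
    have h1 := Finset.sum_range_add_sum_Ico (fun a => term S α s a) (show 2 ^ K ≤ 2 ^ (K + 1) from
      Nat.pow_le_pow_right (by norm_num) (by omega))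
    rw [← h1]
    rfl

/-- the hypotheses on a set -/
structure Good (β : ℝ) (S : Set ℕ) (T : ℕ → Finset ℕ) : Prop where
  tr : ∀ k, ∀ n ∈ T k, n ∈ S
  gap : ∀ᶠ k : ℕ in atTop, ∀ x ∈ block k, ∃ n ∈ S, x < n ∧ (n : ℝ) ≤ x + (2 : ℝ) ^ (β * k)
  sum : Summable fun k => U β k (T k)

variable {β : ℝ} {T : ℕ → Finset ℕ}

theorem Good.inf (h : Good β S T) : S.Infinite := by
  intro hfin
  obtain ⟨M, hM⟩ := hfin.bddAbove
  obtain ⟨k, hk, hkM⟩ := (h.gap.and (eventually_ge_atTop M)).exists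
  obtain ⟨n, hn, hn1, -⟩ := hk (2 ^ k) (by rw [block, mem_Ico]; exact ⟨le_rfl, Nat.pow_lt_pow_right (by norm_num) (by omega)⟩)
  have h1 := hM hn
  have h2 := Nat.lt_two_pow_self (n := k)
  omega

theorem Good.ev (h : Good β S T) (hβ : 0 < β) (hβ1 : β ≤ 1 / 2) {s : ℝ} (hs : 2 ≤ s) :
    ∃ C : ℝ, 0 < C ∧ ∀ᶠ k : ℕ in atTop, ∑ a ∈ block k, term S (1 - β) s a ≤
      C * ((2 : ℝ) ^ ((1 - β * s) * k) * ((k : ℝ) + 1) ^ (s - 1)) + 8 ^ s * (U β k (T k) + 2 * U β (k + 1) (T (k + 1))) := by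
  obtain ⟨C, hC, hC'⟩ := block_diff hβ hβ1 hs
  refine ⟨C, hC, ?_⟩
  filter_upwards [h.gap, eventually_ge_atTop 1] with k hk hk1
  rw [sum_block]
  refine hC' S (T k) (T (k + 1)) k hk1 (h.tr k) (h.tr (k + 1)) fun a ha => ?_
  obtain ⟨n, hn, hn1, hn2⟩ := hk a (mem_el.1 ha).1
  obtain ⟨g1, g2, g3⟩ := nx_spec hn hn1
  refine ⟨g2, ?_⟩
  have : (nx S a : ℝ) ≤ n := by exact_mod_cast g3
  linarith

theorem summable_main (hβ : 0 < β) {s : ℝ} (hs : 1 / β < s) :
    Summable fun k : ℕ => (2 : ℝ) ^ ((1 - β * s) * k) * ((k : ℝ) + 1) ^ (s - 1) := by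
  have h1 : 1 - β * s < 0 := by
    rw [div_lt_iff₀ hβ] at hs
    linarith
  obtain ⟨r, hrr⟩ : ∃ r : ℝ, r = (2 : ℝ) ^ (1 - β * s) := ⟨_, rfl⟩
  have hr0 : 0 < r := by rw [hrr]; positivity
  have hr : ‖r‖ < 1 := by
    rw [Real.norm_of_nonneg hr0.le, hrr]
    exact Real.rpow_lt_one_of_one_lt_of_neg (by norm_num) h1
  obtain ⟨j, hj⟩ := exists_nat_ge (s - 1)
  have h2 : Summable fun n : ℕ => (n : ℝ) ^ j * r ^ n := summable_pow_mul_geometric_of_norm_lt_one j hr
  have h2' : Summable fun k : ℕ => ((k + 1 : ℕ) : ℝ) ^ j * r ^ (k + 1) :=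
    (summable_nat_add_iff (f := fun n : ℕ => (n : ℝ) ^ j * r ^ n) 1).2 h2
  have h3 : Summable fun k : ℕ => r⁻¹ * (((k + 1 : ℕ) : ℝ) ^ j * r ^ (k + 1)) := h2'.mul_left r⁻¹
  have h0 : ∀ k : ℕ, 0 ≤ (2 : ℝ) ^ ((1 - β * s) * k) * ((k : ℝ) + 1) ^ (s - 1) := fun k => by positivity
  have hle : ∀ k : ℕ, (2 : ℝ) ^ ((1 - β * s) * k) * ((k : ℝ) + 1) ^ (s - 1) ≤
      r⁻¹ * (((k + 1 : ℕ) : ℝ) ^ j * r ^ (k + 1)) := by
    intro k
    have h4 : ((k : ℝ) + 1) ^ (s - 1) ≤ ((k : ℝ) + 1) ^ j := by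
      rw [← Real.rpow_natCast]
      exact Real.rpow_le_rpow_of_exponent_le (by linarith [(Nat.cast_nonneg k : (0 : ℝ) ≤ k)]) hj
    have h5 : (2 : ℝ) ^ ((1 - β * s) * k) = r ^ k := by
      rw [hrr, Real.rpow_mul (by norm_num), Real.rpow_natCast]
    rw [h5]
    push_cast
    have e : r⁻¹ * (((k : ℝ) + 1) ^ j * r ^ (k + 1)) = r ^ k * ((k : ℝ) + 1) ^ j := by
      rw [pow_succ]
      field_simp
    rw [e]
    exact mul_le_mul_of_nonneg_left h4 (by positivity)
  exact Summable.of_nonneg_of_le h0 hle h3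

theorem Good.sumU (h : Good β S T) (s : ℝ) :
    Summable fun k => (8 : ℝ) ^ s * (U β k (T k) + 2 * U β (k + 1) (T (k + 1))) :=
  (h.sum.add (((summable_nat_add_iff 1).2 h.sum).mul_left 2)).mul_left _

/-- the power sums above the critical exponent converge -/
theorem Good.conv (h : Good β S T) (hβ : 0 < β) (hβ1 : β ≤ 1 / 2) {s : ℝ} (hs : 1 / β < s) :
    Summable fun n => dif S (1 - β) n ^ s := by
  have hs2 : 2 ≤ s := by
    have : 2 ≤ 1 / β := by rw [le_div_iff₀ hβ]; linarith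
    linarith
  have hS := h.inf
  obtain ⟨C, hC, hC'⟩ := h.ev hβ hβ1 hs2
  have h1 : Summable fun k : ℕ => ∑ a ∈ block k, term S (1 - β) s a := by
    obtain ⟨k0, hk0⟩ := eventually_atTop.1 hC'
    rw [← summable_nat_add_iff k0]
    refine Summable.of_nonneg_of_le (fun k => sum_nonneg fun a _ => term_nonneg hS (by linarith) s a)
      (fun k => hk0 (k + k0) (by omega)) ?_
    exact (summable_nat_add_iff (f := fun k : ℕ => C * ((2 : ℝ) ^ ((1 - β * s) * k) * ((k : ℝ) + 1) ^ (s - 1)) +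
      8 ^ s * (U β k (T k) + 2 * U β (k + 1) (T (k + 1)))) k0).2
      (((summable_main hβ hs).mul_left C).add (h.sumU s))
  have h2 : Summable fun a => term S (1 - β) s a := by
    refine summable_of_sum_range_le (c := term S (1 - β) s 0 + ∑' k : ℕ, ∑ a ∈ block k, term S (1 - β) s a)
      (fun a => term_nonneg hS (by linarith) s a) fun n => ?_
    have h3 : ∑ a ∈ range n, term S (1 - β) s a ≤ ∑ a ∈ range (2 ^ n), term S (1 - β) s a :=
      sum_le_sum_of_subset_of_nonneg (range_mono (Nat.lt_two_pow_self).le)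
        fun a _ _ => term_nonneg hS (by linarith) s a
    refine h3.trans ?_
    rw [sum_pow]
    have h4 := h1.sum_le_tsum (range n) fun k _ => sum_nonneg fun a _ => term_nonneg hS (by linarith) s a
    linarith
  refine (h2.comp_injective (nt_mono hS).injective).congr fun n => ?_
  exact term_nt hS _ _ _

/-- growth of the elements -/
theorem log_nt (hS : S.Infinite) {α s : ℝ} (hα : 0 < α) (hs : 0 < s) (hsum : Summable fun n => dif S α n ^ s) :
    ∀ᶠ N : ℕ in atTop, Real.log (nt S N) ≤ 2 / α * Real.log N := by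
  have h1 : ∀ᶠ n : ℕ in atTop, dif S α n ≤ 1 := by
    have h2 := hsum.tendsto_atTop_zero
    filter_upwards [h2.eventually (gt_mem_nhds (show (0 : ℝ) < 1 by norm_num))] with n hn
    by_contra hcon
    push Not at hcon
    have := Real.one_le_rpow hcon.le hs.le
    linarith
  obtain ⟨n0, hn0⟩ := eventually_atTop.1 h1
  have h2 : ∀ N, n0 ≤ N → (nt S N : ℝ) ^ α ≤ (nt S n0 : ℝ) ^ α + (N - n0) := by
    intro N hN
    induction N, hN using Nat.le_induction with
    | base => simp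
    | succ N hN ih =>
      have := hn0 N hN
      unfold dif at this
      push_cast
      linarith
  obtain ⟨M, hM⟩ := exists_nat_ge ((nt S n0 : ℝ) ^ α)
  filter_upwards [eventually_ge_atTop (n0 + M + 2)] with N hN
  have h3 := h2 N (by omega)
  have hN2 : (2 : ℝ) ≤ N := by exact_mod_cast (show 2 ≤ N by omega)
  have hNM : (M : ℝ) ≤ N := by exact_mod_cast (show M ≤ N by omega)
  have hnt : 0 < nt S N := by
    have := (nt_mono hS).id_le N
    simp only [id] at this
    omega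
  have hntR : (0 : ℝ) < nt S N := by exact_mod_cast hnt
  have h4 : (nt S N : ℝ) ^ α ≤ (N : ℝ) ^ 2 := by
    have : (0 : ℝ) ≤ n0 := Nat.cast_nonneg _
    nlinarith
  have h5 := Real.log_le_log (by positivity) h4
  rw [Real.log_rpow hntR, Real.log_pow] at h5
  rw [div_mul_eq_mul_div, le_div_iff₀ hα]
  push_cast at h5
  linarith

/-- the critical power sum -/
theorem Good.crit (h : Good β S T) (hβ : 0 < β) (hβ1 : β ≤ 1 / 2) :
    (fun N : ℕ => ∑ n ∈ range N, dif S (1 - β) n ^ (1 / β)) =O[atTop] fun N : ℕ => Real.log N ^ (1 / β) := by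
  have hs2 : 2 ≤ 1 / β := by rw [le_div_iff₀ hβ]; linarith
  have hS := h.inf
  obtain ⟨s, hs⟩ : ∃ s : ℝ, s = 1 / β := ⟨_, rfl⟩
  rw [← hs] at hs2 ⊢
  have hβs : 1 - β * s = 0 := by rw [hs]; field_simp; ring
  obtain ⟨C, hC, hC'⟩ := h.ev hβ hβ1 hs2
  obtain ⟨k0, hk0⟩ := eventually_atTop.1 hC'
  obtain ⟨V, hV⟩ : ∃ V : ℝ, V = ∑' k : ℕ, (8 : ℝ) ^ s * (U β k (T k) + 2 * U β (k + 1) (T (k + 1))) := ⟨_, rfl⟩
  obtain ⟨V0, hV0⟩ : ∃ V0 : ℝ, V0 = term S (1 - β) s 0 + ∑ k ∈ range k0, ∑ a ∈ block k, term S (1 - β) s a := ⟨_, rfl⟩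
  have hUn : ∀ k, 0 ≤ (8 : ℝ) ^ s * (U β k (T k) + 2 * U β (k + 1) (T (k + 1))) := fun k => by
    have h1 := U_nonneg β k (T k)
    have h2 := U_nonneg β (k + 1) (T (k + 1))
    positivity
  have hVn : 0 ≤ V := by rw [hV]; exact tsum_nonneg hUn
  have hV0n : 0 ≤ V0 := by
    rw [hV0]
    exact add_nonneg (term_nonneg hS (by linarith) s 0)
      (sum_nonneg fun k _ => sum_nonneg fun a _ => term_nonneg hS (by linarith) s a)
  -- sums up to a power of two
  have h1 : ∀ K : ℕ, 1 ≤ K → ∑ a ∈ range (2 ^ K), term S (1 - β) s a ≤ (C + V + V0) * (K : ℝ) ^ s := by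
    intro K hK
    have hK1 : (1 : ℝ) ≤ K := by exact_mod_cast hK
    rw [sum_pow]
    have h2 : ∀ k ∈ range K, ∑ a ∈ block k, term S (1 - β) s a ≤
        (if k < k0 then ∑ a ∈ block k, term S (1 - β) s a else 0) + C * (K : ℝ) ^ (s - 1) +
          8 ^ s * (U β k (T k) + 2 * U β (k + 1) (T (k + 1))) := by
      intro k hk
      rw [mem_range] at hk
      split_ifs with hkk
      · have : 0 ≤ C * (K : ℝ) ^ (s - 1) := by positivity
        have := hUn k
        linarith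
      · have h3 := hk0 k (by omega)
        rw [hβs, zero_mul, Real.rpow_zero, one_mul] at h3
        have h4 : ((k : ℝ) + 1) ^ (s - 1) ≤ (K : ℝ) ^ (s - 1) := by
          apply Real.rpow_le_rpow (by positivity) _ (by linarith)
          exact_mod_cast hk
        have := mul_le_mul_of_nonneg_left h4 hC.le
        linarith
    have h3 := sum_le_sum h2
    rw [sum_add_distrib, sum_add_distrib, sum_const, card_range, nsmul_eq_mul] at h3
    have h4 : ∑ k ∈ range K, (if k < k0 then ∑ a ∈ block k, term S (1 - β) s a else 0) ≤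
        ∑ k ∈ range k0, ∑ a ∈ block k, term S (1 - β) s a := by
      rw [← sum_filter]
      refine sum_le_sum_of_subset_of_nonneg (fun k hk => ?_) fun k _ _ => sum_nonneg fun a _ =>
        term_nonneg hS (by linarith) s a
      rw [mem_filter] at hk
      exact mem_range.2 hk.2
    have h5 := (h.sumU s).sum_le_tsum (range K) fun k _ => hUn k
    have h6 : (K : ℝ) * (C * (K : ℝ) ^ (s - 1)) = C * (K : ℝ) ^ s := by
      rw [Real.rpow_sub_one (by positivity)]
      field_simp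
    have h7 : 1 ≤ (K : ℝ) ^ s := Real.one_le_rpow hK1 (by linarith)
    rw [h6] at h3
    rw [← hV] at h5
    have h8 : term S (1 - β) s 0 + ∑ k ∈ range K, ∑ a ∈ block k, term S (1 - β) s a ≤ V0 + C * (K : ℝ) ^ s + V := by
      rw [hV0]
      linarith
    refine h8.trans ?_
    nlinarith
  -- growth
  have hconv := h.conv hβ hβ1 (s := s + 1) (by rw [← hs]; linarith)
  have hlog := log_nt hS (α := 1 - β) (s := s + 1) (by linarith) (by linarith) hconv
  refine Asymptotics.IsBigO.of_bound ((C + V + V0) * (2 / (1 - β) / Real.log 2 + 2) ^ s) ?_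
  filter_upwards [hlog, eventually_ge_atTop 3] with N hN hN3
  have hl0 : 0 < Real.log 2 := Real.log_pos (by norm_num)
  have hlN : 1 ≤ Real.log N := (one_lt_log hN3).le
  have hnn : 0 ≤ ∑ n ∈ range N, dif S (1 - β) n ^ s :=
    sum_nonneg fun n _ => Real.rpow_nonneg (dif_nonneg hS (by linarith) n) s
  rw [Real.norm_of_nonneg hnn, Real.norm_of_nonneg (by positivity)]
  obtain ⟨K, hK⟩ : ∃ K, K = Nat.log 2 (nt S N) + 1 := ⟨_, rfl⟩
  have hnt : 0 < nt S N := by
    have := (nt_mono hS).id_le N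
    simp only [id] at this
    omega
  have hntR : (0 : ℝ) < nt S N := by exact_mod_cast hnt
  have h2 : nt S N < 2 ^ K := by rw [hK]; exact Nat.lt_pow_succ_log_self (by norm_num) _
  have h3 : ∑ n ∈ range N, dif S (1 - β) n ^ s ≤ ∑ a ∈ range (2 ^ K), term S (1 - β) s a := by
    have e : ∑ n ∈ range N, dif S (1 - β) n ^ s = ∑ a ∈ (range N).image (nt S), term S (1 - β) s a := by
      rw [sum_image fun a _ b _ hab => (nt_mono hS).injective hab]
      exact sum_congr rfl fun n _ => (term_nt hS _ _ _).symm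
    rw [e]
    refine sum_le_sum_of_subset_of_nonneg (fun a ha => ?_) fun a _ _ => term_nonneg hS (by linarith) s a
    rw [mem_image] at ha
    obtain ⟨n, hn, rfl⟩ := ha
    rw [mem_range] at hn ⊢
    exact (nt_mono hS hn).trans h2
  have h4 : (K : ℝ) ≤ (2 / (1 - β) / Real.log 2 + 2) * Real.log N := by
    have h5 : (2 : ℝ) ^ Nat.log 2 (nt S N) ≤ nt S N := by
      exact_mod_cast Nat.pow_log_le_self 2 (by omega)
    have h6 := Real.log_le_log (by positivity) h5
    rw [Real.log_pow] at h6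
    have h7 : (Nat.log 2 (nt S N) : ℝ) ≤ 2 / (1 - β) / Real.log 2 * Real.log N := by
      have h8 : (Nat.log 2 (nt S N) : ℝ) * Real.log 2 ≤ 2 / (1 - β) * Real.log N := h6.trans hN
      have e : 2 / (1 - β) / Real.log 2 * Real.log N = 2 / (1 - β) * Real.log N / Real.log 2 := by ring
      rw [e, le_div_iff₀ hl0]
      exact h8
    rw [hK]
    push_cast
    linarith
  have h5 : (K : ℝ) ^ s ≤ ((2 / (1 - β) / Real.log 2 + 2) * Real.log N) ^ s :=
    Real.rpow_le_rpow (by positivity) h4 (by linarith)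
  have hb0 : 0 ≤ 2 / (1 - β) / Real.log 2 + 2 := by
    have : 0 < 1 - β := by linarith
    positivity
  rw [Real.mul_rpow hb0 (by linarith)] at h5
  calc ∑ n ∈ range N, dif S (1 - β) n ^ s ≤ _ := h3
    _ ≤ (C + V + V0) * (K : ℝ) ^ s := h1 K (by omega)
    _ ≤ (C + V + V0) * ((2 / (1 - β) / Real.log 2 + 2) ^ s * Real.log N ^ s) :=
        mul_le_mul_of_nonneg_left h5 (by positivity)
    _ = _ := by ring

/-- a convergent power sum bounds the increments -/
theorem bdd_of_summable (hS : S.Infinite) {α s : ℝ} (hα : 0 < α) (hs : 0 < s)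
    (hsum : Summable fun n => dif S α n ^ s) : Bdd S α := by
  classical
  have h1 : ∀ᶠ n : ℕ in atTop, dif S α n ≤ 1 := by
    have h2 := hsum.tendsto_atTop_zero
    filter_upwards [h2.eventually (gt_mem_nhds (show (0 : ℝ) < 1 by norm_num))] with n hn
    by_contra hcon
    push Not at hcon
    have := Real.one_le_rpow hcon.le hs.le
    linarith
  obtain ⟨n0, hn0⟩ := eventually_atTop.1 h1
  refine ⟨1, ?_⟩
  filter_upwards [eventually_ge_atTop (nt S n0)] with x hx
  -- the largest index with `nt n ≤ x`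
  obtain ⟨n, hn⟩ : ∃ n, n = Nat.findGreatest (fun n => nt S n ≤ x) x := ⟨_, rfl⟩
  have hn0x : n0 ≤ x := ((nt_mono hS).id_le n0).trans hx
  have h2 : nt S n ≤ x := by
    rw [hn]
    exact Nat.findGreatest_spec (P := fun n => nt S n ≤ x) hn0x hx
  have h3 : x < nt S (n + 1) := by
    by_contra hcon
    push Not at hcon
    have h4 : n + 1 ≤ x := ((nt_mono hS).id_le (n + 1)).trans hcon
    have h5 := Nat.le_findGreatest (P := fun n => nt S n ≤ x) h4 hcon
    omega
  have h4 : n0 ≤ n := by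
    rw [hn]
    exact Nat.le_findGreatest (P := fun n => nt S n ≤ x) hn0x hx
  refine ⟨nt S (n + 1), nt_mem hS _, h3, ?_⟩
  have h5 := hn0 n h4
  unfold dif at h5
  have h6 : (nt S n : ℝ) ^ α ≤ (x : ℝ) ^ α := Real.rpow_le_rpow (Nat.cast_nonneg _) (by exact_mod_cast h2) hα.le
  linarith

end Pool.Agent.Q197.PD
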