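import Pool.Agent.Q197.PD.Fin

/-!
# The threshold
-/

set_option autoImplicit false

namespace Pool.Agent.Q197.PD

open Finset MeasureTheory Filter Pool.Agent.Q120.ET Pool.Agent.Q120.SP

variable {Ω : Type} [MeasurableSpace Ω] {μ : Measure Ω} [IsProbabilityMeasure μ] {A : Ω → Set ℕ}

theorem ae_good (hA : IsRandomSet A) {d : ℕ → ℝ} {β : ℝ} (hβ : 0 < β) (hβ1 : β ≤ 1 / 2)
    (hs : Summable fun k : ℕ => d k * k / (2 : ℝ) ^ (β * k))
    (hdd : ∀ᶠ k : ℕ in atTop, relEntropy μ A (block k) ≤ d k) :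
    ∀ᵐ ω ∂μ, Good β (A ω) (fun k => tr A (block k) ω) := by
  have h1 := all_gaps hA (gapFunction_pow one_pos le_rfl hβ hβ1) (d := d)
    (hs.congr fun k => by rw [one_mul]) hdd
  filter_upwards [h1, ae_U hA hβ hs hdd] with ω hω1 hω2
  refine ⟨fun k n hn => (mem_tr.1 hn).2, ?_, hω2⟩
  filter_upwards [hω1] with k hk
  simpa using hk

/-- an infinite set -/
theorem ae_inf (hA : IsRandomSet A) {d : ℕ → ℝ} (hs : Summable fun k : ℕ => 4 * k * (d k + 1) / (2 : ℝ) ^ k)
    (hdd : ∀ᶠ k : ℕ in atTop, relEntropy μ A (block k) ≤ d k) : ∀ᵐ ω ∂μ, (A ω).Infinite := by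
  have h1 := ae_summable (μ := μ) hA (fun k T => max (((fw k (12 * k) T).card : ℝ) - bs k (12 * k)) 0 / 2 ^ k)
    (fun k T => div_nonneg (le_max_right _ _) (by positivity)) hs (by
      filter_upwards [hdd, eventually_ge_atTop 2] with k hk hk2
      have h2 := mean_ex (h := 12 * k) hk2 (by omega) (lawOn μ A (block k)) (fun T _ => measureReal_nonneg)
        (sum_law hA (block k)) (D := d k) hk
      have h3 : ∑ T ∈ (block k).powerset, lawOn μ A (block k) T *
          (max (((fw k (12 * k) T).card : ℝ) - bs k (12 * k)) 0 / 2 ^ k) =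
          (∑ T ∈ (block k).powerset, lawOn μ A (block k) T *
            max (((fw k (12 * k) T).card : ℝ) - bs k (12 * k)) 0) / 2 ^ k := by
        rw [sum_div]
        refine sum_congr rfl fun T _ => ?_
        rw [mul_div_assoc]
      rw [h3]
      exact div_le_div_of_nonneg_right h2 (by positivity))
  filter_upwards [h1] with ω hω
  intro hfin
  obtain ⟨M, hM⟩ := hfin.bddAbove
  have h2 := hω.tendsto_atTop_zero
  have h3 : ∀ᶠ k : ℕ in atTop, 64 * (k : ℝ) ≤ 2 ^ k := by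
    have h4 := (tendsto_pow_const_div_const_pow_of_one_lt 1 (show (1 : ℝ) < 2 by norm_num)).eventually
      (gt_mem_nhds (show (0 : ℝ) < 1 / 64 by norm_num))
    filter_upwards [h4] with k hk
    rw [pow_one, div_lt_iff₀ (by positivity)] at hk
    linarith
  obtain ⟨k, hk1, hk2, hk3⟩ := ((h2.eventually (gt_mem_nhds (show (0 : ℝ) < 1 / 4 by norm_num))).and
    (h3.and (eventually_ge_atTop (M + 2)))).exists
  have hk0 : (0 : ℝ) < k := by exact_mod_cast (show 0 < k by omega)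
  -- all windows are free
  have h4 : Ico (2 ^ k) (2 ^ (k + 1) - 12 * k) ⊆ fw k (12 * k) (tr A (block k) ω) := by
    intro x hx
    rw [mem_Ico] at hx
    have h5 : Ico x (x + 12 * k) ⊆ block k := by
      intro y hy
      rw [mem_Ico] at hy
      rw [block, mem_Ico]
      omega
    simp only [fw, mem_filter]
    refine ⟨h5 (mem_Ico.2 ⟨le_rfl, by omega⟩), h5, ?_⟩
    rw [Finset.disjoint_left]
    intro y hy _
    have h6 := hM (mem_tr.1 hy).2
    have h7 := (mem_tr.1 hy).1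
    rw [block, mem_Ico] at h7
    have := Nat.lt_two_pow_self (n := k)
    omega
  have h5 := card_le_card h4
  rw [Nat.card_Ico] at h5
  have h6 : 2 ^ k ≤ (fw k (12 * k) (tr A (block k) ω)).card + 12 * k := by
    rw [pow_succ] at h5
    omega
  have h7 : (2 : ℝ) ^ k ≤ ((fw k (12 * k) (tr A (block k) ω)).card : ℝ) + 12 * k := by exact_mod_cast h6
  have h8 : bs k (12 * k) ≤ 1 / 4 * 2 ^ k := by
    unfold bs
    have e : (1 : ℝ) - ((12 * k : ℕ) : ℝ) / (4 * k) = -2 := by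
      push_cast
      field_simp
      norm_num
    rw [e, mul_comm]
    apply mul_le_mul_of_nonneg_right _ (by positivity)
    rw [Real.exp_neg, inv_le_comm₀ (Real.exp_pos _) (by norm_num)]
    have h9 := Real.add_one_le_exp (1 : ℝ)
    have h10 : Real.exp 2 = Real.exp 1 * Real.exp 1 := by rw [← Real.exp_add]; norm_num
    rw [h10]
    nlinarith
  rw [div_lt_iff₀ (by positivity)] at hk1
  have h9 := le_max_left (((fw k (12 * k) (tr A (block k) ω)).card : ℝ) - bs k (12 * k)) 0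
  nlinarith

theorem summable_half : Summable fun k : ℕ => 4 * (k : ℝ) * ((2 : ℝ) ^ ((1 / 2 : ℝ) * k) + 1) / (2 : ℝ) ^ k := by
  have h1 : Summable fun k : ℕ => 8 * ((k : ℝ) / (2 : ℝ) ^ ((1 / 2 : ℝ) * k)) :=
    (summable_lin (show (0 : ℝ) < 1 / 2 by norm_num)).mul_left 8
  refine Summable.of_nonneg_of_le (fun k => by positivity) (fun k => ?_) h1
  have h2 : (2 : ℝ) ^ k = (2 : ℝ) ^ ((1 / 2 : ℝ) * k) * (2 : ℝ) ^ ((1 / 2 : ℝ) * k) := by
    rw [← Real.rpow_add (by norm_num), ← Real.rpow_natCast]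
    congr 1
    ring
  have h3 := one_le_L (show (0 : ℝ) < 1 / 2 by norm_num) k
  have hk0 : (0 : ℝ) ≤ k := Nat.cast_nonneg k
  rw [h2, div_le_iff₀ (by positivity)]
  have e : 8 * ((k : ℝ) / (2 : ℝ) ^ ((1 / 2 : ℝ) * k)) * ((2 : ℝ) ^ ((1 / 2 : ℝ) * k) * (2 : ℝ) ^ ((1 / 2 : ℝ) * k)) =
      8 * k * (2 : ℝ) ^ ((1 / 2 : ℝ) * k) := by field_simp
  rw [e]
  nlinarith

/-- the converse -/
theorem someModel_unbdd {d : ℕ → ℝ} (hd : ∀ k, 0 ≤ d k) {β : ℝ} (hβ : 0 < β) (hβ1 : β ≤ 1 / 2)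
    (hns : ¬ Summable fun k : ℕ => d k * k / (2 : ℝ) ^ (β * k)) :
    SomeModel d (fun S => S.Infinite ∧ ¬ Bdd S (1 - β)) := by
  have hd' : ∀ k, 0 ≤ min (d k) ((2 : ℝ) ^ (β * k) / k) := fun k => le_min (hd k) (by positivity)
  have hns' : ¬ Summable fun k : ℕ => min (d k) ((2 : ℝ) ^ (β * k) / k) * k / (2 : ℝ) ^ (β * k) := by
    intro hs
    apply hns
    obtain ⟨k0, hk0⟩ := eventually_atTop.1
      ((hs.tendsto_atTop_zero.eventually (gt_mem_nhds (show (0 : ℝ) < 1 by norm_num))).and (eventually_ge_atTop 1))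
    rw [← summable_nat_add_iff k0]
    refine ((summable_nat_add_iff k0).2 hs).congr fun k => ?_
    obtain ⟨h1, h2⟩ := hk0 (k + k0) (by omega)
    have hk : (0 : ℝ) < ((k + k0 : ℕ) : ℝ) := by exact_mod_cast (show 0 < k + k0 by omega)
    have hL : (0 : ℝ) < (2 : ℝ) ^ (β * ((k + k0 : ℕ) : ℝ)) := by positivity
    have h3 : min (d (k + k0)) ((2 : ℝ) ^ (β * ((k + k0 : ℕ) : ℝ)) / ((k + k0 : ℕ) : ℝ)) = d (k + k0) := by
      rcases le_total (d (k + k0)) ((2 : ℝ) ^ (β * ((k + k0 : ℕ) : ℝ)) / ((k + k0 : ℕ) : ℝ)) with h4 | h4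
      · exact min_eq_left h4
      · exfalso
        rw [min_eq_right h4, div_mul_cancel₀ _ hk.ne', div_self hL.ne'] at h1
        exact lt_irrefl _ h1
    rw [h3]
  obtain ⟨Ω, m, μ, hμ, A, hA, h1, h2⟩ := (powers_tfae hd' hβ hβ1).2.2 hns'
  refine ⟨Ω, m, μ, hμ, A, hA, fun k hk => (h1 k hk).trans (min_le_left _ _), ?_⟩
  have h3 : ∀ᵐ ω ∂μ, (A ω).Infinite := by
    refine ae_inf hA (d := fun k => (2 : ℝ) ^ ((1 / 2 : ℝ) * k)) summable_half ?_
    filter_upwards [eventually_ge_atTop 2] with k hk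
    refine (h1 k hk).trans ((min_le_right _ _).trans ?_)
    have hk1 : (1 : ℝ) ≤ k := by exact_mod_cast (show 1 ≤ k by omega)
    refine (div_le_self (by positivity) hk1).trans ?_
    apply Real.rpow_le_rpow_of_exponent_le (by norm_num)
    exact mul_le_mul_of_nonneg_right hβ1 (by linarith)
  filter_upwards [h2, h3] with ω hω1 hω2
  exact ⟨hω2, hω1⟩

/-- bounded differences bound the increments -/
theorem bdd_of_bddAbove {S : Set ℕ} (hS : S.Infinite) {α : ℝ} (hα : 0 < α) (hb : BddAbove (Set.range (dif S α))) :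
    Bdd S α := by
  classical
  obtain ⟨C, hC⟩ := hb
  refine ⟨C, ?_⟩
  filter_upwards [eventually_ge_atTop (nt S 0)] with x hx
  obtain ⟨n, hn⟩ : ∃ n, n = Nat.findGreatest (fun n => nt S n ≤ x) x := ⟨_, rfl⟩
  have h2 : nt S n ≤ x := by
    rw [hn]
    exact Nat.findGreatest_spec (P := fun n => nt S n ≤ x) (Nat.zero_le x) hx
  have h3 : x < nt S (n + 1) := by
    by_contra hcon
    push Not at hcon
    have h4 : n + 1 ≤ x := ((nt_mono hS).id_le (n + 1)).trans hcon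
    have h5 := Nat.le_findGreatest (P := fun n => nt S n ≤ x) h4 hcon
    omega
  refine ⟨nt S (n + 1), nt_mem hS _, h3, ?_⟩
  have h5 : dif S α n ≤ C := hC ⟨n, rfl⟩
  unfold dif at h5
  have h6 : (nt S n : ℝ) ^ α ≤ (x : ℝ) ^ α := Real.rpow_le_rpow (Nat.cast_nonneg _) (by exact_mod_cast h2) hα.le
  linarith

end Pool.Agent.Q197.PD
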