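import Pool.Agent.Q197.PD.Cnt

/-!
# The excess of the number of free windows is almost surely summable
-/

set_option autoImplicit false

namespace Pool.Agent.Q197.PD

open Finset MeasureTheory Filter Pool.Agent.Q120.ET Pool.Agent.Q120.SP

/-- the excess, weighted over the dyadic lengths `≤ 2 ^ I` -/
noncomputable def Y (k I : ℕ) (T : Finset ℕ) : ℝ :=
  ∑ i ∈ range (I + 1), 2 ^ i * max (((fw k (2 ^ i) T).card : ℝ) - bs k (2 ^ i)) 0

theorem Y_nonneg (k I : ℕ) (T : Finset ℕ) : 0 ≤ Y k I T :=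
  sum_nonneg fun i _ => mul_nonneg (by positivity) (le_max_right _ _)

theorem Y_mono (k : ℕ) {I J : ℕ} (h : I ≤ J) (T : Finset ℕ) : Y k I T ≤ Y k J T := by
  refine sum_le_sum_of_subset_of_nonneg (range_mono (by omega)) fun i _ _ => ?_
  exact mul_nonneg (by positivity) (le_max_right _ _)

theorem sum_two_pow (n : ℕ) : ∑ i ∈ range n, (2 : ℝ) ^ i ≤ 2 ^ n := by
  have h : ∑ i ∈ range n, (2 : ℝ) ^ i + 1 = 2 ^ n := by
    induction n with
    | zero => simp
    | succ n ih => rw [sum_range_succ, pow_succ]; linarith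
  linarith

theorem mean_Y {k I : ℕ} (hk : 2 ≤ k) (p : Finset ℕ → ℝ)
    (hp : ∀ T ∈ (block k).powerset, 0 ≤ p T) (hp1 : ∑ T ∈ (block k).powerset, p T = 1) {D : ℝ}
    (hD : ∑ T ∈ (block k).powerset, p T * Real.log (p T / cramerOn (block k) T) ≤ D) :
    ∑ T ∈ (block k).powerset, p T * Y k I T ≤ 2 ^ (I + 1) * (4 * k * (D + 1)) := by
  have hB : ∀ n ∈ block k, 3 ≤ n := fun n hn => three_le_of_mem_block hk hn
  have hD0 : 0 ≤ D := by
    have h1 := entropy_fun hB p hp hp1 (fun _ => 0)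
    simp only [mul_zero, sum_const_zero, Real.exp_zero, mul_one] at h1
    rw [sum_cramerOn] at h1
    linarith
  have h1 : ∑ T ∈ (block k).powerset, p T * Y k I T =
      ∑ i ∈ range (I + 1), 2 ^ i * ∑ T ∈ (block k).powerset, p T * max (((fw k (2 ^ i) T).card : ℝ) - bs k (2 ^ i)) 0 := by
    simp_rw [Y, mul_sum]
    rw [sum_comm]
    refine sum_congr rfl fun i _ => sum_congr rfl fun T _ => ?_
    ring
  rw [h1]
  have h2 : ∀ i ∈ range (I + 1), (2 : ℝ) ^ i *
      ∑ T ∈ (block k).powerset, p T * max (((fw k (2 ^ i) T).card : ℝ) - bs k (2 ^ i)) 0 ≤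
      2 ^ i * (4 * k * (D + 1)) := fun i _ =>
    mul_le_mul_of_nonneg_left (mean_ex hk (Nat.one_le_two_pow) p hp hp1 hD) (by positivity)
  refine (sum_le_sum h2).trans ?_
  rw [← sum_mul]
  exact mul_le_mul_of_nonneg_right (sum_two_pow _) (by positivity)

variable {Ω : Type*} [MeasurableSpace Ω] {μ : Measure Ω} [IsProbabilityMeasure μ] {A : Ω → Set ℕ}

theorem tr_sum (B : Finset ℕ) (F : Finset ℕ → ℝ) (ω : Ω) : ENNReal.ofReal (F (tr A B ω)) =
    ∑ T ∈ B.powerset, Set.indicator {ω | tr A B ω = T} (fun _ => ENNReal.ofReal (F T)) ω := by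
  classical
  rw [sum_eq_single (tr A B ω)]
  · rw [Set.indicator_of_mem]
    rfl
  · intro T _ hT
    rw [Set.indicator_of_notMem]
    intro h
    exact hT h.symm
  · intro h
    exact absurd (mem_powerset.2 fun n hn => (mem_tr.1 hn).1) h

theorem meas_tr (hA : IsRandomSet A) {B T : Finset ℕ} (hT : T ∈ B.powerset) :
    MeasurableSet {ω | tr A B ω = T} := by
  rw [← law_set_eq A (mem_powerset.1 hT)]
  exact measurableSet_law hA B T

theorem meas_F (hA : IsRandomSet A) (B : Finset ℕ) (F : Finset ℕ → ℝ) :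
    Measurable fun ω => ENNReal.ofReal (F (tr A B ω)) := by
  have e : (fun ω => ENNReal.ofReal (F (tr A B ω))) = fun ω => ∑ T ∈ B.powerset,
      Set.indicator {ω | tr A B ω = T} (fun _ => ENNReal.ofReal (F T)) ω := by
    funext ω
    exact tr_sum B F ω
  rw [e]
  exact Finset.measurable_sum _ fun T hT => measurable_const.indicator (meas_tr hA hT)

theorem lint_tr (hA : IsRandomSet A) (B : Finset ℕ) (F : Finset ℕ → ℝ) (hF : ∀ T, 0 ≤ F T) :
    ∫⁻ ω, ENNReal.ofReal (F (tr A B ω)) ∂μ =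
      ENNReal.ofReal (∑ T ∈ B.powerset, lawOn μ A B T * F T) := by
  classical
  simp_rw [tr_sum B F]
  have h0 : ∀ T ∈ B.powerset, 0 ≤ lawOn μ A B T * F T := fun T _ => mul_nonneg measureReal_nonneg (hF T)
  rw [lintegral_finset_sum _ fun T hT => measurable_const.indicator (meas_tr hA hT),
    ENNReal.ofReal_sum_of_nonneg h0]
  refine sum_congr rfl fun T hT => ?_
  have h1 : 0 ≤ lawOn μ A B T := measureReal_nonneg
  rw [lintegral_indicator_const (meas_tr hA hT), mul_comm, ENNReal.ofReal_mul h1]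
  congr 1
  rw [lawOn, law_set_eq A (mem_powerset.1 hT)]
  exact (ENNReal.ofReal_toReal (measure_ne_top _ _)).symm

/-- almost sure summability -/
theorem ae_summable (hA : IsRandomSet A) (F : ℕ → Finset ℕ → ℝ) (hF : ∀ k T, 0 ≤ F k T) {b : ℕ → ℝ}
    (hb : Summable b)
    (h : ∀ᶠ k : ℕ in atTop, ∑ T ∈ (block k).powerset, lawOn μ A (block k) T * F k T ≤ b k) :
    ∀ᵐ ω ∂μ, Summable fun k => F k (tr A (block k) ω) := by
  obtain ⟨k0, hk0⟩ := eventually_atTop.1 h
  have h0 : ∀ k, 0 ≤ ∑ T ∈ (block (k + k0)).powerset, lawOn μ A (block (k + k0)) T * F (k + k0) T := fun k =>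
    sum_nonneg fun T _ => mul_nonneg measureReal_nonneg (hF _ _)
  have hb' : Summable fun k => b (k + k0) := (summable_nat_add_iff k0).2 hb
  have hb0 : ∀ k, 0 ≤ b (k + k0) := fun k => (h0 k).trans (hk0 _ (by omega))
  have h1 : ∫⁻ ω, ∑' k, ENNReal.ofReal (F (k + k0) (tr A (block (k + k0)) ω)) ∂μ ≠ ⊤ := by
    rw [lintegral_tsum fun k => (meas_F hA _ _).aemeasurable]
    have h2 : ∀ k, ∫⁻ ω, ENNReal.ofReal (F (k + k0) (tr A (block (k + k0)) ω)) ∂μ ≤ ENNReal.ofReal (b (k + k0)) := by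
      intro k
      rw [lint_tr hA _ _ (hF _)]
      exact ENNReal.ofReal_le_ofReal (hk0 _ (by omega))
    refine ne_top_of_le_ne_top ?_ (ENNReal.tsum_le_tsum h2)
    rw [← ENNReal.ofReal_tsum_of_nonneg hb0 hb']
    exact ENNReal.ofReal_ne_top
  have h2 := ae_lt_top (Measurable.ennreal_tsum fun k => meas_F hA _ _) h1
  filter_upwards [h2] with ω hω
  have h3 := ENNReal.summable_toReal hω.ne
  have h4 : Summable fun k => F (k + k0) (tr A (block (k + k0)) ω) := by
    refine h3.congr fun k => ?_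
    rw [ENNReal.toReal_ofReal (hF _ _)]
  exact (summable_nat_add_iff (f := fun k => F k (tr A (block k) ω)) k0).1 h4

/-- the largest exponent -/
noncomputable def II (β : ℝ) (k : ℕ) : ℕ := Nat.log 2 ⌊(2 : ℝ) ^ (β * k)⌋₊

theorem one_le_L {β : ℝ} (hβ : 0 < β) (k : ℕ) : 1 ≤ (2 : ℝ) ^ (β * k) :=
  Real.one_le_rpow (by norm_num) (by positivity)

theorem pow_II {β : ℝ} (hβ : 0 < β) (k : ℕ) : (2 : ℝ) ^ II β k ≤ (2 : ℝ) ^ (β * k) := by
  have h1 : 1 ≤ ⌊(2 : ℝ) ^ (β * k)⌋₊ := Nat.le_floor (by simpa using one_le_L hβ k)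
  have h2 : 2 ^ II β k ≤ ⌊(2 : ℝ) ^ (β * k)⌋₊ := Nat.pow_log_le_self 2 (by omega)
  calc (2 : ℝ) ^ II β k = ((2 ^ II β k : ℕ) : ℝ) := by push_cast; rfl
    _ ≤ (⌊(2 : ℝ) ^ (β * k)⌋₊ : ℝ) := by exact_mod_cast h2
    _ ≤ _ := Nat.floor_le (by positivity)

theorem II_mono {β : ℝ} (hβ : 0 < β) (k : ℕ) : II β k ≤ II β (k + 1) := by
  apply Nat.log_mono_right
  apply Nat.floor_le_floor
  apply Real.rpow_le_rpow_of_exponent_le (by norm_num)
  push_cast
  nlinarith

theorem summable_lin {β : ℝ} (hβ : 0 < β) : Summable fun k : ℕ => (k : ℝ) / (2 : ℝ) ^ (β * k) := by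
  have hr : ‖(2 : ℝ) ^ (-β)‖ < 1 := by
    rw [Real.norm_of_nonneg (by positivity)]
    exact Real.rpow_lt_one_of_one_lt_of_neg (by norm_num) (by linarith)
  have h1 := summable_pow_mul_geometric_of_norm_lt_one 1 hr
  refine h1.congr fun k => ?_
  rw [pow_one, ← Real.rpow_natCast, ← Real.rpow_mul (by norm_num), neg_mul, Real.rpow_neg (by norm_num)]
  rfl

/-- the normalised excess -/
noncomputable def U (β : ℝ) (k : ℕ) (T : Finset ℕ) : ℝ := Y k (II β k) T / ((2 : ℝ) ^ (β * k)) ^ 2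

theorem U_nonneg (β : ℝ) (k : ℕ) (T : Finset ℕ) : 0 ≤ U β k T :=
  div_nonneg (Y_nonneg _ _ _) (by positivity)

theorem ae_U (hA : IsRandomSet A) {d : ℕ → ℝ} {β : ℝ} (hβ : 0 < β)
    (hs : Summable fun k : ℕ => d k * k / (2 : ℝ) ^ (β * k))
    (hdd : ∀ᶠ k : ℕ in atTop, relEntropy μ A (block k) ≤ d k) :
    ∀ᵐ ω ∂μ, Summable fun k => U β k (tr A (block k) ω) := by
  have h1 : Summable fun k : ℕ => 8 * (d k * k / (2 : ℝ) ^ (β * k)) + 8 * ((k : ℝ) / (2 : ℝ) ^ (β * k)) :=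
    (hs.mul_left 8).add ((summable_lin hβ).mul_left 8)
  refine ae_summable hA (fun k T => U β k T) (fun k T => U_nonneg β k T) h1 ?_
  filter_upwards [hdd, eventually_ge_atTop 2] with k hk hk2
  have h2 := mean_Y (I := II β k) hk2 (lawOn μ A (block k)) (fun T _ => measureReal_nonneg)
    (sum_law hA (block k)) (D := d k) hk
  have hL := one_le_L hβ k
  have hL0 : (0 : ℝ) < (2 : ℝ) ^ (β * k) := by linarith
  have hD0 : 0 ≤ d k := by
    have h1 := entropy_fun (fun n hn => three_le_of_mem_block hk2 hn) (lawOn μ A (block k))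
      (fun T _ => measureReal_nonneg) (sum_law hA (block k)) (fun _ => 0)
    simp only [mul_zero, sum_const_zero, Real.exp_zero, mul_one] at h1
    rw [sum_cramerOn] at h1
    unfold relEntropy at hk
    linarith
  have h3 : ∑ T ∈ (block k).powerset, lawOn μ A (block k) T * U β k T =
      (∑ T ∈ (block k).powerset, lawOn μ A (block k) T * Y k (II β k) T) / ((2 : ℝ) ^ (β * k)) ^ 2 := by
    rw [sum_div]
    refine sum_congr rfl fun T _ => ?_
    rw [U, mul_div_assoc]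
  rw [h3, div_le_iff₀ (by positivity)]
  refine h2.trans ?_
  have h4 : (2 : ℝ) ^ (II β k + 1) ≤ 2 * (2 : ℝ) ^ (β * k) := by
    rw [pow_succ]
    linarith [pow_II hβ k]
  calc (2 : ℝ) ^ (II β k + 1) * (4 * k * (d k + 1)) ≤ 2 * (2 : ℝ) ^ (β * k) * (4 * k * (d k + 1)) :=
        mul_le_mul_of_nonneg_right h4 (by positivity)
    _ = _ := by field_simp; ring

end Pool.Agent.Q197.PD
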