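import Pool.Agent.Q197.PD.Lng

/-!
# Moments of gaps
-/

set_option autoImplicit false

namespace Pool.Agent.Q197.PD

open Finset MeasureTheory Filter Pool.Agent.Q120.ET Pool.Agent.Q120.SP

theorem gap_le2 {I x : ℕ} {S : Set ℕ} {s : ℝ} (hs : 0 ≤ s)
    (h1 : x < nx S x) (h2 : nx S x ≤ x + 2 ^ (I + 1)) :
    ((nx S x : ℝ) - x) ^ s ≤ 4 ^ s + ∑ i ∈ range (I + 1),
      if x + 4 * 2 ^ i < nx S x then (8 * (2 : ℝ) ^ i) ^ s else 0 := by
  have hnn : ∀ i ∈ range (I + 1), (0 : ℝ) ≤ if x + 4 * 2 ^ i < nx S x then (8 * (2 : ℝ) ^ i) ^ s else 0 := by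
    intro i _
    split_ifs
    · positivity
    · exact le_rfl
  have hx0 : (0 : ℝ) ≤ (nx S x : ℝ) - x := by
    have : (x : ℝ) ≤ nx S x := by exact_mod_cast h1.le
    linarith
  by_cases hg : nx S x ≤ x + 4
  · have h3 : ((nx S x : ℝ) - x) ^ s ≤ 4 ^ s := by
      apply Real.rpow_le_rpow hx0 _ hs
      have : (nx S x : ℝ) ≤ x + 4 := by exact_mod_cast hg
      linarith
    have := sum_nonneg hnn
    linarith
  · push Not at hg
    obtain ⟨g, hg'⟩ : ∃ g, nx S x = x + g := ⟨nx S x - x, by omega⟩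
    obtain ⟨i, hi⟩ : ∃ i, i = Nat.log 2 ((g - 1) / 4) := ⟨_, rfl⟩
    have h3 : 2 ^ i ≤ (g - 1) / 4 := by
      rw [hi]
      exact Nat.pow_log_le_self 2 (by omega)
    have h4 : (g - 1) / 4 < 2 ^ (i + 1) := by
      rw [hi]
      exact Nat.lt_pow_succ_log_self (by norm_num) _
    rw [pow_succ] at h4
    have h5 : x + 4 * 2 ^ i < nx S x := by omega
    have h6 : g ≤ 8 * 2 ^ i := by omega
    have hgR : (nx S x : ℝ) - x = g := by rw [hg']; push_cast; ring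
    have h7 : i < I + 1 := by
      have h8 : 2 ^ i < 2 ^ (I + 1) := by omega
      exact (Nat.pow_lt_pow_iff_right (by norm_num)).1 h8
    have h8 := single_le_sum hnn (mem_range.2 h7)
    rw [if_pos h5] at h8
    have h9 : ((nx S x : ℝ) - x) ^ s ≤ (8 * (2 : ℝ) ^ i) ^ s := by
      apply Real.rpow_le_rpow hx0 _ hs
      rw [hgR]
      exact_mod_cast h6
    have : (0 : ℝ) ≤ 4 ^ s := by positivity
    linarith

/-- the number of long gaps -/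
theorem long_count {S : Set ℕ} {k i : ℕ} (hk : 1 ≤ k) (hik : i ≤ k) {T T' : Finset ℕ} (hT : ∀ n ∈ T, n ∈ S)
    (hT' : ∀ n ∈ T', n ∈ S) :
    ((((el S k).filter fun a => a + 4 * 2 ^ i < nx S a).card : ℕ) : ℝ) * 2 ^ i ≤
      2 * bs (k + 1) (2 ^ i) + (max (((fw k (2 ^ i) T).card : ℝ) - bs k (2 ^ i)) 0 +
        max (((fw (k + 1) (2 ^ i) T').card : ℝ) - bs (k + 1) (2 ^ i)) 0) := by
  have h3 : (2 : ℕ) * 2 ^ i ≤ 2 ^ (k + 1) := by
    have h5 : (2 : ℕ) ^ i ≤ 2 ^ k := Nat.pow_le_pow_right (by norm_num) hik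
    rw [pow_succ]
    omega
  have h4 := count_gap (S := S) (k := k) (h := 2 ^ i) h3 ((el S k).filter fun a => a + 4 * 2 ^ i < nx S a)
    (fun a ha => by
      rw [mem_filter, mem_el] at ha
      exact ⟨ha.1.1, ha.1.2, ha.2⟩) T T' hT hT'
  have h5 : ((((el S k).filter fun a => a + 4 * 2 ^ i < nx S a).card : ℕ) : ℝ) * 2 ^ i ≤
      ((fw k (2 ^ i) T).card : ℝ) + ((fw (k + 1) (2 ^ i) T').card : ℝ) := by exact_mod_cast h4
  have h7 := le_max_left (((fw k (2 ^ i) T).card : ℝ) - bs k (2 ^ i)) 0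
  have h8 := le_max_left (((fw (k + 1) (2 ^ i) T').card : ℝ) - bs (k + 1) (2 ^ i)) 0
  have := bs_mono hk (2 ^ i)
  linarith

theorem block_sum2 {s : ℝ} (hs : 2 ≤ s) :
    ∃ C : ℝ, 0 < C ∧ ∀ (S : Set ℕ) (T T' : Finset ℕ) (k I : ℕ), 1 ≤ k → I ≤ k → (∀ n ∈ T, n ∈ S) →
      (∀ n ∈ T', n ∈ S) → (∀ a ∈ el S k, a < nx S a ∧ nx S a ≤ a + 2 ^ (I + 1)) →
      ∑ a ∈ el S k, ((nx S a : ℝ) - a) ^ s ≤ C * 2 ^ k * ((k : ℝ) + 1) ^ (s - 1) +
        8 ^ s * ((2 : ℝ) ^ I) ^ (s - 2) * (Y k I T + Y (k + 1) I T') := by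
  obtain ⟨Cm, hCm, hC⟩ := dyadic_sum (m := s - 1) (by linarith)
  refine ⟨4 ^ s + 8 ^ s * 4 * Real.exp 1 * Cm * 4 ^ (s - 1), by positivity, ?_⟩
  intro S T T' k I hk hIk hT hT' hgap
  have hk0 : (0 : ℝ) < k := by exact_mod_cast (show 0 < k by omega)
  obtain ⟨L, hL⟩ : ∃ L : ℝ, L = (2 : ℝ) ^ I := ⟨_, rfl⟩
  have hL0 : 0 < L := by rw [hL]; positivity
  have h1 : ∑ a ∈ el S k, ((nx S a : ℝ) - a) ^ s ≤ ∑ a ∈ el S k, (4 ^ s + ∑ i ∈ range (I + 1),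
      if a + 4 * 2 ^ i < nx S a then (8 * (2 : ℝ) ^ i) ^ s else 0) :=
    sum_le_sum fun a ha => gap_le2 (by linarith) (hgap a ha).1 (hgap a ha).2
  rw [sum_add_distrib, sum_const, nsmul_eq_mul, sum_comm] at h1
  have h2 : ∀ i ∈ range (I + 1), (∑ a ∈ el S k, if a + 4 * 2 ^ i < nx S a then (8 * (2 : ℝ) ^ i) ^ s else 0) ≤
      8 ^ s * (4 * 2 ^ k * Real.exp 1) * (((2 : ℝ) ^ i) ^ (s - 1) * Real.exp (-(2 ^ i / (4 * ((k : ℝ) + 1))))) +
      8 ^ s * L ^ (s - 2) * (2 ^ i * max (((fw k (2 ^ i) T).card : ℝ) - bs k (2 ^ i)) 0 +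
        2 ^ i * max (((fw (k + 1) (2 ^ i) T').card : ℝ) - bs (k + 1) (2 ^ i)) 0) := by
    intro i hi
    rw [mem_range] at hi
    have hx : (0 : ℝ) < 2 ^ i := by positivity
    have hiL : (2 : ℝ) ^ i ≤ L := by rw [hL]; exact pow_le_pow_right₀ (by norm_num) (by omega)
    have h5 := long_count (S := S) hk (show i ≤ k by omega) hT hT'
    rw [← sum_filter, sum_const, nsmul_eq_mul]
    have h6 : ((((el S k).filter fun a => a + 4 * 2 ^ i < nx S a).card : ℕ) : ℝ) * (8 * (2 : ℝ) ^ i) ^ s =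
        8 ^ s * ((2 : ℝ) ^ i) ^ (s - 1) * (((((el S k).filter fun a => a + 4 * 2 ^ i < nx S a).card : ℕ) : ℝ) * 2 ^ i) := by
      rw [Real.mul_rpow (by norm_num) hx.le, Real.rpow_sub_one hx.ne']
      field_simp
    rw [h6]
    have h9 : bs (k + 1) (2 ^ i) = 2 * 2 ^ k * Real.exp 1 * Real.exp (-(2 ^ i / (4 * ((k : ℝ) + 1)))) := by
      unfold bs
      have : (1 : ℝ) - ((2 ^ i : ℕ) : ℝ) / (4 * ((k + 1 : ℕ) : ℝ)) = 1 + -(2 ^ i / (4 * ((k : ℝ) + 1))) := by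
        push_cast; ring
      rw [this, Real.exp_add, pow_succ]
      ring
    have h10 : ((2 : ℝ) ^ i) ^ (s - 1) ≤ L ^ (s - 2) * 2 ^ i := by
      have e : s - 1 = (s - 2) + 1 := by ring
      rw [e, Real.rpow_add_one hx.ne']
      exact mul_le_mul_of_nonneg_right (Real.rpow_le_rpow hx.le hiL (by linarith)) hx.le
    obtain ⟨e1, he1⟩ : ∃ e1 : ℝ, e1 = max (((fw k (2 ^ i) T).card : ℝ) - bs k (2 ^ i)) 0 := ⟨_, rfl⟩
    obtain ⟨e2, he2⟩ : ∃ e2 : ℝ, e2 = max (((fw (k + 1) (2 ^ i) T').card : ℝ) - bs (k + 1) (2 ^ i)) 0 := ⟨_, rfl⟩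
    rw [← he1, ← he2] at h5
    rw [← he1, ← he2]
    have he10 : 0 ≤ e1 := by rw [he1]; exact le_max_right _ _
    have he20 : 0 ≤ e2 := by rw [he2]; exact le_max_right _ _
    calc 8 ^ s * ((2 : ℝ) ^ i) ^ (s - 1) * (((((el S k).filter fun a => a + 4 * 2 ^ i < nx S a).card : ℕ) : ℝ) * 2 ^ i) ≤
        8 ^ s * ((2 : ℝ) ^ i) ^ (s - 1) * (2 * bs (k + 1) (2 ^ i) + (e1 + e2)) := by
          apply mul_le_mul_of_nonneg_left h5 (by positivity)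
      _ = 8 ^ s * (2 * ((2 : ℝ) ^ i) ^ (s - 1) * bs (k + 1) (2 ^ i)) + 8 ^ s * (((2 : ℝ) ^ i) ^ (s - 1) * (e1 + e2)) := by
          ring
      _ ≤ 8 ^ s * (2 * ((2 : ℝ) ^ i) ^ (s - 1) * bs (k + 1) (2 ^ i)) + 8 ^ s * ((L ^ (s - 2) * 2 ^ i) * (e1 + e2)) := by
          have : ((2 : ℝ) ^ i) ^ (s - 1) * (e1 + e2) ≤ (L ^ (s - 2) * 2 ^ i) * (e1 + e2) :=
            mul_le_mul_of_nonneg_right h10 (by linarith)
          have h8s : (0 : ℝ) < 8 ^ s := by positivity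
          have := mul_le_mul_of_nonneg_left this h8s.le
          linarith
      _ = _ := by rw [h9]; ring
  have h3 := sum_le_sum h2
  rw [sum_add_distrib, ← mul_sum, ← mul_sum, sum_add_distrib] at h3
  have h4 := hC (4 * ((k : ℝ) + 1)) (by linarith) (I + 1)
  rw [Real.mul_rpow (by norm_num) (by linarith)] at h4
  have h5 : 8 ^ s * (4 * 2 ^ k * Real.exp 1) * ∑ i ∈ range (I + 1),
      ((2 : ℝ) ^ i) ^ (s - 1) * Real.exp (-(2 ^ i / (4 * ((k : ℝ) + 1)))) ≤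
      8 ^ s * (4 * 2 ^ k * Real.exp 1) * (Cm * (4 ^ (s - 1) * ((k : ℝ) + 1) ^ (s - 1))) :=
    mul_le_mul_of_nonneg_left h4 (by positivity)
  have h6 : ((el S k).card : ℝ) * 4 ^ s ≤ 4 ^ s * 2 ^ k * ((k : ℝ) + 1) ^ (s - 1) := by
    have h7 := card_el S k
    have h8 : 1 ≤ ((k : ℝ) + 1) ^ (s - 1) := Real.one_le_rpow (by linarith) (by linarith)
    have h9 : (0 : ℝ) < 4 ^ s := by positivity
    calc ((el S k).card : ℝ) * 4 ^ s ≤ 2 ^ k * 4 ^ s := mul_le_mul_of_nonneg_right h7 h9.le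
      _ = 4 ^ s * 2 ^ k * 1 := by ring
      _ ≤ _ := mul_le_mul_of_nonneg_left h8 (by positivity)
  have h7 : ∑ i ∈ range (I + 1), (2 : ℝ) ^ i * max (((fw (k + 1) (2 ^ i) T').card : ℝ) - bs (k + 1) (2 ^ i)) 0 =
      Y (k + 1) I T' := rfl
  have h8 : ∑ i ∈ range (I + 1), (2 : ℝ) ^ i * max (((fw k (2 ^ i) T).card : ℝ) - bs k (2 ^ i)) 0 =
      Y k I T := rfl
  rw [h8, h7] at h3
  rw [← hL]
  calc ∑ a ∈ el S k, ((nx S a : ℝ) - a) ^ s ≤ _ := h1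
    _ ≤ 4 ^ s * 2 ^ k * ((k : ℝ) + 1) ^ (s - 1) +
        (8 ^ s * (4 * 2 ^ k * Real.exp 1) * (Cm * (4 ^ (s - 1) * ((k : ℝ) + 1) ^ (s - 1))) +
        8 ^ s * L ^ (s - 2) * (Y k I T + Y (k + 1) I T')) :=
      add_le_add h6 (h3.trans (add_le_add h5 le_rfl))
    _ = _ := by ring

/-- the gap function of the moment of order `s` -/
noncomputable def FF (s : ℝ) (k : ℕ) : ℝ := ((2 : ℝ) ^ k * (k : ℝ) ^ (s - 1)) ^ (1 / s)

variable {s : ℝ}

theorem FF_pos (s : ℝ) {k : ℕ} (hk : 1 ≤ k) : 0 < FF s k := by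
  unfold FF
  have : (0 : ℝ) < k := by exact_mod_cast hk
  positivity

theorem FF_pow (hs : 2 ≤ s) (k : ℕ) : FF s k ^ s = (2 : ℝ) ^ k * (k : ℝ) ^ (s - 1) := by
  unfold FF
  rw [← Real.rpow_mul (by positivity), one_div_mul_cancel (by linarith), Real.rpow_one]

theorem FF_eq (hs : 2 ≤ s) (k : ℕ) : FF s k = (2 : ℝ) ^ ((k : ℝ) / s) * (k : ℝ) ^ ((s - 1) / s) := by
  unfold FF
  rw [Real.mul_rpow (by positivity) (by positivity), ← Real.rpow_natCast, ← Real.rpow_mul (by norm_num),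
    ← Real.rpow_mul (Nat.cast_nonneg k)]
  congr 2 <;> ring

theorem FF_div (hs : 2 ≤ s) (k : ℕ) : (k : ℝ) / FF s k = (k : ℝ) ^ (1 / s) / (2 : ℝ) ^ ((k : ℝ) / s) := by
  rcases Nat.eq_zero_or_pos k with rfl | hk
  · have h1 : (0 : ℝ) < s⁻¹ := by positivity
    simp [Real.zero_rpow h1.ne']
  · have hk0 : (0 : ℝ) < k := by exact_mod_cast hk
    have hs0 : s ≠ 0 := by linarith
    rw [FF_eq hs]
    have h1 : (k : ℝ) = (k : ℝ) ^ (1 / s) * (k : ℝ) ^ ((s - 1) / s) := by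
      rw [← Real.rpow_add hk0]
      have : 1 / s + (s - 1) / s = 1 := by field_simp; ring
      rw [this, Real.rpow_one]
    have h2 : 0 < (k : ℝ) ^ ((s - 1) / s) := by positivity
    have h3 : (0 : ℝ) < (2 : ℝ) ^ ((k : ℝ) / s) := by positivity
    rw [div_eq_div_iff (by positivity) h3.ne']
    nth_rewrite 1 [h1]
    ring

theorem two_le_FF (hs : 2 ≤ s) {k : ℕ} (hk : 1 ≤ k) : (2 : ℝ) ^ ((k : ℝ) / s) ≤ FF s k := by
  rw [FF_eq hs]
  have hk1 : (1 : ℝ) ≤ k := by exact_mod_cast hk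
  have : 1 ≤ (k : ℝ) ^ ((s - 1) / s) := Real.one_le_rpow hk1 (div_nonneg (by linarith) (by linarith))
  exact le_mul_of_one_le_right (by positivity) this

theorem one_le_FF (hs : 2 ≤ s) {k : ℕ} (hk : 1 ≤ k) : 1 ≤ FF s k := by
  refine le_trans ?_ (two_le_FF hs hk)
  exact Real.one_le_rpow (by norm_num) (div_nonneg (Nat.cast_nonneg _) (by linarith))

theorem FF_up (hs : 2 ≤ s) {k : ℕ} (hk : 1 ≤ k) : FF s k ≤ k * 2 ^ ((k : ℝ) / 2) := by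
  have hk1 : (1 : ℝ) ≤ k := by exact_mod_cast hk
  rw [FF_eq hs, mul_comm]
  have h1 : (k : ℝ) ^ ((s - 1) / s) ≤ k := by
    calc (k : ℝ) ^ ((s - 1) / s) ≤ (k : ℝ) ^ (1 : ℝ) := by
          apply Real.rpow_le_rpow_of_exponent_le hk1
          rw [div_le_one (by linarith)]
          linarith
      _ = k := Real.rpow_one _
  have h2 : (2 : ℝ) ^ ((k : ℝ) / s) ≤ 2 ^ ((k : ℝ) / 2) := by
    apply Real.rpow_le_rpow_of_exponent_le (by norm_num)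
    exact div_le_div_of_nonneg_left (by linarith) (by norm_num) hs
  exact mul_le_mul h1 h2 (by positivity) (by positivity)

theorem FF_le_two (hs : 2 ≤ s) (k : ℕ) : FF s k ≤ 2 ^ k := by
  unfold FF
  have h1 : (k : ℝ) ≤ 2 ^ k := by exact_mod_cast (Nat.lt_two_pow_self (n := k)).le
  have h2 : (k : ℝ) ^ (s - 1) ≤ ((2 : ℝ) ^ k) ^ (s - 1) := Real.rpow_le_rpow (Nat.cast_nonneg k) h1 (by linarith)
  have h3 : (2 : ℝ) ^ k * (k : ℝ) ^ (s - 1) ≤ ((2 : ℝ) ^ k) ^ s := by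
    calc (2 : ℝ) ^ k * (k : ℝ) ^ (s - 1) ≤ (2 : ℝ) ^ k * ((2 : ℝ) ^ k) ^ (s - 1) :=
          mul_le_mul_of_nonneg_left h2 (by positivity)
      _ = ((2 : ℝ) ^ k) ^ s := by
          rw [Real.rpow_sub_one (by positivity)]
          field_simp
  have h4 := Real.rpow_le_rpow (by positivity) h3 (show 0 ≤ 1 / s by positivity)
  rw [← Real.rpow_mul (by positivity), mul_one_div_cancel (by linarith), Real.rpow_one] at h4
  exact h4

theorem FF_mono (hs : 2 ≤ s) (k : ℕ) : FF s k ≤ FF s (k + 1) := by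
  unfold FF
  apply Real.rpow_le_rpow (by positivity) _ (by positivity)
  apply mul_le_mul (pow_le_pow_right₀ (by norm_num) (by omega)) _ (by positivity) (by positivity)
  apply Real.rpow_le_rpow (Nat.cast_nonneg k) _ (by linarith)
  push_cast
  linarith

/-- `F k / k ^ 2` tends to infinity -/
theorem FF_large (hs : 2 ≤ s) (C : ℝ) : ∀ᶠ k : ℕ in atTop, C * ((k : ℝ) + 1) ^ 2 ≤ FF s k := by
  have h2 : (1 : ℝ) < (2 : ℝ) ^ (1 / s) := Real.one_lt_rpow (by norm_num) (by positivity)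
  have h1 := (tendsto_pow_const_div_const_pow_of_one_lt 2 h2).eventually
    (gt_mem_nhds (show (0 : ℝ) < 1 / (4 * (|C| + 1)) by positivity))
  filter_upwards [h1, eventually_ge_atTop 1] with k hk hk1
  have hk1R : (1 : ℝ) ≤ k := by exact_mod_cast hk1
  have e : ((2 : ℝ) ^ (1 / s)) ^ k = (2 : ℝ) ^ ((k : ℝ) / s) := by
    rw [← Real.rpow_natCast, ← Real.rpow_mul (by norm_num)]
    congr 1
    ring
  rw [e, div_lt_iff₀ (by positivity)] at hk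
  refine le_trans ?_ (two_le_FF hs hk1)
  have h3 := abs_nonneg C
  have h4 := le_abs_self C
  have h5 : 4 * (|C| + 1) * (k : ℝ) ^ 2 ≤ (2 : ℝ) ^ ((k : ℝ) / s) := by
    have h6 : 4 * (|C| + 1) * (k : ℝ) ^ 2 ≤ 4 * (|C| + 1) * (1 / (4 * (|C| + 1)) * (2 : ℝ) ^ ((k : ℝ) / s)) :=
      mul_le_mul_of_nonneg_left hk.le (by positivity)
    have h7 : 4 * (|C| + 1) * (1 / (4 * (|C| + 1)) * (2 : ℝ) ^ ((k : ℝ) / s)) = (2 : ℝ) ^ ((k : ℝ) / s) := by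
      field_simp
    linarith
  have h6 : ((k : ℝ) + 1) ^ 2 ≤ 4 * (k : ℝ) ^ 2 := by nlinarith
  have h7 : C * ((k : ℝ) + 1) ^ 2 ≤ (|C| + 1) * (4 * (k : ℝ) ^ 2) :=
    mul_le_mul (by linarith) h6 (by positivity) (by positivity)
  linarith

end Pool.Agent.Q197.PD
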