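import Pool.Agent.Q197.PD.Mom

/-!
# Moments of gaps: the order of magnitude
-/

set_option autoImplicit false

namespace Pool.Agent.Q197.PD

open Finset MeasureTheory Filter Pool.Agent.Q120.ET Pool.Agent.Q120.SP

variable {s : ℝ}

/-- the largest exponent -/
noncomputable def JJ (s : ℝ) (k : ℕ) : ℕ := Nat.log 2 ⌊FF s k⌋₊

theorem pow_JJ (hs : 2 ≤ s) {k : ℕ} (hk : 1 ≤ k) : (2 : ℝ) ^ JJ s k ≤ FF s k := by
  have h1 : 1 ≤ ⌊FF s k⌋₊ := Nat.le_floor (by simpa using one_le_FF hs hk)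
  have h2 : 2 ^ JJ s k ≤ ⌊FF s k⌋₊ := Nat.pow_log_le_self 2 (by omega)
  calc (2 : ℝ) ^ JJ s k = ((2 ^ JJ s k : ℕ) : ℝ) := by push_cast; rfl
    _ ≤ (⌊FF s k⌋₊ : ℝ) := by exact_mod_cast h2
    _ ≤ _ := Nat.floor_le (FF_pos s hk).le

theorem lt_pow_JJ (s : ℝ) (k : ℕ) : FF s k < (2 : ℝ) ^ (JJ s k + 1) := by
  have h1 : ⌊FF s k⌋₊ < 2 ^ (JJ s k + 1) := Nat.lt_pow_succ_log_self (by norm_num) _
  have h2 : ((⌊FF s k⌋₊ + 1 : ℕ) : ℝ) ≤ ((2 ^ (JJ s k + 1) : ℕ) : ℝ) := by exact_mod_cast h1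
  have h3 := Nat.lt_floor_add_one (FF s k)
  push_cast at h2
  linarith

theorem JJ_le (hs : 2 ≤ s) {k : ℕ} (hk : 1 ≤ k) : JJ s k ≤ k := by
  have h1 : (2 : ℝ) ^ JJ s k ≤ 2 ^ k := (pow_JJ hs hk).trans (FF_le_two hs k)
  exact (pow_le_pow_iff_right₀ (by norm_num : (1 : ℝ) < 2)).1 h1

theorem JJ_mono (hs : 2 ≤ s) (k : ℕ) : JJ s k ≤ JJ s (k + 1) :=
  Nat.log_mono_right (Nat.floor_le_floor (FF_mono hs k))

/-- the normalised excess -/
noncomputable def RR (s : ℝ) (k : ℕ) (T : Finset ℕ) : ℝ :=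
  ((2 : ℝ) ^ JJ s k) ^ (s - 2) * Y k (JJ s k) T / ((2 : ℝ) ^ k * (k : ℝ) ^ (s - 1))

theorem RR_nonneg (s : ℝ) (k : ℕ) (T : Finset ℕ) : 0 ≤ RR s k T := by
  have := Y_nonneg k (JJ s k) T
  unfold RR
  positivity

variable {Ω : Type} [MeasurableSpace Ω] {μ : Measure Ω} [IsProbabilityMeasure μ] {A : Ω → Set ℕ}

theorem summable_FF (hs : 2 ≤ s) : Summable fun k : ℕ => (k : ℝ) / FF s k := by
  have h1 := summable_lin (show (0 : ℝ) < 1 / s by positivity)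
  refine Summable.of_nonneg_of_le (fun k => ?_) (fun k => ?_) h1
  · unfold FF; positivity
  · rcases Nat.eq_zero_or_pos k with rfl | hk
    · simp
    · apply div_le_div_of_nonneg_left (Nat.cast_nonneg k) (by positivity)
      have e : (1 : ℝ) / s * k = k / s := by ring
      rw [e]
      exact two_le_FF hs hk

theorem ae_RR (hs : 2 ≤ s) (hA : IsRandomSet A) {d : ℕ → ℝ}
    (hsum : Summable fun k : ℕ => d k * ((k : ℝ) / FF s k))
    (hdd : ∀ᶠ k : ℕ in atTop, relEntropy μ A (block k) ≤ d k) :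
    ∀ᵐ ω ∂μ, Summable fun k => RR s k (tr A (block k) ω) := by
  have h1 : Summable fun k : ℕ => 8 * (d k * ((k : ℝ) / FF s k)) + 8 * ((k : ℝ) / FF s k) :=
    (hsum.mul_left 8).add ((summable_FF hs).mul_left 8)
  refine ae_summable hA (fun k T => RR s k T) (fun k T => RR_nonneg s k T) h1 ?_
  filter_upwards [hdd, eventually_ge_atTop 2] with k hk hk2
  have hk0 : (0 : ℝ) < k := by exact_mod_cast (show 0 < k by omega)
  have h2 := mean_Y (I := JJ s k) hk2 (lawOn μ A (block k)) (fun T _ => measureReal_nonneg)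
    (sum_law hA (block k)) (D := d k) hk
  have hD0 : 0 ≤ d k := by
    have h1 := entropy_fun (fun n hn => three_le_of_mem_block hk2 hn) (lawOn μ A (block k))
      (fun T _ => measureReal_nonneg) (sum_law hA (block k)) (fun _ => 0)
    simp only [mul_zero, sum_const_zero, Real.exp_zero, mul_one] at h1
    rw [sum_cramerOn] at h1
    unfold relEntropy at hk
    linarith
  have hF := FF_pos s (show 1 ≤ k by omega)
  have h3 : ∑ T ∈ (block k).powerset, lawOn μ A (block k) T * RR s k T =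
      ((2 : ℝ) ^ JJ s k) ^ (s - 2) * (∑ T ∈ (block k).powerset, lawOn μ A (block k) T * Y k (JJ s k) T) /
        ((2 : ℝ) ^ k * (k : ℝ) ^ (s - 1)) := by
    rw [mul_sum, sum_div]
    refine sum_congr rfl fun T _ => ?_
    rw [RR]
    ring
  rw [h3, ← FF_pow hs, div_le_iff₀ (by positivity)]
  have h4 : ((2 : ℝ) ^ JJ s k) ^ (s - 2) * (2 : ℝ) ^ (JJ s k + 1) ≤ 2 * FF s k ^ (s - 1) := by
    have h5 : (2 : ℝ) ^ (JJ s k + 1) = 2 * 2 ^ JJ s k := by rw [pow_succ]; ring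
    have h6 : ((2 : ℝ) ^ JJ s k) ^ (s - 2) * 2 ^ JJ s k = ((2 : ℝ) ^ JJ s k) ^ (s - 1) := by
      have e : s - 1 = (s - 2) + 1 := by ring
      rw [e, Real.rpow_add_one (by positivity)]
    have h7 : ((2 : ℝ) ^ JJ s k) ^ (s - 1) ≤ FF s k ^ (s - 1) :=
      Real.rpow_le_rpow (by positivity) (pow_JJ hs (by omega)) (by linarith)
    rw [h5]
    calc ((2 : ℝ) ^ JJ s k) ^ (s - 2) * (2 * 2 ^ JJ s k) = 2 * (((2 : ℝ) ^ JJ s k) ^ (s - 2) * 2 ^ JJ s k) := by ring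
      _ ≤ _ := by rw [h6]; linarith
  calc ((2 : ℝ) ^ JJ s k) ^ (s - 2) * (∑ T ∈ (block k).powerset, lawOn μ A (block k) T * Y k (JJ s k) T) ≤
      ((2 : ℝ) ^ JJ s k) ^ (s - 2) * (2 ^ (JJ s k + 1) * (4 * k * (d k + 1))) :=
        mul_le_mul_of_nonneg_left h2 (by positivity)
    _ = (((2 : ℝ) ^ JJ s k) ^ (s - 2) * (2 : ℝ) ^ (JJ s k + 1)) * (4 * k * (d k + 1)) := by ring
    _ ≤ 2 * FF s k ^ (s - 1) * (4 * k * (d k + 1)) := mul_le_mul_of_nonneg_right h4 (by positivity)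
    _ = (8 * (d k * ((k : ℝ) / FF s k)) + 8 * ((k : ℝ) / FF s k)) * FF s k ^ s := by
        rw [Real.rpow_sub_one hF.ne']
        field_simp
        ring

/-- the hypotheses on a set -/
structure Good2 (s : ℝ) (S : Set ℕ) (T : ℕ → Finset ℕ) : Prop where
  tr : ∀ k, ∀ n ∈ T k, n ∈ S
  inf : S.Infinite
  sum : Summable fun k => RR s k (T k)

variable {S : Set ℕ} {T : ℕ → Finset ℕ}

/-- comparison of consecutive blocks -/
theorem norm_succ (hs : 2 ≤ s) {k : ℕ} (hk : 1 ≤ k) :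
    (2 : ℝ) ^ (k + 1) * ((k + 1 : ℕ) : ℝ) ^ (s - 1) ≤ 2 ^ s * ((2 : ℝ) ^ k * (k : ℝ) ^ (s - 1)) := by
  have hk1 : (1 : ℝ) ≤ k := by exact_mod_cast hk
  have h1 : ((k + 1 : ℕ) : ℝ) ^ (s - 1) ≤ (2 * k) ^ (s - 1) := by
    apply Real.rpow_le_rpow (Nat.cast_nonneg _) _ (by linarith)
    push_cast
    linarith
  rw [Real.mul_rpow (by norm_num) (by linarith)] at h1
  have h2 : (2 : ℝ) ^ s = 2 * 2 ^ (s - 1) := by
    rw [Real.rpow_sub_one (by norm_num)]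
    ring
  rw [h2, pow_succ]
  calc (2 : ℝ) ^ k * 2 * ((k + 1 : ℕ) : ℝ) ^ (s - 1) ≤ (2 : ℝ) ^ k * 2 * (2 ^ (s - 1) * (k : ℝ) ^ (s - 1)) :=
        mul_le_mul_of_nonneg_left h1 (by positivity)
    _ = _ := by ring

/-- the excess in two consecutive blocks -/
theorem two_blocks (hs : 2 ≤ s) {k : ℕ} (hk : 1 ≤ k) (T T' : Finset ℕ) :
    ((2 : ℝ) ^ JJ s k) ^ (s - 2) * (Y k (JJ s k) T + Y (k + 1) (JJ s k) T') ≤
      (2 : ℝ) ^ k * (k : ℝ) ^ (s - 1) * (RR s k T + 2 ^ s * RR s (k + 1) T') := by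
  have hk0 : (0 : ℝ) < k := by exact_mod_cast (show 0 < k by omega)
  have hN : 0 < (2 : ℝ) ^ k * (k : ℝ) ^ (s - 1) := by positivity
  have hN' : 0 < (2 : ℝ) ^ (k + 1) * ((k + 1 : ℕ) : ℝ) ^ (s - 1) := by positivity
  have h1 : ((2 : ℝ) ^ JJ s k) ^ (s - 2) * Y k (JJ s k) T = (2 : ℝ) ^ k * (k : ℝ) ^ (s - 1) * RR s k T := by
    unfold RR
    field_simp
  have h2 : ((2 : ℝ) ^ JJ s (k + 1)) ^ (s - 2) * Y (k + 1) (JJ s (k + 1)) T' =
      (2 : ℝ) ^ (k + 1) * ((k + 1 : ℕ) : ℝ) ^ (s - 1) * RR s (k + 1) T' := by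
    unfold RR
    field_simp
  have h3 : ((2 : ℝ) ^ JJ s k) ^ (s - 2) * Y (k + 1) (JJ s k) T' ≤
      ((2 : ℝ) ^ JJ s (k + 1)) ^ (s - 2) * Y (k + 1) (JJ s (k + 1)) T' := by
    apply mul_le_mul _ (Y_mono (k + 1) (JJ_mono hs k) T') (Y_nonneg _ _ _) (by positivity)
    apply Real.rpow_le_rpow (by positivity) _ (by linarith)
    exact pow_le_pow_right₀ (by norm_num) (JJ_mono hs k)
  have h4 := mul_le_mul_of_nonneg_right (norm_succ hs hk) (RR_nonneg s (k + 1) T')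
  rw [mul_add, h1]
  calc (2 : ℝ) ^ k * (k : ℝ) ^ (s - 1) * RR s k T + ((2 : ℝ) ^ JJ s k) ^ (s - 2) * Y (k + 1) (JJ s k) T' ≤
      (2 : ℝ) ^ k * (k : ℝ) ^ (s - 1) * RR s k T +
        2 ^ s * ((2 : ℝ) ^ k * (k : ℝ) ^ (s - 1)) * RR s (k + 1) T' := by linarith
    _ = _ := by ring

theorem Good2.small (h : Good2 s S T) {ε : ℝ} (hε : 0 < ε) :
    ∀ᶠ k : ℕ in atTop, RR s k (T k) + 2 ^ s * RR s (k + 1) (T (k + 1)) < ε := by
  have h1 := h.sum.tendsto_atTop_zero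
  have h2 := (tendsto_add_atTop_iff_nat 1).2 h1
  have h3 := h1.add (h2.const_mul ((2 : ℝ) ^ s))
  rw [mul_zero, add_zero] at h3
  exact h3.eventually (gt_mem_nhds hε)

/-- no long gaps -/
theorem Good2.gap (h : Good2 s S T) (hs : 2 ≤ s) :
    ∀ᶠ k : ℕ in atTop, ∀ a ∈ el S k, a < nx S a ∧ nx S a ≤ a + 2 ^ (JJ s k + 1) := by
  have hε : (0 : ℝ) < (1 / 2) ^ s / 16 := by positivity
  filter_upwards [h.small hε, eventually_ge_atTop 4, FF_large hs 256] with k hk hk4 hF a ha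
  obtain ⟨b, hb, hab⟩ := h.inf.exists_gt a
  refine ⟨(nx_spec hb hab).2.1, ?_⟩
  by_contra hcon
  push Not at hcon
  have hk4R : (4 : ℝ) ≤ k := by exact_mod_cast hk4
  have hlt := lt_pow_JJ s k
  -- the exponent
  have hJ : 1 ≤ JJ s k := by
    by_contra h0
    have h0' : JJ s k = 0 := by omega
    rw [h0'] at hlt
    norm_num at hlt
    nlinarith
  obtain ⟨i, hi⟩ : ∃ i, JJ s k = i + 1 := ⟨JJ s k - 1, by omega⟩
  have hJk := JJ_le hs (show 1 ≤ k by omega)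
  have h1 := long_count (S := S) (k := k) (i := i) (by omega) (by omega) (h.tr k) (h.tr (k + 1))
  have h2 : (1 : ℝ) ≤ ((((el S k).filter fun a => a + 4 * 2 ^ i < nx S a).card : ℕ) : ℝ) := by
    have : 1 ≤ ((el S k).filter fun a => a + 4 * 2 ^ i < nx S a).card := by
      rw [Nat.one_le_iff_ne_zero, Finset.card_ne_zero]
      refine ⟨a, ?_⟩
      rw [mem_filter]
      refine ⟨ha, ?_⟩
      rw [hi] at hcon
      have e : 2 ^ (i + 1 + 1) = 4 * 2 ^ i := by rw [pow_succ, pow_succ]; ring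
      omega
    exact_mod_cast this
  obtain ⟨x, hx⟩ : ∃ x : ℝ, x = (2 : ℝ) ^ i := ⟨_, rfl⟩
  have hx0 : 0 < x := by rw [hx]; positivity
  have h2J : (2 : ℝ) ^ JJ s k = 2 * x := by rw [hi, hx, pow_succ]; ring
  have hFx : FF s k < 4 * x := by
    rw [pow_succ, h2J] at hlt
    linarith
  -- the bound is small
  have hbs : bs (k + 1) (2 ^ i) ≤ x / 4 := by
    unfold bs
    have h3 : (16 : ℝ) * ((k : ℝ) + 1) ≤ ((2 ^ i : ℕ) : ℝ) / (4 * ((k + 1 : ℕ) : ℝ)) := by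
      rw [le_div_iff₀ (by positivity)]
      push_cast
      rw [← hx]
      nlinarith
    have h4 : (2 : ℝ) ^ (k + 1) ≤ Real.exp ((k : ℝ) + 1) := by
      have h5 : (2 : ℝ) ≤ Real.exp 1 := by have := Real.add_one_le_exp (1 : ℝ); linarith
      calc (2 : ℝ) ^ (k + 1) ≤ Real.exp 1 ^ (k + 1) := pow_le_pow_left₀ (by norm_num) h5 _
        _ = Real.exp ((k : ℝ) + 1) := by
            rw [← Real.exp_nat_mul]
            push_cast
            ring_nf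
    have h6 : (2 : ℝ) ^ (k + 1) * Real.exp (1 - ((2 ^ i : ℕ) : ℝ) / (4 * ((k + 1 : ℕ) : ℝ))) ≤ 1 := by
      calc (2 : ℝ) ^ (k + 1) * Real.exp (1 - ((2 ^ i : ℕ) : ℝ) / (4 * ((k + 1 : ℕ) : ℝ))) ≤
          Real.exp ((k : ℝ) + 1) * Real.exp (1 - 16 * ((k : ℝ) + 1)) := by
            apply mul_le_mul h4 (Real.exp_le_exp.2 (by linarith)) (Real.exp_pos _).le (Real.exp_pos _).le
        _ = Real.exp ((k : ℝ) + 1 + (1 - 16 * ((k : ℝ) + 1))) := by rw [← Real.exp_add]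
        _ ≤ 1 := Real.exp_le_one_iff.2 (by linarith)
    have h7 : 4 ≤ x := by nlinarith
    linarith
  -- the excess is large
  have h3 : x * (x / 2) ≤ Y k (JJ s k) (T k) + Y (k + 1) (JJ s k) (T (k + 1)) := by
    obtain ⟨e1, he1⟩ : ∃ e1 : ℝ, e1 = max (((fw k (2 ^ i) (T k)).card : ℝ) - bs k (2 ^ i)) 0 := ⟨_, rfl⟩
    obtain ⟨e2, he2⟩ : ∃ e2 : ℝ,
      e2 = max (((fw (k + 1) (2 ^ i) (T (k + 1))).card : ℝ) - bs (k + 1) (2 ^ i)) 0 := ⟨_, rfl⟩
    rw [← he1, ← he2, ← hx] at h1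
    have h5 : x ≤ ((((el S k).filter fun a => a + 4 * 2 ^ i < nx S a).card : ℕ) : ℝ) * x :=
      le_mul_of_one_le_left hx0.le h2
    have h6 : x * e1 ≤ Y k (JJ s k) (T k) := by
      rw [he1, hx]
      exact single_le_sum (f := fun i => (2 : ℝ) ^ i * max (((fw k (2 ^ i) (T k)).card : ℝ) - bs k (2 ^ i)) 0)
        (fun j _ => mul_nonneg (by positivity) (le_max_right _ _)) (mem_range.2 (by omega))
    have h7 : x * e2 ≤ Y (k + 1) (JJ s k) (T (k + 1)) := by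
      rw [he2, hx]
      exact single_le_sum
        (f := fun i => (2 : ℝ) ^ i * max (((fw (k + 1) (2 ^ i) (T (k + 1))).card : ℝ) - bs (k + 1) (2 ^ i)) 0)
        (fun j _ => mul_nonneg (by positivity) (le_max_right _ _)) (mem_range.2 (by omega))
    have h8 : x / 2 ≤ e1 + e2 := by linarith
    have h9 := mul_le_mul_of_nonneg_left h8 hx0.le
    linarith
  have h4 := two_blocks hs (show 1 ≤ k by omega) (T k) (T (k + 1))
  have h5 : ((2 : ℝ) ^ JJ s k) ^ (s - 2) * (x * (x / 2)) ≤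
      ((2 : ℝ) ^ JJ s k) ^ (s - 2) * (Y k (JJ s k) (T k) + Y (k + 1) (JJ s k) (T (k + 1))) :=
    mul_le_mul_of_nonneg_left h3 (by positivity)
  have h6 : ((2 : ℝ) ^ JJ s k) ^ (s - 2) * (x * (x / 2)) = (2 * x) ^ s / 8 := by
    rw [h2J]
    have e : (2 * x) ^ s = (2 * x) ^ (s - 2) * (2 * x) ^ 2 := by
      rw [← Real.rpow_natCast (2 * x) 2, ← Real.rpow_add (by positivity)]
      congr 1
      push_cast
      ring
    rw [e]
    ring
  have h7 : (1 / 2) ^ s * ((2 : ℝ) ^ k * (k : ℝ) ^ (s - 1)) ≤ (2 * x) ^ s := by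
    rw [← FF_pow hs, ← Real.mul_rpow (by norm_num) (FF_pos s (by omega)).le]
    apply Real.rpow_le_rpow _ _ (by linarith)
    · have := FF_pos s (show 1 ≤ k by omega)
      positivity
    · linarith
  have hN : 0 < (2 : ℝ) ^ k * (k : ℝ) ^ (s - 1) := by positivity
  have h8 : (2 : ℝ) ^ k * (k : ℝ) ^ (s - 1) * (RR s k (T k) + 2 ^ s * RR s (k + 1) (T (k + 1))) <
      (2 : ℝ) ^ k * (k : ℝ) ^ (s - 1) * ((1 / 2) ^ s / 16) := mul_lt_mul_of_pos_left hk hN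
  have h9 : (0 : ℝ) < (1 / 2) ^ s * ((2 : ℝ) ^ k * (k : ℝ) ^ (s - 1)) := by positivity
  rw [h6] at h5
  have h10 : (2 : ℝ) ^ k * (k : ℝ) ^ (s - 1) * ((1 / 2) ^ s / 16) =
      (1 / 2) ^ s * ((2 : ℝ) ^ k * (k : ℝ) ^ (s - 1)) / 16 := by ring
  rw [h10] at h8
  linarith

/-- the moment over a block -/
theorem Good2.ev (h : Good2 s S T) (hs : 2 ≤ s) :
    ∃ C : ℝ, 0 < C ∧ ∀ᶠ k : ℕ in atTop, ∑ a ∈ block k, term S 1 s a ≤ C * 2 ^ k * ((k : ℝ) + 1) ^ (s - 1) := by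
  obtain ⟨C, hC, hC'⟩ := block_sum2 hs
  refine ⟨C + 8 ^ s, by positivity, ?_⟩
  filter_upwards [h.gap hs, h.small one_pos, eventually_ge_atTop 1] with k hk hk1 hk2
  rw [sum_block]
  simp_rw [Real.rpow_one]
  have h1 := hC' S (T k) (T (k + 1)) k (JJ s k) hk2 (JJ_le hs hk2) (h.tr k) (h.tr (k + 1)) hk
  refine h1.trans ?_
  have h2 := two_blocks hs hk2 (T k) (T (k + 1))
  have hk0 : (0 : ℝ) ≤ k := Nat.cast_nonneg k
  have h3 : (2 : ℝ) ^ k * (k : ℝ) ^ (s - 1) * (RR s k (T k) + 2 ^ s * RR s (k + 1) (T (k + 1))) ≤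
      (2 : ℝ) ^ k * ((k : ℝ) + 1) ^ (s - 1) * 1 := by
    apply mul_le_mul _ hk1.le _ (by positivity)
    · apply mul_le_mul_of_nonneg_left _ (by positivity)
      exact Real.rpow_le_rpow hk0 (by linarith) (by linarith)
    · have := RR_nonneg s k (T k)
      have := RR_nonneg s (k + 1) (T (k + 1))
      positivity
  have h4 := mul_le_mul_of_nonneg_left (h2.trans h3) (show (0 : ℝ) ≤ 8 ^ s by positivity)
  calc C * 2 ^ k * ((k : ℝ) + 1) ^ (s - 1) +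
        8 ^ s * ((2 : ℝ) ^ JJ s k) ^ (s - 2) * (Y k (JJ s k) (T k) + Y (k + 1) (JJ s k) (T (k + 1))) =
      C * 2 ^ k * ((k : ℝ) + 1) ^ (s - 1) +
        8 ^ s * (((2 : ℝ) ^ JJ s k) ^ (s - 2) * (Y k (JJ s k) (T k) + Y (k + 1) (JJ s k) (T (k + 1)))) := by ring
    _ ≤ C * 2 ^ k * ((k : ℝ) + 1) ^ (s - 1) + 8 ^ s * ((2 : ℝ) ^ k * ((k : ℝ) + 1) ^ (s - 1) * 1) := by linarith
    _ = _ := by ring

/-- the moment up to a power of two -/
theorem Good2.pow (h : Good2 s S T) (hs : 2 ≤ s) :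
    ∃ C : ℝ, 0 < C ∧ ∀ K : ℕ, 1 ≤ K → ∑ a ∈ range (2 ^ K), term S 1 s a ≤ C * 2 ^ K * (K : ℝ) ^ (s - 1) := by
  obtain ⟨C, hC, hC'⟩ := h.ev hs
  obtain ⟨k0, hk0⟩ := eventually_atTop.1 hC'
  have hnn := fun a => term_nonneg h.inf (zero_le_one) s a
  obtain ⟨V0, hV0⟩ : ∃ V0 : ℝ, V0 = term S 1 s 0 + ∑ k ∈ range k0, ∑ a ∈ block k, term S 1 s a := ⟨_, rfl⟩
  have hV0n : 0 ≤ V0 := by
    rw [hV0]
    exact add_nonneg (hnn 0) (sum_nonneg fun k _ => sum_nonneg fun a _ => hnn a)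
  refine ⟨C + V0, by positivity, fun K hK => ?_⟩
  have hK1 : (1 : ℝ) ≤ K := by exact_mod_cast hK
  rw [sum_pow]
  have h2 : ∀ k ∈ range K, ∑ a ∈ block k, term S 1 s a ≤
      (if k < k0 then ∑ a ∈ block k, term S 1 s a else 0) + C * (K : ℝ) ^ (s - 1) * 2 ^ k := by
    intro k hk
    rw [mem_range] at hk
    split_ifs with hkk
    · have : 0 ≤ C * (K : ℝ) ^ (s - 1) * 2 ^ k := by positivity
      linarith
    · have h3 := hk0 k (by omega)
      have h4 : ((k : ℝ) + 1) ^ (s - 1) ≤ (K : ℝ) ^ (s - 1) := by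
        apply Real.rpow_le_rpow (by positivity) _ (by linarith)
        exact_mod_cast hk
      have := mul_le_mul_of_nonneg_left h4 (show 0 ≤ C * 2 ^ k by positivity)
      linarith
  have h3 := sum_le_sum h2
  rw [sum_add_distrib, ← mul_sum] at h3
  have h4 : ∑ k ∈ range K, (if k < k0 then ∑ a ∈ block k, term S 1 s a else 0) ≤
      ∑ k ∈ range k0, ∑ a ∈ block k, term S 1 s a := by
    rw [← sum_filter]
    refine sum_le_sum_of_subset_of_nonneg (fun k hk => ?_) fun k _ _ => sum_nonneg fun a _ => hnn a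
    rw [mem_filter] at hk
    exact mem_range.2 hk.2
  have h5 := mul_le_mul_of_nonneg_left (sum_two_pow K) (show 0 ≤ C * (K : ℝ) ^ (s - 1) by positivity)
  have h7 : 1 ≤ (K : ℝ) ^ (s - 1) := Real.one_le_rpow hK1 (by linarith)
  have h8 : (1 : ℝ) ≤ 2 ^ K := one_le_pow₀ (by norm_num)
  have h9 : (1 : ℝ) ≤ 2 ^ K * (K : ℝ) ^ (s - 1) := one_le_mul_of_one_le_of_one_le h8 h7
  have h10 := mul_le_mul_of_nonneg_left h9 hV0n
  have h11 : term S 1 s 0 + ∑ k ∈ range K, ∑ a ∈ block k, term S 1 s a ≤ V0 + C * (K : ℝ) ^ (s - 1) * 2 ^ K := by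
    rw [hV0]
    linarith
  refine h11.trans ?_
  calc V0 + C * (K : ℝ) ^ (s - 1) * 2 ^ K ≤ V0 * (2 ^ K * (K : ℝ) ^ (s - 1)) + C * (K : ℝ) ^ (s - 1) * 2 ^ K := by
        linarith
    _ = _ := by ring

/-- the moment up to `x`: the sum over the consecutive elements up to `x` -/
noncomputable def mo (S : Set ℕ) (s : ℝ) (x : ℕ) : ℝ :=
  ∑ n ∈ (range x).filter (fun n => nt S (n + 1) ≤ x), ((nt S (n + 1) : ℝ) - nt S n) ^ s

theorem mo_nonneg (hS : S.Infinite) (s : ℝ) (x : ℕ) : 0 ≤ mo S s x :=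
  sum_nonneg fun n _ => Real.rpow_nonneg (by
    have : (nt S n : ℝ) ≤ nt S (n + 1) := by exact_mod_cast (nt_mono hS (Nat.lt_succ_self n)).le
    linarith) s

theorem Good2.bigO (h : Good2 s S T) (hs : 2 ≤ s) :
    (fun x : ℕ => mo S s x) =O[atTop] fun x : ℕ => (x : ℝ) * Real.log x ^ (s - 1) := by
  obtain ⟨C, hC, hC'⟩ := h.pow hs
  refine Asymptotics.IsBigO.of_bound (C * (2 * 4 ^ (s - 1))) ?_
  filter_upwards [eventually_ge_atTop 3] with x hx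
  have hxR : (3 : ℝ) ≤ x := by exact_mod_cast hx
  have hlx : 1 ≤ Real.log x := (one_lt_log hx).le
  rw [Real.norm_of_nonneg (mo_nonneg h.inf s x), Real.norm_of_nonneg (by positivity)]
  obtain ⟨K, hK⟩ : ∃ K, K = Nat.log 2 x + 1 := ⟨_, rfl⟩
  have h2 : x < 2 ^ K := by rw [hK]; exact Nat.lt_pow_succ_log_self (by norm_num) _
  have h2' : 2 ^ Nat.log 2 x ≤ x := Nat.pow_log_le_self 2 (by omega)
  have h3 : mo S s x ≤ ∑ a ∈ range (2 ^ K), term S 1 s a := by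
    have e : mo S s x = ∑ a ∈ ((range x).filter (fun n => nt S (n + 1) ≤ x)).image (nt S), term S 1 s a := by
      rw [sum_image fun a _ b _ hab => (nt_mono h.inf).injective hab]
      unfold mo
      refine sum_congr rfl fun n _ => ?_
      rw [term_nt h.inf]
      unfold dif
      rw [Real.rpow_one, Real.rpow_one]
    rw [e]
    refine sum_le_sum_of_subset_of_nonneg (fun a ha => ?_) fun a _ _ => term_nonneg h.inf zero_le_one s a
    rw [mem_image] at ha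
    obtain ⟨n, hn, rfl⟩ := ha
    rw [mem_filter] at hn
    rw [mem_range]
    have := nt_mono h.inf (Nat.lt_succ_self n)
    simp only [Nat.succ_eq_add_one] at this
    omega
  have h4 : (2 : ℝ) ^ K ≤ 2 * x := by
    rw [hK, pow_succ]
    have : (2 : ℝ) ^ Nat.log 2 x ≤ x := by exact_mod_cast h2'
    linarith
  have h5 : (K : ℝ) ≤ 4 * Real.log x := by
    have h6 : (2 : ℝ) ^ Nat.log 2 x ≤ x := by exact_mod_cast h2'
    have h7 := Real.log_le_log (by positivity) h6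
    rw [Real.log_pow] at h7
    have h8 : (1 : ℝ) / 2 ≤ Real.log 2 := by have := Real.log_two_gt_d9; linarith
    have h9 : (Nat.log 2 x : ℝ) * (1 / 2) ≤ (Nat.log 2 x : ℝ) * Real.log 2 :=
      mul_le_mul_of_nonneg_left h8 (Nat.cast_nonneg _)
    rw [hK]
    push_cast
    linarith
  have h6 : (K : ℝ) ^ (s - 1) ≤ 4 ^ (s - 1) * Real.log x ^ (s - 1) := by
    rw [← Real.mul_rpow (by norm_num) (by linarith)]
    exact Real.rpow_le_rpow (Nat.cast_nonneg _) h5 (by linarith)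
  calc mo S s x ≤ _ := h3
    _ ≤ C * 2 ^ K * (K : ℝ) ^ (s - 1) := hC' K (by omega)
    _ ≤ C * (2 * x) * (4 ^ (s - 1) * Real.log x ^ (s - 1)) := by
        apply mul_le_mul (mul_le_mul_of_nonneg_left h4 hC.le) h6 (by positivity) (by positivity)
    _ = _ := by ring

end Pool.Agent.Q197.PD
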