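import Pool.Agent.Q197.PD.MomB

/-!
# Moments of gaps: long gaps make the moment large
-/

set_option autoImplicit false

namespace Pool.Agent.Q197.PD

open Finset MeasureTheory Filter Pool.Agent.Q120.ET Pool.Agent.Q120.SP

variable {s : ℝ} {S : Set ℕ}

theorem log_small (hs : 2 ≤ s) (C : ℝ) : ∀ᶠ x : ℝ in atTop, C * (x * Real.log x ^ (s - 1)) < (x / 2) ^ s := by
  obtain ⟨c, hc⟩ : ∃ c : ℝ, c = (1 / ((|C| + 1) * 2 ^ s)) ^ (1 / (s - 1)) := ⟨_, rfl⟩
  have hc0 : 0 < c := by rw [hc]; positivity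
  have hcs : c ^ (s - 1) = 1 / ((|C| + 1) * 2 ^ s) := by
    rw [hc, ← Real.rpow_mul (by positivity), one_div_mul_cancel (by linarith), Real.rpow_one]
  filter_upwards [Real.isLittleO_log_id_atTop.bound hc0, eventually_ge_atTop 3] with x hx hx3
  have hlx : 0 < Real.log x := Real.log_pos (by linarith)
  simp only [id] at hx
  rw [Real.norm_of_nonneg hlx.le, Real.norm_of_nonneg (by linarith)] at hx
  have h1 : Real.log x ^ (s - 1) ≤ (c * x) ^ (s - 1) := Real.rpow_le_rpow hlx.le hx (by linarith)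
  rw [Real.mul_rpow hc0.le (by linarith), hcs] at h1
  have h2 : x * x ^ (s - 1) = x ^ s := by
    rw [Real.rpow_sub_one (by linarith)]
    field_simp
  have h3 : x * Real.log x ^ (s - 1) ≤ 1 / ((|C| + 1) * 2 ^ s) * x ^ s := by
    calc x * Real.log x ^ (s - 1) ≤ x * (1 / ((|C| + 1) * 2 ^ s) * x ^ (s - 1)) :=
          mul_le_mul_of_nonneg_left h1 (by linarith)
      _ = 1 / ((|C| + 1) * 2 ^ s) * (x * x ^ (s - 1)) := by ring
      _ = _ := by rw [h2]
  rw [Real.div_rpow (by linarith) (by norm_num)]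
  have h4 : 0 < x * Real.log x ^ (s - 1) := by positivity
  have h5 : C * (x * Real.log x ^ (s - 1)) < (|C| + 1) * (x * Real.log x ^ (s - 1)) :=
    mul_lt_mul_of_pos_right (by linarith [le_abs_self C]) h4
  have h6 : (|C| + 1) * (x * Real.log x ^ (s - 1)) ≤ (|C| + 1) * (1 / ((|C| + 1) * 2 ^ s) * x ^ s) :=
    mul_le_mul_of_nonneg_left h3 (by positivity)
  have h7 : (|C| + 1) * (1 / ((|C| + 1) * 2 ^ s) * x ^ s) = x ^ s / 2 ^ s := by
    have : (|C| + 1) ≠ 0 := by positivity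
    field_simp
  linarith

theorem not_bigO (hS : S.Infinite) (hs : 2 ≤ s) (hG : GapsUnbounded (FF s) S) :
    ¬ (fun x : ℕ => mo S s x) =O[atTop] fun x : ℕ => (x : ℝ) * Real.log x ^ (s - 1) := by
  intro hO
  obtain ⟨C, hC⟩ := hO.bound
  obtain ⟨x0, hx0⟩ := eventually_atTop.1 hC
  obtain ⟨x1, hx1⟩ := eventually_atTop.1 (log_small hs (|C|))
  obtain ⟨m1, hm1⟩ := exists_nat_ge x1
  obtain ⟨C1, hC1⟩ : ∃ C1 : ℝ, C1 = |C| * (4 * 3 ^ (s - 1)) + 1 := ⟨_, rfl⟩
  have hC1' : 1 ≤ C1 := by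
    rw [hC1]
    have : 0 ≤ |C| * (4 * (3 : ℝ) ^ (s - 1)) := by positivity
    linarith
  obtain ⟨k, ⟨x, h, h1, h2, h3⟩, hk⟩ := ((hG C1).and_eventually
    (eventually_ge_atTop (x0 + m1 + nt S 0 + 4))).exists
  have hkk : k < 2 ^ k := Nat.lt_two_pow_self
  have hF := one_le_FF hs (show 1 ≤ k by omega)
  have hh1 : (1 : ℝ) ≤ h := by
    calc (1 : ℝ) ≤ C1 * FF s k := one_le_mul_of_one_le_of_one_le hC1' hF
      _ ≤ h := h1
  have hh1' : 1 ≤ h := by exact_mod_cast hh1
  have hx2 : x + 1 ∈ block k := h2 (mem_Ioc.2 ⟨by omega, by omega⟩)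
  rw [block, mem_Ico] at hx2
  -- the gap
  have hx3 : nt S 0 ≤ x := by omega
  obtain ⟨n, hn⟩ : ∃ n, n = Nat.findGreatest (fun n => nt S n ≤ x) x := ⟨_, rfl⟩
  have hn2 : nt S n ≤ x := by
    rw [hn]
    exact Nat.findGreatest_spec (P := fun n => nt S n ≤ x) (Nat.zero_le x) hx3
  have hn3 : x < nt S (n + 1) := by
    by_contra hcon
    push Not at hcon
    have h4 : n + 1 ≤ x := ((nt_mono hS).id_le (n + 1)).trans hcon
    have h5 := Nat.le_findGreatest (P := fun n => nt S n ≤ x) h4 hcon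
    omega
  have hn4 : x + h < nt S (n + 1) := by
    by_contra hcon
    push Not at hcon
    exact h3 _ (nt_mem hS (n + 1)) ⟨hn3, hcon⟩
  obtain ⟨y, hy⟩ : ∃ y, y = nt S (n + 1) := ⟨_, rfl⟩
  rw [← hy] at hn3 hn4
  have hny : n < y := by
    have := (nt_mono hS).id_le (n + 1)
    simp only [id] at this
    omega
  -- the moment
  have h4 : ((y : ℝ) - x) ^ s ≤ mo S s y := by
    have h5 : ((nt S (n + 1) : ℝ) - nt S n) ^ s ≤ mo S s y := by
      unfold mo
      refine single_le_sum (f := fun n => ((nt S (n + 1) : ℝ) - nt S n) ^ s) (fun j _ => ?_)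
        (mem_filter.2 ⟨mem_range.2 hny, by rw [hy]⟩)
      apply Real.rpow_nonneg
      have : (nt S j : ℝ) ≤ nt S (j + 1) := by exact_mod_cast (nt_mono hS (Nat.lt_succ_self j)).le
      linarith
    refine le_trans ?_ h5
    apply Real.rpow_le_rpow _ _ (by linarith)
    · have : (x : ℝ) ≤ y := by exact_mod_cast hn3.le
      linarith
    · rw [← hy]
      have : (nt S n : ℝ) ≤ x := by exact_mod_cast hn2
      linarith
  have hyk : 2 ^ k < y := by omega
  have h5 := hx0 y (by omega)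
  have hyR : (3 : ℝ) ≤ y := by
    have : 3 ≤ y := by omega
    exact_mod_cast this
  have hly : 0 < Real.log y := Real.log_pos (by linarith)
  rw [Real.norm_of_nonneg (mo_nonneg hS s y), Real.norm_of_nonneg (by positivity)] at h5
  have h6 : mo S s y ≤ |C| * (y * Real.log y ^ (s - 1)) :=
    h5.trans (mul_le_mul_of_nonneg_right (le_abs_self C) (by positivity))
  rcases le_or_gt y (2 ^ (k + 2)) with hcase | hcase
  · -- a moderate gap
    have h7 : (C1 * FF s k) ^ s ≤ ((y : ℝ) - x) ^ s := by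
      apply Real.rpow_le_rpow _ _ (by linarith)
      · have := FF_pos s (show 1 ≤ k by omega)
        positivity
      · have : ((x + h : ℕ) : ℝ) ≤ y := by exact_mod_cast hn4.le
        push_cast at this
        linarith
    rw [Real.mul_rpow (by linarith) (FF_pos s (by omega)).le, FF_pow hs] at h7
    have h8 : C1 ≤ C1 ^ s := by
      calc C1 = C1 ^ (1 : ℝ) := (Real.rpow_one _).symm
        _ ≤ C1 ^ s := Real.rpow_le_rpow_of_exponent_le hC1' (by linarith)
    have hk1R : (1 : ℝ) ≤ k := by exact_mod_cast (show 1 ≤ k by omega)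
    have hyR2 : (y : ℝ) ≤ 4 * 2 ^ k := by
      have : (y : ℝ) ≤ ((2 ^ (k + 2) : ℕ) : ℝ) := by exact_mod_cast hcase
      push_cast at this
      rw [pow_add] at this
      linarith
    have h9 : Real.log y ≤ 3 * k := by
      have h10 : (y : ℝ) ≤ (2 : ℝ) ^ (k + 2) := by exact_mod_cast hcase
      have h11 := Real.log_le_log (by linarith) h10
      rw [Real.log_pow] at h11
      have h12 : Real.log 2 ≤ 1 := by have := Real.log_two_lt_d9; linarith
      push_cast at h11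
      nlinarith
    have h10 : Real.log y ^ (s - 1) ≤ 3 ^ (s - 1) * (k : ℝ) ^ (s - 1) := by
      rw [← Real.mul_rpow (by norm_num) (by linarith)]
      exact Real.rpow_le_rpow hly.le h9 (by linarith)
    have hN : 0 < (2 : ℝ) ^ k * (k : ℝ) ^ (s - 1) := by positivity
    have h11 : |C| * (y * Real.log y ^ (s - 1)) ≤
        |C| * (4 * 3 ^ (s - 1)) * ((2 : ℝ) ^ k * (k : ℝ) ^ (s - 1)) := by
      calc |C| * (y * Real.log y ^ (s - 1)) ≤ |C| * ((4 * 2 ^ k) * (3 ^ (s - 1) * (k : ℝ) ^ (s - 1))) := by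
            apply mul_le_mul_of_nonneg_left _ (abs_nonneg C)
            exact mul_le_mul hyR2 h10 (by positivity) (by positivity)
        _ = _ := by ring
    have h12 := mul_le_mul_of_nonneg_right h8 hN.le
    have h13 : |C| * (4 * 3 ^ (s - 1)) * ((2 : ℝ) ^ k * (k : ℝ) ^ (s - 1)) <
        C1 * ((2 : ℝ) ^ k * (k : ℝ) ^ (s - 1)) := mul_lt_mul_of_pos_right (by rw [hC1]; linarith) hN
    linarith
  · -- a very long gap
    have h7 : (x : ℝ) ≤ y / 2 := by
      have h8 : 2 * x ≤ y := by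
        rw [pow_add] at hcase
        rw [pow_succ] at hx2
        omega
      have : (2 : ℝ) * x ≤ y := by exact_mod_cast h8
      linarith
    have h8 : ((y : ℝ) / 2) ^ s ≤ ((y : ℝ) - x) ^ s :=
      Real.rpow_le_rpow (by positivity) (by linarith) (by linarith)
    have h9 := hx1 y (hm1.trans (by exact_mod_cast (show m1 ≤ y by omega)))
    linarith

theorem summable_two (hs : 2 ≤ s) {d : ℕ → ℝ} (hd : ∀ k, 0 ≤ d k)
    (hsum : Summable fun k : ℕ => d k * ((k : ℝ) / FF s k)) :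
    Summable fun k : ℕ => 4 * k * (d k + 1) / (2 : ℝ) ^ k := by
  have h1 : Summable fun k : ℕ => 4 * (d k * ((k : ℝ) / FF s k)) + 4 * ((k : ℝ) / FF s k) :=
    (hsum.mul_left 4).add ((summable_FF hs).mul_left 4)
  refine Summable.of_nonneg_of_le (fun k => ?_) (fun k => ?_) h1
  · have := hd k
    positivity
  · rcases Nat.eq_zero_or_pos k with rfl | hk
    · simp
    · have h2 : (k : ℝ) / 2 ^ k ≤ (k : ℝ) / FF s k :=
        div_le_div_of_nonneg_left (Nat.cast_nonneg k) (FF_pos s hk) (FF_le_two hs k)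
      have h3 := hd k
      have h4 : 4 * k * (d k + 1) / (2 : ℝ) ^ k = 4 * (d k + 1) * ((k : ℝ) / 2 ^ k) := by ring
      rw [h4]
      have h5 := mul_le_mul_of_nonneg_left h2 (show 0 ≤ 4 * (d k + 1) by linarith)
      linarith

variable {Ω : Type} [MeasurableSpace Ω] {μ : Measure Ω} [IsProbabilityMeasure μ] {A : Ω → Set ℕ}

theorem ae_good2 (hs : 2 ≤ s) (hA : IsRandomSet A) {d : ℕ → ℝ} (hd : ∀ k, 0 ≤ d k)
    (hsum : Summable fun k : ℕ => d k * ((k : ℝ) / FF s k))
    (hdd : ∀ᶠ k : ℕ in atTop, relEntropy μ A (block k) ≤ d k) :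
    ∀ᵐ ω ∂μ, Good2 s (A ω) (fun k => tr A (block k) ω) := by
  filter_upwards [ae_RR hs hA hsum hdd, ae_inf hA (summable_two hs hd hsum) hdd] with ω h1 h2
  exact ⟨fun k n hn => (mem_tr.1 hn).2, h2, h1⟩

/-- the converse -/
theorem someModel_mo (hs : 2 ≤ s) {d : ℕ → ℝ} (hd : ∀ k, 0 ≤ d k)
    (hns : ¬ Summable fun k : ℕ => d k * ((k : ℝ) / FF s k)) :
    SomeModel d (fun S => S.Infinite ∧
      ¬ (fun x : ℕ => mo S s x) =O[atTop] fun x : ℕ => (x : ℝ) * Real.log x ^ (s - 1)) := by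
  have hd' : ∀ k, 0 ≤ min (d k) (FF s k / k) := fun k => le_min (hd k) (by unfold FF; positivity)
  have hns' : ¬ Summable fun k : ℕ => min (d k) (FF s k / k) * k / FF s k := by
    intro hsum
    apply hns
    obtain ⟨k0, hk0⟩ := eventually_atTop.1
      ((hsum.tendsto_atTop_zero.eventually (gt_mem_nhds (show (0 : ℝ) < 1 by norm_num))).and (eventually_ge_atTop 1))
    rw [← summable_nat_add_iff k0]
    refine ((summable_nat_add_iff k0).2 hsum).congr fun k => ?_
    obtain ⟨h1, h2⟩ := hk0 (k + k0) (by omega)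
    have hk : (0 : ℝ) < ((k + k0 : ℕ) : ℝ) := by exact_mod_cast (show 0 < k + k0 by omega)
    have hL : 0 < FF s (k + k0) := FF_pos s h2
    have h3 : min (d (k + k0)) (FF s (k + k0) / ((k + k0 : ℕ) : ℝ)) = d (k + k0) := by
      rcases le_total (d (k + k0)) (FF s (k + k0) / ((k + k0 : ℕ) : ℝ)) with h4 | h4
      · exact min_eq_left h4
      · exfalso
        rw [min_eq_right h4, div_mul_cancel₀ _ hk.ne', div_self hL.ne'] at h1
        exact lt_irrefl _ h1
    rw [h3, mul_div_assoc]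
  have hphi : ∀ᶠ k : ℕ in atTop, (k : ℝ) / 4 ≤ FF s k / k := by
    filter_upwards [FF_large hs 1, eventually_ge_atTop 1] with k hk hk1
    have hk0 : (0 : ℝ) < k := by exact_mod_cast hk1
    rw [le_div_iff₀ hk0]
    nlinarith
  have hup : ∀ᶠ k : ℕ in atTop, FF s k ≤ k * 2 ^ ((k : ℝ) / 2) := by
    filter_upwards [eventually_ge_atTop 1] with k hk
    exact FF_up hs hk
  obtain ⟨p, hp0, hp1, h1, h2⟩ := exists_long_gaps' hphi hup hd' hns'
  have hprob := isProb_blockLaw hp0 hp1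
  refine ⟨ℕ → Finset ℕ, inferInstance, blockLaw p, hprob, fun ω => blockSet ω,
    isRandomSet_blockSet, fun k hk => (h1 k hk).trans (min_le_left _ _), ?_⟩
  have h3 : ∀ᵐ ω ∂(blockLaw p), (blockSet ω : Set ℕ).Infinite := by
    refine ae_inf (μ := blockLaw p) (A := fun ω => blockSet ω) isRandomSet_blockSet
      (d := fun k => k * (2 : ℝ) ^ ((1 / 2 : ℝ) * k)) ?_ ?_
    · have e1 := summable_pow_mul_geometric_of_norm_lt_one (R := ℝ) 2 (r := (2 : ℝ) ^ (-(1 / 2 : ℝ))) (by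
        rw [Real.norm_of_nonneg (by positivity)]
        exact Real.rpow_lt_one_of_one_lt_of_neg (by norm_num) (by norm_num))
      have e2 : Summable fun k : ℕ => 8 * ((k : ℝ) ^ 2 * ((2 : ℝ) ^ (-(1 / 2 : ℝ))) ^ k) := e1.mul_left 8
      refine Summable.of_nonneg_of_le (fun k => by positivity) (fun k => ?_) e2
      have e3 : ((2 : ℝ) ^ (-(1 / 2 : ℝ))) ^ k = ((2 : ℝ) ^ ((1 / 2 : ℝ) * k))⁻¹ := by
        rw [← Real.rpow_natCast, ← Real.rpow_mul (by norm_num), ← Real.rpow_neg (by norm_num)]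
        congr 1
        ring
      rw [e3]
      have h2 : (2 : ℝ) ^ k = (2 : ℝ) ^ ((1 / 2 : ℝ) * k) * (2 : ℝ) ^ ((1 / 2 : ℝ) * k) := by
        rw [← Real.rpow_add (by norm_num), ← Real.rpow_natCast]
        congr 1
        ring
      have h3 := one_le_L (show (0 : ℝ) < 1 / 2 by norm_num) k
      rcases Nat.eq_zero_or_pos k with rfl | hk
      · simp
      · have hk1 : (1 : ℝ) ≤ k := by exact_mod_cast hk
        rw [h2, div_le_iff₀ (by positivity)]
        have e : 8 * ((k : ℝ) ^ 2 * ((2 : ℝ) ^ ((1 / 2 : ℝ) * k))⁻¹) *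
            ((2 : ℝ) ^ ((1 / 2 : ℝ) * k) * (2 : ℝ) ^ ((1 / 2 : ℝ) * k)) =
            8 * (k : ℝ) ^ 2 * (2 : ℝ) ^ ((1 / 2 : ℝ) * k) := by field_simp
        rw [e]
        have h5 : (1 : ℝ) ≤ k * (2 : ℝ) ^ ((1 / 2 : ℝ) * k) := one_le_mul_of_one_le_of_one_le hk1 h3
        have h6 : (k : ℝ) * (k * (2 : ℝ) ^ ((1 / 2 : ℝ) * k) + 1) ≤ k * (2 * (k * (2 : ℝ) ^ ((1 / 2 : ℝ) * k))) :=
          mul_le_mul_of_nonneg_left (by linarith) (by linarith)
        nlinarith
    · filter_upwards [eventually_ge_atTop 2] with k hk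
      refine (h1 k hk).trans ((min_le_right _ _).trans ?_)
      have hk1 : (1 : ℝ) ≤ k := by exact_mod_cast (show 1 ≤ k by omega)
      refine (div_le_self (FF_pos s (by omega)).le hk1).trans ?_
      have e : (1 / 2 : ℝ) * k = k / 2 := by ring
      rw [e]
      exact FF_up hs (by omega)
  filter_upwards [h2, h3] with ω hω1 hω2
  exact ⟨hω2, not_bigO hω2 hs hω1⟩

end Pool.Agent.Q197.PD
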