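import Pool.Agent.Q197.PD.MomC

/-!
# Moments of gaps: the lower bound
-/

set_option autoImplicit false

namespace Pool.Agent.Q197.PD

open Finset MeasureTheory Filter Pool.Agent.Q120.ET Pool.Agent.Q120.SP

/-- the exponential moment of the number of elements -/
theorem exp_card (B : Finset ℕ) :
    ∑ T ∈ B.powerset, cramerOn B T * Real.exp (T.card : ℝ) =
      ∏ n ∈ B, (1 / Real.log n * Real.exp 1 + (1 - 1 / Real.log n)) := by
  rw [prod_add]
  refine sum_congr rfl fun T _ => ?_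
  unfold cramerOn
  rw [prod_mul_distrib, prod_const, ← Real.exp_nat_mul, mul_one]
  ring

/-- the bound for the number of elements of a block -/
noncomputable def bc (k : ℕ) : ℝ := 4 * 2 ^ k / k

theorem exp_card_le {k : ℕ} (hk : 2 ≤ k) :
    ∑ T ∈ (block k).powerset, cramerOn (block k) T * Real.exp (T.card : ℝ) ≤ Real.exp (bc k) := by
  have hk0 : (0 : ℝ) < k := by exact_mod_cast (show 0 < k by omega)
  rw [exp_card]
  have hB : ∀ n ∈ block k, 3 ≤ n := fun n hn => three_le_of_mem_block hk hn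
  have hl2 := Real.log_two_gt_d9
  have h1 : ∀ n ∈ block k, (1 / Real.log n * Real.exp 1 + (1 - 1 / Real.log n)) ≤ Real.exp (4 / k) := by
    intro n hn
    have h2 := mem_Ico.1 (show n ∈ Ico (2 ^ k) (2 ^ (k + 1)) from hn)
    have h4 : k * Real.log 2 ≤ Real.log n := by
      have h5 : (2 : ℝ) ^ k ≤ (n : ℝ) := by exact_mod_cast h2.1
      have := Real.log_le_log (by positivity) h5
      rwa [Real.log_pow] at this
    have h5 : k / 2 ≤ Real.log n := by nlinarith
    have h6 : 1 / Real.log n ≤ 2 / k := by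
      rw [div_le_div_iff₀ (by linarith [one_lt_log (hB n hn)]) hk0]
      linarith
    have h7 := Real.exp_one_lt_d9
    have h8 : 0 ≤ 1 / Real.log n := by
      have := one_lt_log (hB n hn)
      positivity
    have h9 := Real.add_one_le_exp (4 / (k : ℝ))
    have h10 : 1 / Real.log n * Real.exp 1 + (1 - 1 / Real.log n) ≤ 1 + 1 / Real.log n * 2 := by nlinarith
    have h11 : 1 / Real.log n * 2 ≤ 4 / k := by
      calc 1 / Real.log n * 2 ≤ 2 / k * 2 := mul_le_mul_of_nonneg_right h6 (by norm_num)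
        _ = 4 / k := by ring
    linarith
  have h0 : ∀ n ∈ block k, 0 ≤ (1 / Real.log n * Real.exp 1 + (1 - 1 / Real.log n)) := by
    intro n hn
    have h2 := one_lt_log (hB n hn)
    have : 1 / Real.log n < 1 := by rw [div_lt_one (by linarith)]; exact h2
    have h3 : 0 ≤ 1 / Real.log n := by positivity
    have h4 := Real.exp_pos 1
    nlinarith [mul_nonneg h3 h4.le]
  refine (prod_le_prod h0 h1).trans (le_of_eq ?_)
  rw [prod_const, ← Real.exp_nat_mul, bc, block, Nat.card_Ico, pow_succ]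
  congr 1
  have : 2 ^ k * 2 - 2 ^ k = 2 ^ k := by omega
  rw [this]
  push_cast
  ring

/-- the expected excess of the number of elements -/
theorem mean_card {k : ℕ} (hk : 2 ≤ k) (p : Finset ℕ → ℝ)
    (hp : ∀ T ∈ (block k).powerset, 0 ≤ p T) (hp1 : ∑ T ∈ (block k).powerset, p T = 1) {D : ℝ}
    (hD : ∑ T ∈ (block k).powerset, p T * Real.log (p T / cramerOn (block k) T) ≤ D) :
    ∑ T ∈ (block k).powerset, p T * max ((T.card : ℝ) - bc k) 0 ≤ D + 1 := by
  have hB : ∀ n ∈ block k, 3 ≤ n := fun n hn => three_le_of_mem_block hk hn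
  have h1 := entropy_fun hB p hp hp1 (fun T => max ((T.card : ℝ) - bc k) 0)
  have h5 : ∑ T ∈ (block k).powerset, cramerOn (block k) T * Real.exp (max ((T.card : ℝ) - bc k) 0) ≤ 2 := by
    have h6 : ∀ T ∈ (block k).powerset, cramerOn (block k) T * Real.exp (max ((T.card : ℝ) - bc k) 0) ≤
        cramerOn (block k) T + Real.exp (-bc k) * (cramerOn (block k) T * Real.exp (T.card : ℝ)) := by
      intro T hT
      have hq := cramerOn_pos hB (mem_powerset.1 hT)
      have h7 : Real.exp (max ((T.card : ℝ) - bc k) 0) ≤ 1 + Real.exp (-bc k) * Real.exp (T.card : ℝ) := by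
        rw [← Real.exp_add]
        rcases le_total ((T.card : ℝ) - bc k) 0 with h8 | h8
        · rw [max_eq_right h8, Real.exp_zero]
          have := Real.exp_pos (-bc k + (T.card : ℝ))
          linarith
        · rw [max_eq_left h8]
          have e : (T.card : ℝ) - bc k = -bc k + (T.card : ℝ) := by ring
          rw [e]
          linarith
      have h9 := mul_le_mul_of_nonneg_left h7 hq.le
      linarith
    refine (sum_le_sum h6).trans ?_
    rw [sum_add_distrib, sum_cramerOn, ← mul_sum]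
    have h7 := mul_le_mul_of_nonneg_left (exp_card_le hk) (Real.exp_pos (-bc k)).le
    rw [← Real.exp_add, neg_add_cancel, Real.exp_zero] at h7
    linarith
  linarith

variable {Ω : Type} [MeasurableSpace Ω] {μ : Measure Ω} [IsProbabilityMeasure μ] {A : Ω → Set ℕ}

/-- the number of elements of the blocks -/
theorem ae_card (hA : IsRandomSet A) {d : ℕ → ℝ}
    (hsum : Summable fun k : ℕ => 4 * k * (d k + 1) / (2 : ℝ) ^ k)
    (hdd : ∀ᶠ k : ℕ in atTop, relEntropy μ A (block k) ≤ d k) :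
    ∀ᵐ ω ∂μ, ∀ᶠ k : ℕ in atTop, ((tr A (block k) ω).card : ℝ) ≤ 5 * 2 ^ k / k := by
  have h1 := ae_summable (μ := μ) hA (fun k T => max ((T.card : ℝ) - bc k) 0 * (k / 2 ^ k))
    (fun k T => mul_nonneg (le_max_right _ _) (by positivity)) (hsum.mul_left (1 / 4)) (by
      filter_upwards [hdd, eventually_ge_atTop 2] with k hk hk2
      have h2 := mean_card hk2 (lawOn μ A (block k)) (fun T _ => measureReal_nonneg)
        (sum_law hA (block k)) (D := d k) hk
      have h3 : ∑ T ∈ (block k).powerset, lawOn μ A (block k) T * (max ((T.card : ℝ) - bc k) 0 * (k / 2 ^ k)) =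
          (∑ T ∈ (block k).powerset, lawOn μ A (block k) T * max ((T.card : ℝ) - bc k) 0) * (k / 2 ^ k) := by
        rw [sum_mul]
        refine sum_congr rfl fun T _ => ?_
        ring
      rw [h3]
      have h4 := mul_le_mul_of_nonneg_right h2 (show (0 : ℝ) ≤ k / 2 ^ k by positivity)
      refine h4.trans (le_of_eq ?_)
      ring)
  filter_upwards [h1] with ω hω
  filter_upwards [hω.tendsto_atTop_zero.eventually (gt_mem_nhds (show (0 : ℝ) < 1 by norm_num)),
    eventually_ge_atTop 1] with k hk hk1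
  have hk0 : (0 : ℝ) < k := by exact_mod_cast hk1
  have h2 := le_max_left (((tr A (block k) ω).card : ℝ) - bc k) 0
  have h3 : (((tr A (block k) ω).card : ℝ) - bc k) * (k / 2 ^ k) < 1 :=
    lt_of_le_of_lt (mul_le_mul_of_nonneg_right h2 (by positivity)) hk
  have h4 : ((tr A (block k) ω).card : ℝ) - bc k < 2 ^ k / k := by
    rw [lt_div_iff₀ hk0]
    have h5 : (0 : ℝ) < 2 ^ k := by positivity
    have h6 := mul_lt_mul_of_pos_right h3 h5
    have e : (((tr A (block k) ω).card : ℝ) - bc k) * (k / 2 ^ k) * 2 ^ k =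
        (((tr A (block k) ω).card : ℝ) - bc k) * k := by field_simp
    rw [e, one_mul] at h6
    exact h6
  unfold bc at h4
  have e : (5 : ℝ) * 2 ^ k / k = 4 * 2 ^ k / k + 2 ^ k / k := by ring
  rw [e]
  linarith

variable {S : Set ℕ} {T : ℕ → Finset ℕ}

theorem sum_two_div (K : ℕ) : ∑ k ∈ range (K + 1), (2 : ℝ) ^ k / k ≤ 4 * 2 ^ K / K + 4 := by
  induction K with
  | zero => simp
  | succ K ih =>
    rw [sum_range_succ]
    rcases Nat.lt_or_ge K 2 with hK | hK
    · interval_cases K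
      · norm_num [sum_range_succ]
      · have e : ∑ k ∈ range (1 + 1), (2 : ℝ) ^ k / k = 2 := by
          simp [sum_range_succ]
        rw [e]
        norm_num
    · have hK0 : (2 : ℝ) ≤ K := by exact_mod_cast hK
      have h1 : (4 : ℝ) * 2 ^ K / K + 2 ^ (K + 1) / ((K + 1 : ℕ) : ℝ) ≤ 4 * 2 ^ (K + 1) / ((K + 1 : ℕ) : ℝ) := by
        push_cast
        rw [pow_succ, div_add_div _ _ (by positivity) (by positivity), div_le_div_iff₀ (by positivity) (by positivity)]
        have h2 : (0 : ℝ) < 2 ^ K := by positivity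
        nlinarith [mul_pos h2 (show (0 : ℝ) < (K : ℝ) + 1 by linarith),
          mul_nonneg (mul_pos h2 (show (0 : ℝ) < (K : ℝ) + 1 by linarith)).le (show (0 : ℝ) ≤ K - 2 by linarith)]
      linarith

theorem el_eq_tr (A : Ω → Set ℕ) (k : ℕ) (ω : Ω) : el (A ω) k = tr A (block k) ω := by
  ext a
  rw [mem_el, mem_tr]

/-- the number of elements below a power of two -/
theorem count_le (hS : S.Infinite) (K n : ℕ) (hn : nt S n ≤ 2 ^ (K + 1)) :
    (n : ℝ) ≤ 1 + ∑ k ∈ range (K + 1), ((el S k).card : ℝ) := by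
  have hnn := fun a => term_nonneg hS (zero_le_one) (0 : ℝ) a
  have h1 : (n : ℝ) = ∑ j ∈ range n, term S 1 0 (nt S j) := by
    have : ∀ j ∈ range n, term S 1 0 (nt S j) = 1 := fun j _ => by rw [term_nt hS, Real.rpow_zero]
    rw [sum_congr rfl this]
    simp
  have h2 : ∑ j ∈ range n, term S 1 0 (nt S j) = ∑ a ∈ (range n).image (nt S), term S 1 0 a := by
    rw [sum_image fun a _ b _ hab => (nt_mono hS).injective hab]
  have h3 : ∑ a ∈ (range n).image (nt S), term S 1 0 a ≤ ∑ a ∈ range (2 ^ (K + 1)), term S 1 0 a := by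
    refine sum_le_sum_of_subset_of_nonneg (fun a ha => ?_) fun a _ _ => hnn a
    rw [mem_image] at ha
    obtain ⟨j, hj, rfl⟩ := ha
    rw [mem_range] at hj ⊢
    exact lt_of_lt_of_le (nt_mono hS hj) hn
  rw [sum_pow] at h3
  have h4 : term S 1 0 0 ≤ 1 := by
    unfold term
    by_cases h0 : (0 : ℕ) ∈ S
    · rw [Set.indicator_of_mem h0, Real.rpow_zero]
    · rw [Set.indicator_of_notMem h0]
      exact zero_le_one
  have h5 : ∀ k ∈ range (K + 1), ∑ a ∈ block k, term S 1 0 a = ((el S k).card : ℝ) := by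
    intro k _
    rw [sum_block]
    simp
  rw [sum_congr rfl h5] at h3
  linarith

theorem Good2.lower {s : ℝ} (h : Good2 s S T) (hs : 2 ≤ s)
    (hc : ∀ᶠ k : ℕ in atTop, ((el S k).card : ℝ) ≤ 5 * 2 ^ k / k) :
    (fun x : ℕ => (x : ℝ) * Real.log x ^ (s - 1)) =O[atTop] fun x : ℕ => mo S s x := by
  have hS := h.inf
  obtain ⟨k0, hk0⟩ := eventually_atTop.1 (h.gap hs)
  obtain ⟨k1, hk1⟩ := eventually_atTop.1 hc
  obtain ⟨a0, ha0, ha0'⟩ := hS.exists_gt (2 ^ k0)
  obtain ⟨V, hV⟩ : ∃ V : ℝ, V = 1 + ∑ k ∈ range k1, ((el S k).card : ℝ) + 20 := ⟨_, rfl⟩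
  -- the number of elements
  have hcount : ∀ K n : ℕ, nt S n ≤ 2 ^ (K + 1) → (n : ℝ) ≤ V + 20 * (2 ^ K / K) := by
    intro K n hn
    have h1 := count_le hS K n hn
    have h2 : ∀ k ∈ range (K + 1), ((el S k).card : ℝ) ≤
        (if k < k1 then ((el S k).card : ℝ) else 0) + 5 * (2 ^ k / k) := by
      intro k _
      split_ifs with hkk
      · have : (0 : ℝ) ≤ 5 * (2 ^ k / k) := by positivity
        linarith
      · have := hk1 k (by omega)
        have e : (5 : ℝ) * 2 ^ k / k = 5 * (2 ^ k / k) := by ring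
        rw [e] at this
        linarith
    have h3 := sum_le_sum h2
    rw [sum_add_distrib, ← mul_sum] at h3
    have h4 : ∑ k ∈ range (K + 1), (if k < k1 then ((el S k).card : ℝ) else 0) ≤
        ∑ k ∈ range k1, ((el S k).card : ℝ) := by
      rw [← sum_filter]
      refine sum_le_sum_of_subset_of_nonneg (fun k hk => ?_) fun k _ _ => Nat.cast_nonneg _
      rw [mem_filter] at hk
      exact mem_range.2 hk.2
    have h5 := sum_two_div K
    have e : (4 : ℝ) * 2 ^ K / K = 4 * (2 ^ K / K) := by ring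
    rw [e] at h5
    rw [hV]
    linarith
  have hlarge : ∀ᶠ K : ℕ in atTop, V ≤ 2 ^ K / K ∧ FF s K ≤ 2 ^ K / 16 ∧ 4 ≤ K := by
    have h4 := (tendsto_pow_const_div_const_pow_of_one_lt 1 (show (1 : ℝ) < 2 by norm_num)).eventually
      (gt_mem_nhds (show (0 : ℝ) < 1 / (|V| + 1) by positivity))
    filter_upwards [h4, ev_window2, eventually_ge_atTop 16] with K hK hK2 hK16
    have hK0 : (16 : ℝ) ≤ K := by exact_mod_cast hK16
    refine ⟨?_, ?_, by omega⟩
    · rw [pow_one, div_lt_iff₀ (by positivity), div_mul_eq_mul_div, one_mul, lt_div_iff₀ (by positivity)] at hK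
      rw [le_div_iff₀ (by linarith)]
      have := le_abs_self V
      nlinarith
    · have h5 := FF_up hs (show 1 ≤ K by omega)
      have h6 : (0 : ℝ) ≤ K * 2 ^ ((K : ℝ) / 2) := by positivity
      nlinarith
  obtain ⟨K0, hK0⟩ := eventually_atTop.1 hlarge
  obtain ⟨C, hC⟩ : ∃ C : ℝ, C = 2 ^ (s - 1) * (2 ^ s * 21 ^ (s - 1)) := ⟨_, rfl⟩
  refine Asymptotics.IsBigO.of_bound C ?_
  filter_upwards [eventually_ge_atTop (2 ^ K0 + a0 + 8 * nt S 0 + 3)] with x hx
  have hp1 : 1 ≤ 2 ^ K0 := Nat.one_le_two_pow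
  have hp2 : 1 ≤ 2 ^ k0 := Nat.one_le_two_pow
  have hx3 : (3 : ℝ) ≤ x := by exact_mod_cast (show 3 ≤ x by omega)
  have hlx : 1 ≤ Real.log x := (one_lt_log (by omega)).le
  rw [Real.norm_of_nonneg (by positivity), Real.norm_of_nonneg (mo_nonneg hS s x)]
  obtain ⟨K, hK⟩ : ∃ K, K = Nat.log 2 x := ⟨_, rfl⟩
  have hKx : 2 ^ K ≤ x := by rw [hK]; exact Nat.pow_log_le_self 2 (by omega)
  have hKx' : x < 2 ^ (K + 1) := by rw [hK]; exact Nat.lt_pow_succ_log_self (by norm_num) x
  have hKK0 : K0 ≤ K := by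
    rw [hK]
    exact Nat.le_log_of_pow_le (by norm_num) (by omega)
  obtain ⟨g1, g2, g3⟩ := hK0 K hKK0
  have hKR : (4 : ℝ) ≤ K := by exact_mod_cast g3
  have hKxR : (2 : ℝ) ^ K ≤ x := by exact_mod_cast hKx
  -- the last element
  obtain ⟨n, hn⟩ : ∃ n, n = Nat.findGreatest (fun n => nt S n ≤ x) x := ⟨_, rfl⟩
  have hn2 : nt S n ≤ x := by
    rw [hn]
    exact Nat.findGreatest_spec (P := fun n => nt S n ≤ x) (Nat.zero_le x) (by omega)
  have hn3 : x < nt S (n + 1) := by
    by_contra hcon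
    push Not at hcon
    have h4 : n + 1 ≤ x := ((nt_mono hS).id_le (n + 1)).trans hcon
    have h5 := Nat.le_findGreatest (P := fun n => nt S n ≤ x) h4 hcon
    omega
  have hna : a0 ≤ nt S n := by
    by_contra hcon
    push Not at hcon
    obtain ⟨-, -, h5⟩ := nx_spec ha0 hcon
    rw [nx_nt hS] at h5
    omega
  -- the last gap
  obtain ⟨k, hk⟩ : ∃ k, k = Nat.log 2 (nt S n) := ⟨_, rfl⟩
  have hkb : nt S n ∈ block k := by rw [hk]; exact mem_block_log (by omega)
  have hkk0 : k0 ≤ k := by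
    rw [hk]
    exact Nat.le_log_of_pow_le (by norm_num) (by omega)
  have hkK : k ≤ K := by rw [hk, hK]; exact Nat.log_mono_right hn2
  have h1 := (hk0 k hkk0 (nt S n) (mem_el.2 ⟨hkb, nt_mem hS n⟩)).2
  rw [nx_nt hS] at h1
  have h2 : (2 : ℝ) ^ (JJ s k + 1) ≤ x / 8 := by
    rcases Nat.eq_zero_or_pos k with hk0' | hkpos
    · rw [hk0']
      have h3 : JJ s 0 = 0 := by
        unfold JJ FF
        have h4 : (0 : ℝ) < 1 / s := by positivity
        have h5 : (0 : ℝ) ^ (s - 1) = 0 := Real.zero_rpow (by linarith)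
        simp only [CharP.cast_eq_zero, h5, mul_zero, Real.zero_rpow h4.ne', Nat.floor_zero, Nat.log_zero_right]
      rw [h3]
      have h6 : (16 : ℝ) ≤ 2 ^ K := by
        calc (16 : ℝ) = 2 ^ 4 := by norm_num
          _ ≤ 2 ^ K := pow_le_pow_right₀ (by norm_num) g3
      norm_num
      linarith
    · have h3 := pow_JJ hs hkpos
      have h4 : FF s k ≤ FF s K := monotone_nat_of_le_succ (FF_mono hs) hkK
      rw [pow_succ]
      linarith
  have h3 : (nt S (n + 1) : ℝ) ≤ nt S n + x / 8 := by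
    have : (nt S (n + 1) : ℝ) ≤ ((nt S n + 2 ^ (JJ s k + 1) : ℕ) : ℝ) := by exact_mod_cast h1
    push_cast at this
    linarith
  have hn3R : (x : ℝ) < nt S (n + 1) := by exact_mod_cast hn3
  have hn0 : (nt S 0 : ℝ) ≤ x / 8 := by
    have : 8 * nt S 0 ≤ x := by omega
    have : (8 : ℝ) * nt S 0 ≤ x := by exact_mod_cast this
    linarith
  -- the moment
  have hmo : mo S s x = ∑ j ∈ range n, ((nt S (j + 1) : ℝ) - nt S j) ^ s := by
    unfold mo
    congr 1
    ext j
    rw [mem_filter, mem_range, mem_range]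
    constructor
    · rintro ⟨-, h5⟩
      by_contra hcon
      have := (nt_mono hS).monotone (show n + 1 ≤ j + 1 by omega)
      omega
    · intro hj
      have h5 := (nt_mono hS).monotone (show j + 1 ≤ n by omega)
      have h6 := (nt_mono hS).id_le (j + 1)
      simp only [id] at h6
      exact ⟨by omega, by omega⟩
  have hg0 : ∀ j ∈ range n, 0 ≤ ((nt S (j + 1) : ℝ) - nt S j) := fun j _ => by
    have : (nt S j : ℝ) ≤ nt S (j + 1) := by exact_mod_cast (nt_mono hS (Nat.lt_succ_self j)).le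
    linarith
  have h4 := Real.rpow_sum_le_const_mul_sum_rpow_of_nonneg (s := range n)
    (f := fun j => ((nt S (j + 1) : ℝ) - nt S j)) (p := s) (by linarith) hg0
  rw [card_range, Finset.sum_range_sub (fun j => (nt S j : ℝ)), ← hmo] at h4
  have h5 : (x / 2 : ℝ) ^ s ≤ ((nt S n : ℝ) - nt S 0) ^ s :=
    Real.rpow_le_rpow (by positivity) (by linarith) (by linarith)
  have h6 : (n : ℝ) ≤ 21 * (x / K) := by
    have h7 := hcount K n (by omega)
    have h8 : (2 : ℝ) ^ K / K ≤ x / K := div_le_div_of_nonneg_right hKxR (by linarith)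
    linarith
  have h7 : (n : ℝ) ^ (s - 1) ≤ (21 * (x / K)) ^ (s - 1) :=
    Real.rpow_le_rpow (Nat.cast_nonneg n) h6 (by linarith)
  have h8 : (x / 2 : ℝ) ^ s ≤ (21 * (x / K)) ^ (s - 1) * mo S s x :=
    (h5.trans h4).trans (mul_le_mul_of_nonneg_right h7 (mo_nonneg hS s x))
  have hx0 : (0 : ℝ) < x := by linarith
  have hK0' : (0 : ℝ) < K := by linarith
  rw [Real.mul_rpow (by norm_num) (by positivity), Real.div_rpow hx0.le hK0'.le, Real.div_rpow hx0.le (by norm_num),
    Real.rpow_sub_one hx0.ne'] at h8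
  -- `x K ^ (s - 1) ≤ 2 ^ s 21 ^ (s - 1) mo`
  have hKs : 0 < (K : ℝ) ^ (s - 1) := by positivity
  have hxs : 0 < (x : ℝ) ^ s := by positivity
  have h9 : (x : ℝ) * (K : ℝ) ^ (s - 1) ≤ 2 ^ s * 21 ^ (s - 1) * mo S s x := by
    have h10 := mul_le_mul_of_nonneg_left h8 (show 0 ≤ 2 ^ s * x * (K : ℝ) ^ (s - 1) / (x : ℝ) ^ s by positivity)
    have e1 : 2 ^ s * x * (K : ℝ) ^ (s - 1) / (x : ℝ) ^ s * ((x : ℝ) ^ s / 2 ^ s) = x * (K : ℝ) ^ (s - 1) := by
      field_simp
    have e2 : 2 ^ s * x * (K : ℝ) ^ (s - 1) / (x : ℝ) ^ s *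
        (21 ^ (s - 1) * ((x : ℝ) ^ s / x / (K : ℝ) ^ (s - 1)) * mo S s x) = 2 ^ s * 21 ^ (s - 1) * mo S s x := by
      field_simp
    rw [e1, e2] at h10
    exact h10
  have h10 : Real.log x ≤ 2 * K := by
    have h11 : (x : ℝ) ≤ (2 : ℝ) ^ (K + 1) := by exact_mod_cast hKx'.le
    have h12 := Real.log_le_log hx0 h11
    rw [Real.log_pow] at h12
    have h13 : Real.log 2 ≤ 1 := by have := Real.log_two_lt_d9; linarith
    push_cast at h12
    nlinarith
  have h11 : Real.log x ^ (s - 1) ≤ 2 ^ (s - 1) * (K : ℝ) ^ (s - 1) := by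
    rw [← Real.mul_rpow (by norm_num) hK0'.le]
    exact Real.rpow_le_rpow (by linarith) h10 (by linarith)
  rw [hC]
  calc (x : ℝ) * Real.log x ^ (s - 1) ≤ x * (2 ^ (s - 1) * (K : ℝ) ^ (s - 1)) :=
        mul_le_mul_of_nonneg_left h11 hx0.le
    _ = 2 ^ (s - 1) * (x * (K : ℝ) ^ (s - 1)) := by ring
    _ ≤ 2 ^ (s - 1) * (2 ^ s * 21 ^ (s - 1) * mo S s x) := mul_le_mul_of_nonneg_left h9 (by positivity)
    _ = _ := by ring

end Pool.Agent.Q197.PD
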